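import Mathlib
import Pool.Agent.Helper694.CS.J_hnn_tf

/-!
HNN extensions: subgroups generated by the stable letter, maps between centraliser extensions.
-/

set_option autoImplicit false

namespace Pool.Agent.Q236.ISO

open HNNExtension HNNExtension.NormalWord
open Pool.CS.N_hnn_tf (lp_cons lp_nil lp_append)
open Pool.CS.N_hnn_tf renaming lp → wp

/-- Torsion-free. -/
def TF (G : Type) [Group G] : Prop := ∀ x : G, IsOfFinOrder x → x = 1

theorem tf_hnn {G : Type} [Group G] {A B : Subgroup G} (φ : A ≃* B) (h : TF G) :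
    TF (HNNExtension G A B φ) := by
  intro x hx
  by_contra hne
  exact Pool.CS.hnn_tf φ (fun k hk hf => hk (h k hf)) x hne hx

theorem prod_eq {G : Type} [Group G] {A B : Subgroup G} (φ : A ≃* B) (h : G)
    (l : List (ℤˣ × G)) (hc : l.IsChain (fun a b => a.2 ∈ toSubgroup A B a.1 → a.1 = b.1)) :
    (⟨h, l, hc⟩ : ReducedWord G A B).prod φ = of h * wp φ l := rfl

/-- The sub words. -/
def SW {G : Type} [Group G] {A B : Subgroup G} (φ : A ≃* B) (S : Subgroup G)
    (y : HNNExtension G A B φ) : Prop :=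
  ∃ (h : G) (l : List (ℤˣ × G)) (_ : l.IsChain (fun a b => a.2 ∈ toSubgroup A B a.1 → a.1 = b.1)),
    h ∈ S ∧ (∀ p ∈ l, p.2 ∈ S) ∧ of h * wp φ l = y

theorem slideS {G : Type} [Group G] {A B : Subgroup G} (φ : A ≃* B) (S : Subgroup G)
    (hS : ∀ a : A, (a : G) ∈ S ↔ (φ a : G) ∈ S) (e : ℤˣ) (y : G)
    (hy : y ∈ toSubgroup A B e) (hyS : y ∈ S) :
    ∃ k ∈ S, (t : HNNExtension G A B φ) ^ (e : ℤ) * of y = of k * t ^ (e : ℤ) := by
  rcases Int.units_eq_one_or e with rfl | rfl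
  · refine ⟨φ ⟨y, hy⟩, (hS _).1 hyS, ?_⟩
    have := t_mul_of (φ := φ) ⟨y, hy⟩
    simpa using this
  · refine ⟨φ.symm ⟨y, hy⟩, (hS _).2 (by simpa using hyS), ?_⟩
    have := inv_t_mul_of (φ := φ) ⟨y, hy⟩
    simpa using this

theorem SW.t_mul {G : Type} [Group G] {A B : Subgroup G} (φ : A ≃* B) (S : Subgroup G)
    (hS : ∀ a : A, (a : G) ∈ S ↔ (φ a : G) ∈ S) (e : ℤˣ) (y : HNNExtension G A B φ)
    (hy : SW φ S y) : SW φ S (t ^ (e : ℤ) * y) := by
  obtain ⟨h, l, hc, hh, hl, rfl⟩ := hy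
  rcases l with _ | ⟨⟨e1, g1⟩, l⟩
  · refine ⟨1, [(e, h)], List.isChain_singleton _, one_mem _, ?_, ?_⟩
    · simpa using hh
    · simp [wp]
  · by_cases hc1 : h ∈ toSubgroup A B e → e = e1
    · refine ⟨1, (e, h) :: (e1, g1) :: l, List.isChain_cons_cons.2 ⟨hc1, hc⟩, one_mem _, ?_, ?_⟩
      · intro p hp
        rcases List.mem_cons.1 hp with rfl | hp
        · exact hh
        · exact hl p hp
      · simp [wp, mul_assoc]
    · push Not at hc1
      obtain ⟨k, hk, hk2⟩ := slideS φ S hS e h hc1.1 hh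
      have he : e1 = -e := by
        rw [← Int.units_ne_iff_eq_neg]; exact fun h' => hc1.2 h'.symm
      refine ⟨k * g1, l, (List.isChain_cons.1 hc).2, mul_mem hk (hl _ List.mem_cons_self), ?_, ?_⟩
      · intro p hp
        exact hl p (List.mem_cons_of_mem _ hp)
      · rw [lp_cons, ← mul_assoc, hk2, he]
        simp [mul_assoc]

theorem SW.closure {G : Type} [Group G] {A B : Subgroup G} (φ : A ≃* B) (S : Subgroup G)
    (hS : ∀ a : A, (a : G) ∈ S ↔ (φ a : G) ∈ S) (y : HNNExtension G A B φ)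
    (hy : y ∈ Subgroup.closure ((of : G →* HNNExtension G A B φ) '' (S : Set G) ∪ {t})) :
    SW φ S y := by
  induction hy using Subgroup.closure_induction_left with
  | one => exact ⟨1, [], List.isChain_nil, one_mem _, by simp, by simp [wp]⟩
  | mul_left x hx y _ ih =>
    rcases hx with ⟨s, hs, rfl⟩ | rfl
    · obtain ⟨h, l, hc, hh, hl, rfl⟩ := ih
      exact ⟨s * h, l, hc, mul_mem hs hh, hl, by simp [mul_assoc]⟩
    · simpa using SW.t_mul φ S hS 1 y ih
  | inv_mul_cancel x hx y _ ih =>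
    rcases hx with ⟨s, hs, rfl⟩ | rfl
    · obtain ⟨h, l, hc, hh, hl, rfl⟩ := ih
      exact ⟨s⁻¹ * h, l, hc, mul_mem (inv_mem hs) hh, hl, by simp [mul_assoc]⟩
    · simpa using SW.t_mul φ S hS (-1) y ih

/-- A subgroup which is compatible with the isomorphism, together with the stable letter, meets
the base in itself. -/
theorem hnn_sub {G : Type} [Group G] {A B : Subgroup G} (φ : A ≃* B) (S : Subgroup G)
    (hS : ∀ a : A, (a : G) ∈ S ↔ (φ a : G) ∈ S) (x : G)
    (hx : (of x : HNNExtension G A B φ) ∈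
      Subgroup.closure ((of : G →* HNNExtension G A B φ) '' (S : Set G) ∪ {t})) : x ∈ S := by
  obtain ⟨h, l, hc, hh, hl, hx⟩ := SW.closure φ S hS _ hx
  have h1 := ReducedWord.toList_eq_nil_of_mem_of_range φ ⟨h, l, hc⟩ (by
    rw [prod_eq, hx]; exact ⟨x, rfl⟩)
  simp only at h1
  subst h1
  rw [lp_nil, mul_one] at hx
  rw [← of_injective φ hx]
  exact hh

/-- The HNN extension of `G` in which the stable letter centralises `S`. -/
abbrev CE (G : Type) [Group G] (S : Subgroup G) : Type := HNNExtension G S S (MulEquiv.refl S)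

theorem toSub {G : Type} [Group G] (S : Subgroup G) (e : ℤˣ) : toSubgroup S S e = S := by
  unfold toSubgroup
  split <;> rfl

theorem ce_lift {G : Type} [Group G] (S : Subgroup G) {H : Type} [Group H] (f : G →* H) (x : H)
    (h : ∀ a ∈ S, Commute x (f a)) :
    ∃ Φ : CE G S →* H, (∀ g, Φ (of g) = f g) ∧ Φ t = x :=
  ⟨HNNExtension.lift f x (fun a => h a a.2), fun g => lift_of _ _ _ g, lift_t _ _ _⟩

theorem ce_comm {G : Type} [Group G] (S : Subgroup G) (a : G) (ha : a ∈ S) :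
    Commute (t : CE G S) (of a) := by
  have := t_mul_of (φ := MulEquiv.refl S) ⟨a, ha⟩
  exact this

theorem ce_top {G : Type} [Group G] {A B : Subgroup G} (φ : A ≃* B) :
    Subgroup.closure (Set.range (of : G →* HNNExtension G A B φ) ∪ {t}) = ⊤ := by
  rw [eq_top_iff]
  rintro x -
  induction x using HNNExtension.induction_on with
  | of g => exact Subgroup.subset_closure (Or.inl ⟨g, rfl⟩)
  | t => exact Subgroup.subset_closure (Or.inr rfl)
  | mul x y hx hy => exact mul_mem hx hy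
  | inv x hx => exact inv_mem hx

/-- Injectivity by reduced words. -/
theorem hnn_inj {G : Type} [Group G] {A B : Subgroup G} {φ : A ≃* B} {H : Type} [Group H]
    (Φ : HNNExtension G A B φ →* H)
    (h : ∀ (g : G) (l : List (ℤˣ × G)),
      l.IsChain (fun a b => a.2 ∈ toSubgroup A B a.1 → a.1 = b.1) → Φ (of g * wp φ l) = 1 →
      l = [] ∧ g = 1) : Function.Injective Φ := by
  rw [injective_iff_map_eq_one]
  intro x hx
  obtain ⟨⟨g, l, hc⟩, rfl⟩ := Pool.CS.hnn_word φ x
  rw [prod_eq] at hx ⊢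
  obtain ⟨rfl, rfl⟩ := h g l hc hx
  simp [wp]

/-- LEMA. -/
theorem lemA (G : Type) [Group G] (S M L : Subgroup G) (h1 : S ⊓ M ≤ L) (h2 : L ≤ M)
    (x : G) (hx : (HNNExtension.of x : CE G S) ∈ Subgroup.closure
      ((fun g : G => (HNNExtension.t * HNNExtension.of g * HNNExtension.t⁻¹ : CE G S)) '' M ∪
        (fun g : G => (HNNExtension.of g : CE G S)) '' L)) : x ∈ L := by
  classical
  let Ω := G ⧸ L ⊕ G ⧸ M
  have e1 : ∀ a ∈ S, ∀ b ∈ S, (QuotientGroup.mk a : G ⧸ L) = QuotientGroup.mk b ↔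
      (QuotientGroup.mk a : G ⧸ M) = QuotientGroup.mk b := by
    intro a ha b hb
    rw [QuotientGroup.eq, QuotientGroup.eq]
    exact ⟨fun h => h2 h, fun h => h1 (Subgroup.mem_inf.2 ⟨S.mul_mem (S.inv_mem ha) hb, h⟩)⟩
  let σ : Ω → Ω := Sum.elim
    (fun y => if h : ∃ s ∈ S, (QuotientGroup.mk s : G ⧸ L) = y then Sum.inr (QuotientGroup.mk h.choose)
      else Sum.inl y)
    (fun y => if h : ∃ s ∈ S, (QuotientGroup.mk s : G ⧸ M) = y then Sum.inl (QuotientGroup.mk h.choose)
      else Sum.inr y)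
  have s1 : ∀ s ∈ S, σ (Sum.inl (QuotientGroup.mk s)) = Sum.inr (QuotientGroup.mk s) := by
    intro s hs
    have hex : ∃ s' ∈ S, (QuotientGroup.mk s' : G ⧸ L) = QuotientGroup.mk s := ⟨s, hs, rfl⟩
    have := hex.choose_spec
    simp only [σ, Sum.elim_inl]
    rw [dif_pos hex]
    exact congrArg Sum.inr ((e1 _ this.1 _ hs).1 this.2)
  have s2 : ∀ s ∈ S, σ (Sum.inr (QuotientGroup.mk s)) = Sum.inl (QuotientGroup.mk s) := by
    intro s hs
    have hex : ∃ s' ∈ S, (QuotientGroup.mk s' : G ⧸ M) = QuotientGroup.mk s := ⟨s, hs, rfl⟩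
    have := hex.choose_spec
    simp only [σ, Sum.elim_inr]
    rw [dif_pos hex]
    exact congrArg Sum.inl ((e1 _ this.1 _ hs).2 this.2)
  have s3 : ∀ y : G ⧸ L, (¬ ∃ s ∈ S, (QuotientGroup.mk s : G ⧸ L) = y) →
      σ (Sum.inl y) = Sum.inl y := by
    intro y hy
    simp only [σ, Sum.elim_inl]
    rw [dif_neg hy]
  have s4 : ∀ y : G ⧸ M, (¬ ∃ s ∈ S, (QuotientGroup.mk s : G ⧸ M) = y) →
      σ (Sum.inr y) = Sum.inr y := by
    intro y hy
    simp only [σ, Sum.elim_inr]
    rw [dif_neg hy]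
  have hinv : Function.Involutive σ := by
    rintro (y | y)
    · by_cases hy : ∃ s ∈ S, (QuotientGroup.mk s : G ⧸ L) = y
      · obtain ⟨s, hs, rfl⟩ := hy
        rw [s1 s hs, s2 s hs]
      · rw [s3 y hy, s3 y hy]
    · by_cases hy : ∃ s ∈ S, (QuotientGroup.mk s : G ⧸ M) = y
      · obtain ⟨s, hs, rfl⟩ := hy
        rw [s2 s hs, s1 s hs]
      · rw [s4 y hy, s4 y hy]
  have hcomm : ∀ a ∈ S, ∀ y, σ (a • y) = a • σ y := by
    rintro a ha (y | y)
    · by_cases hy : ∃ s ∈ S, (QuotientGroup.mk s : G ⧸ L) = y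
      · obtain ⟨s, hs, rfl⟩ := hy
        rw [s1 s hs, Sum.smul_inl, Sum.smul_inr]
        exact s1 (a * s) (mul_mem ha hs)
      · rw [s3 y hy, Sum.smul_inl]
        apply s3
        rintro ⟨s, hs, h⟩
        refine hy ⟨a⁻¹ * s, mul_mem (inv_mem ha) hs, ?_⟩
        have : (QuotientGroup.mk (a⁻¹ * s) : G ⧸ L) = a⁻¹ • (QuotientGroup.mk s : G ⧸ L) := rfl
        rw [this, h, inv_smul_smul]
    · by_cases hy : ∃ s ∈ S, (QuotientGroup.mk s : G ⧸ M) = y
      · obtain ⟨s, hs, rfl⟩ := hy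
        rw [s2 s hs, Sum.smul_inl, Sum.smul_inr]
        exact s2 (a * s) (mul_mem ha hs)
      · rw [s4 y hy, Sum.smul_inr]
        apply s4
        rintro ⟨s, hs, h⟩
        refine hy ⟨a⁻¹ * s, mul_mem (inv_mem ha) hs, ?_⟩
        have : (QuotientGroup.mk (a⁻¹ * s) : G ⧸ M) = a⁻¹ • (QuotientGroup.mk s : G ⧸ M) := rfl
        rw [this, h, inv_smul_smul]
  obtain ⟨Φ, hΦ, hΦt⟩ := ce_lift S (MulAction.toPermHom G Ω) hinv.toPerm (by
    intro a ha
    ext y
    exact hcomm a ha y)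
  let ω : Ω := Sum.inl (QuotientGroup.mk 1)
  have key : Subgroup.closure
      ((fun g : G => (HNNExtension.t * HNNExtension.of g * HNNExtension.t⁻¹ : CE G S)) '' M ∪
        (fun g : G => (HNNExtension.of g : CE G S)) '' L) ≤
      (MulAction.stabilizer (Equiv.Perm Ω) ω).comap Φ := by
    rw [Subgroup.closure_le]
    rintro y (⟨m, hm, rfl⟩ | ⟨l, hl, rfl⟩)
    · show Φ (HNNExtension.t * HNNExtension.of m * HNNExtension.t⁻¹) ω = ω
      rw [map_mul, map_mul, map_inv, hΦ, hΦt]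
      have h3 : (hinv.toPerm σ)⁻¹ ω = Sum.inr (QuotientGroup.mk 1) := by
        rw [Equiv.Perm.inv_eq_iff_eq]
        exact (s2 1 (one_mem _)).symm
      rw [Equiv.Perm.mul_apply, Equiv.Perm.mul_apply, h3]
      have h4 : (MulAction.toPermHom G Ω) m (Sum.inr (QuotientGroup.mk 1)) =
          Sum.inr (QuotientGroup.mk 1) := by
        show m • (Sum.inr (QuotientGroup.mk 1) : Ω) = _
        rw [Sum.smul_inr]
        congr 1
        show (QuotientGroup.mk (m * 1) : G ⧸ M) = _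
        rw [QuotientGroup.eq]
        simpa using hm
      rw [h4]
      exact s2 1 (one_mem _)
    · show Φ (HNNExtension.of l) ω = ω
      rw [hΦ]
      show l • (Sum.inl (QuotientGroup.mk 1) : Ω) = _
      rw [Sum.smul_inl]
      congr 1
      show (QuotientGroup.mk (l * 1) : G ⧸ L) = _
      rw [QuotientGroup.eq]
      simpa using hl
  have h5 : Φ (HNNExtension.of x) ω = ω := key hx
  rw [hΦ] at h5
  have h6 : (Sum.inl (QuotientGroup.mk (x * 1)) : Ω) = Sum.inl (QuotientGroup.mk 1) := h5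
  have h7 := Sum.inl_injective h6
  rw [QuotientGroup.eq] at h7
  simpa using h7

/-- SUBHNN. -/
theorem subHNN (A G : Type) [Group A] [Group G] (α : A →* G) (SA : Subgroup A)
    (S : Subgroup G) (hα : Function.Injective α) (hS : ∀ a, α a ∈ S ↔ a ∈ SA) :
    ∃ Φ : CE A SA →* CE G S, Function.Injective Φ ∧
      (∀ a, Φ (HNNExtension.of a) = HNNExtension.of (α a)) ∧ Φ HNNExtension.t = HNNExtension.t := by
  obtain ⟨Φ, hΦ, hΦt⟩ := ce_lift SA ((of : G →* CE G S).comp α) (t : CE G S) (by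
    intro a ha
    exact ce_comm S _ ((hS a).2 ha))
  refine ⟨Φ, ?_, hΦ, hΦt⟩
  apply hnn_inj
  intro g l hc h
  have hlp : ∀ l : List (ℤˣ × A), Φ (wp _ l) = wp (MulEquiv.refl S) (l.map (fun p => (p.1, α p.2))) := by
    intro l
    induction l with
    | nil => simp [wp]
    | cons a l ih =>
      rw [lp_cons, map_mul, ih, map_mul, map_zpow, hΦt, hΦ, List.map_cons, lp_cons]
      rfl
  have hc' : (l.map (fun p => (p.1, α p.2))).IsChain
      (fun a b => a.2 ∈ toSubgroup S S a.1 → a.1 = b.1) := by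
    rw [List.isChain_map]
    refine hc.imp ?_
    intro a b h' h''
    rw [toSub] at h' h''
    exact h' ((hS _).1 h'')
  rw [map_mul, hΦ, hlp] at h
  have h1 := ReducedWord.toList_eq_nil_of_mem_of_range (MulEquiv.refl S)
    ⟨α g, l.map (fun p => (p.1, α p.2)), hc'⟩ (by
      rw [prod_eq]
      exact ⟨1, by rw [map_one]; exact h.symm⟩)
  simp only [List.map_eq_nil_iff] at h1
  subst h1
  refine ⟨rfl, ?_⟩
  rw [List.map_nil, lp_nil, mul_one] at h
  have h2 : α g = 1 := of_injective (φ := MulEquiv.refl S) (by rw [map_one]; exact h)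
  exact hα (by rw [h2, map_one])

/-- SQUARE. -/
theorem square (K : Type) [Group K] (Q : Subgroup K) :
    ∃ ψ : CE K Q →* CE K Q, Function.Injective ψ ∧
      (∀ k, ψ (HNNExtension.of k) = HNNExtension.of k) ∧ ψ HNNExtension.t = HNNExtension.t ^ 2 := by
  obtain ⟨Φ, hΦ, hΦt⟩ := ce_lift Q (of : K →* CE K Q) ((t : CE K Q) ^ 2) (by
    intro a ha
    exact (ce_comm Q _ ha).pow_left 2)
  refine ⟨Φ, ?_, hΦ, hΦt⟩
  apply hnn_inj
  intro g l hc h
  let dbl : List (ℤˣ × K) → List (ℤˣ × K) := fun l => l.flatMap (fun p => [(p.1, 1), (p.1, p.2)])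
  have hdc : ∀ (a : ℤˣ × K) (l : List (ℤˣ × K)), dbl (a :: l) = (a.1, 1) :: (a.1, a.2) :: dbl l := by
    intro a l
    simp [dbl]
  have hlp : ∀ l : List (ℤˣ × K), Φ (wp _ l) = wp (MulEquiv.refl Q) (dbl l) := by
    intro l
    induction l with
    | nil => simp [wp, dbl]
    | cons a l ih =>
      rw [lp_cons, map_mul, ih, map_mul, map_zpow, hΦt, hΦ, hdc, lp_cons, lp_cons]
      simp only [map_one, mul_one]
      rw [← mul_assoc, ← mul_assoc, ← zpow_natCast, ← zpow_mul, ← zpow_add]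
      congr 3
      push_cast
      ring
  have hc' : ∀ l : List (ℤˣ × K),
      l.IsChain (fun a b => a.2 ∈ toSubgroup Q Q a.1 → a.1 = b.1) →
      (dbl l).IsChain (fun a b => a.2 ∈ toSubgroup Q Q a.1 → a.1 = b.1) := by
    intro l
    induction l with
    | nil => intro _; exact List.isChain_nil
    | cons a l ih =>
      intro h'
      rw [hdc, List.isChain_cons_cons]
      refine ⟨fun _ => rfl, ?_⟩
      rcases l with _ | ⟨b, l⟩
      · exact List.isChain_singleton _
      · have h2 := List.isChain_cons_cons.1 h'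
        have h3 := ih h2.2
        rw [hdc] at h3 ⊢
        exact List.isChain_cons_cons.2 ⟨h2.1, h3⟩
  rw [map_mul, hΦ, hlp] at h
  have h1 := ReducedWord.toList_eq_nil_of_mem_of_range (MulEquiv.refl Q)
    ⟨g, dbl l, hc' l hc⟩ (by
      rw [prod_eq]
      exact ⟨1, by rw [map_one]; exact h.symm⟩)
  have h2 : l = [] := by
    rcases l with _ | ⟨a, l⟩
    · rfl
    · simp only at h1
      rw [hdc] at h1
      exact absurd h1 (by simp)
  subst h2
  refine ⟨rfl, ?_⟩
  have : dbl [] = [] := rfl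
  rw [this, lp_nil, mul_one] at h
  exact of_injective (φ := MulEquiv.refl Q) (by rw [map_one]; exact h)

end Pool.Agent.Q236.ISO
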