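import Mathlib
import Pool.Agent.Q236.ISO.HN

/-!
The model of the bottom of the tower: affine maps of the space of rational functions on `K ⧸ Q`.
-/

set_option autoImplicit false

namespace Pool.Agent.Q236.ISO

/-- The situation at the bottom of the tower: `s n = x⁻ⁿ t xⁿ`, `π` is a retraction on `Q` killing
`t`. -/
structure Bot (K : Type) [Group K] (Q Rr : Subgroup K) (π : K →* K) (x t : K) : Prop where
  tf : TF K
  mem : ∀ k, π k ∈ Q
  fix : ∀ q ∈ Q, π q = q
  le : Rr ≤ Q
  x_mem : x ∈ Q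
  t_one : π t = 1

/-- `s n = x⁻ⁿ t xⁿ`. -/
def s {K : Type} [Group K] (x t : K) (n : ℤ) : K := x ^ (-n) * t * x ^ n

/-- `s n = ρ s m ρ⁻¹` with `ρ ∈ Rr`. -/
def Conn {K : Type} [Group K] (Rr : Subgroup K) (x t : K) (n m : ℤ) : Prop :=
  ∃ ρ ∈ Rr, s x t n = ρ * s x t m * ρ⁻¹

/-- The shift action. -/
def shf (K : Type) [Group K] (Q : Subgroup K) : K →* Equiv.Perm (K ⧸ Q → ℚ) where
  toFun k := ⟨fun f y => f (k⁻¹ • y), fun f y => f (k • y), fun f => by ext y; simp,
    fun f => by ext y; simp⟩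
  map_one' := by
    ext f y
    simp
  map_mul' a b := by
    ext f y
    simp [mul_smul]

theorem shf_apply {K : Type} [Group K] (Q : Subgroup K) (k : K) (f : K ⧸ Q → ℚ) (y : K ⧸ Q) :
    shf K Q k f y = f (k⁻¹ • y) := rfl

/-- The coset of `s_j⁻¹`. -/
def cj {K : Type} [Group K] (Q : Subgroup K) (x t : K) (j : ℤ) : K ⧸ Q :=
  QuotientGroup.mk (s x t j)⁻¹

theorem cj_eq {K : Type} [Group K] {Q : Subgroup K} {x t : K} (hx : x ∈ Q) (j : ℤ) :
    cj Q x t j = QuotientGroup.mk (x ^ (-j) * t⁻¹) := by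
  rw [cj, QuotientGroup.eq]
  have : (s x t j)⁻¹⁻¹ * (x ^ (-j) * t⁻¹) = x ^ (-j) := by
    unfold s
    group
  rw [this]
  exact zpow_mem hx _

theorem cj_shift {K : Type} [Group K] {Q : Subgroup K} {x t : K} (hx : x ∈ Q) (j k : ℤ) :
    (x ^ k)⁻¹ • cj Q x t j = cj Q x t (j + k) := by
  rw [cj_eq hx, cj_eq hx]
  show QuotientGroup.mk ((x ^ k)⁻¹ * (x ^ (-j) * t⁻¹)) = _
  congr 1
  rw [← mul_assoc, ← zpow_neg, ← zpow_add]
  congr 2
  ring

theorem s_eq_of {K : Type} [Group K] {Q Rr : Subgroup K} {π : K →* K} {x t : K}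
    (hb : Bot K Q Rr π x t) (σ : K) (hσ : σ ∈ Rr) (j n : ℤ)
    (h : cj Q x t j = σ • cj Q x t n) : s x t n = σ⁻¹ * s x t j * σ := by
  have h1 : cj Q x t j = QuotientGroup.mk (σ * (s x t n)⁻¹) := h
  rw [cj, QuotientGroup.eq] at h1
  have hπ : ∀ j, π (s x t j) = 1 := by
    intro j
    unfold s
    rw [map_mul, map_mul, hb.t_one, mul_one, ← map_mul, ← zpow_add]
    simp
  have h2 := hb.fix _ h1
  rw [map_mul, map_inv, map_inv, hπ, map_mul, map_inv, hπ, hb.fix σ (hb.le hσ)] at h2
  simp only [inv_one, one_mul, mul_one, inv_inv] at h2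
  have h3 : s x t n = σ⁻¹ * (s x t j * (σ * (s x t n)⁻¹)) * s x t n := by
    rw [← h2]; group
  rw [h3]
  group

/-- `GMODEL`. -/
theorem gmodel (K : Type) [Group K] (Q Rr : Subgroup K) (π : K →* K) (x t : K)
    (hb : Bot K Q Rr π x t) :
    ∃ (M : Type) (_ : Group M) (φ : K →* M) (z u : M),
      (∀ q ∈ Q, Commute z (φ q)) ∧ (∀ k, Commute u (φ k)) ∧ u⁻¹ * z * u = z ^ 2 ∧
      ∀ n : ℤ, (∀ m : ℤ, Conn Rr x t n m → 0 ≤ m) → ∀ a : ℤ,
        ((φ (s x t n))⁻¹ * z * φ (s x t n)) ^ a ∈ Subgroup.closure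
          (((Subgroup.closure {φ x * u, (φ t)⁻¹ * z ^ 2 * φ t} ⊓
            Subgroup.closure (Set.range φ ∪ {z}) : Subgroup M) : Set M) ∪ φ '' Rr) →
        ∀ g : ℤ, (∀ m : ℤ, Conn Rr x t n m → g ∣ 2 ^ (m.toNat + 1)) → g ∣ a := by
  classical
  let Ω := K ⧸ Q → ℚ
  let φ : K →* Equiv.Perm Ω := shf K Q
  let δ : K ⧸ Q → Ω := fun y => Pi.single y 1
  have hδ : ∀ (k : K) (y : K ⧸ Q), φ k (δ y) = δ (k • y) := by
    intro k y
    ext y'
    show (Pi.single y 1 : K ⧸ Q → ℚ) (k⁻¹ • y') = (Pi.single (k • y) 1 : K ⧸ Q → ℚ) y'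
    rw [Pi.single_apply, Pi.single_apply]
    congr 1
    rw [inv_smul_eq_iff]
  have hadd : ∀ (k : K) (f g : Ω), φ k (f + g) = φ k f + φ k g := fun k f g => rfl
  have hsm : ∀ (k : K) (c : ℚ) (f : Ω), φ k (c • f) = c • φ k f := fun k c f => rfl
  let z : Equiv.Perm Ω := Equiv.addRight (δ (QuotientGroup.mk 1))
  have hz : ∀ f, z f = f + δ (QuotientGroup.mk 1) := fun f => rfl
  let u : Equiv.Perm Ω := ⟨fun f => (2⁻¹ : ℚ) • f, fun f => (2 : ℚ) • f,
    fun f => by ext y; simp, fun f => by ext y; simp⟩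
  have hu : ∀ f, u f = (2⁻¹ : ℚ) • f := fun f => rfl
  have hui : ∀ f, u⁻¹ f = (2 : ℚ) • f := fun f => rfl
  have hφi : ∀ (k : K) (f : Ω), (φ k)⁻¹ f = φ k⁻¹ f := by
    intro k f
    rw [map_inv]
  have hconj : ∀ (k : K) (b : ℤ) (f : Ω), ((φ k)⁻¹ * z * φ k) ^ b • f =
      f + (b : ℚ) • δ (QuotientGroup.mk k⁻¹) := by
    intro k
    have h1 : ∀ f, ((φ k)⁻¹ * z * φ k) f = f + δ (QuotientGroup.mk k⁻¹) := by
      intro f
      rw [Equiv.Perm.mul_apply, Equiv.Perm.mul_apply, hz, hφi, hadd, hδ, ← Equiv.Perm.mul_apply,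
        ← map_mul, inv_mul_cancel, map_one]
      simp only [Equiv.Perm.coe_one, id_eq, add_right_inj]
      congr 1
      show (QuotientGroup.mk (k⁻¹ * 1) : K ⧸ Q) = _
      rw [mul_one]
    have h2 : ((φ k)⁻¹ * z * φ k) = Equiv.addRight (δ (QuotientGroup.mk k⁻¹)) := Equiv.ext h1
    intro b f
    rw [h2]
    have h3 : ∀ (c : Ω) (b : ℤ), (Equiv.addRight c : Equiv.Perm Ω) ^ b = Equiv.addRight (b • c) := by
      intro c b
      let R : Multiplicative Ω →* Equiv.Perm Ω :=
        { toFun := fun c => Equiv.addRight c.toAdd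
          map_one' := by ext f y; simp
          map_mul' := fun c d => by
            ext f y
            simp [add_comm, add_left_comm] }
      exact (map_zpow R (Multiplicative.ofAdd c) b).symm
    rw [h3]
    show f + b • δ (QuotientGroup.mk k⁻¹) = _
    rw [Int.cast_smul_eq_zsmul]
  refine ⟨Equiv.Perm Ω, inferInstance, φ, z, u, ?_, ?_, ?_, ?_⟩
  · intro q hq
    ext1 f
    rw [Equiv.Perm.mul_apply, Equiv.Perm.mul_apply, hz, hz, hadd, hδ]
    congr 2
    show (QuotientGroup.mk 1 : K ⧸ Q) = QuotientGroup.mk (q * 1)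
    rw [QuotientGroup.eq]
    simpa using hq
  · intro k
    ext1 f
    rw [Equiv.Perm.mul_apply, Equiv.Perm.mul_apply, hu, hu, hsm]
  · ext1 f
    rw [Equiv.Perm.mul_apply, Equiv.Perm.mul_apply, hu, hui, hz, pow_two, Equiv.Perm.mul_apply, hz,
      hz, smul_add, smul_smul, add_assoc, ← two_smul ℚ (δ _)]
    norm_num
  · intro n hn a ha g hg
    have hdist : ∀ i j, cj Q x t i = cj Q x t j → i = j := by
      intro i j hij
      by_contra hne
      have h1 : s x t j = s x t i := by
        have := s_eq_of hb 1 (one_mem _) i j (by rw [one_smul]; exact hij)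
        simpa using this
      -- periodicity
      have h2 : Commute (x ^ (j - i)) t := by
        unfold s at h1
        show x ^ (j - i) * t = t * x ^ (j - i)
        have h3 : x ^ j * (x ^ (-j) * t * x ^ j) * x ^ (-i) = x ^ j * (x ^ (-i) * t * x ^ i) * x ^ (-i) := by
          rw [h1]
        rw [zpow_sub]
        have e1 : x ^ j * (x ^ (-j) * t * x ^ j) * x ^ (-i) = t * (x ^ j * (x ^ i)⁻¹) := by group
        have e2 : x ^ j * (x ^ (-i) * t * x ^ i) * x ^ (-i) = x ^ j * (x ^ i)⁻¹ * t := by group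
        rw [e1, e2] at h3
        exact h3.symm
      have h3 : ∀ k : ℤ, s x t (n + (j - i) * k) = s x t n := by
        intro k
        unfold s
        have h4 : Commute (x ^ ((j - i) * k)) t := by
          rw [zpow_mul]
          exact h2.zpow_left k
        have e1 : x ^ (-(n + (j - i) * k)) = x ^ (-n) * (x ^ ((j - i) * k))⁻¹ := by
          rw [← zpow_neg, ← zpow_add]; congr 1; ring
        have e2 : x ^ (n + (j - i) * k) = x ^ ((j - i) * k) * x ^ n := by
          rw [← zpow_add]; congr 1; ring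
        rw [e1, e2]
        have e3 : x ^ (-n) * (x ^ ((j - i) * k))⁻¹ * t * (x ^ ((j - i) * k) * x ^ n) =
          x ^ (-n) * ((x ^ ((j - i) * k))⁻¹ * (t * x ^ ((j - i) * k))) * x ^ n := by group
        rw [e3, ← h4.eq]
        group
      have h4 : ∀ k : ℤ, 0 ≤ n + (j - i) * k := by
        intro k
        apply hn
        exact ⟨1, one_mem _, by rw [h3]; simp⟩
      have hd : j - i ≠ 0 := fun h => hne (by omega)
      have h5 := h4 (-(j - i) * (|n| + 1))
      have h6 : 1 ≤ (j - i) * (j - i) := by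
        have := mul_self_pos.2 hd
        omega
      have h7 := le_abs_self n
      have h8 := abs_nonneg n
      nlinarith
    -- the subgroup `V`
    let V : Subgroup (Equiv.Perm Ω) :=
      { carrier := {σ | ∃ (k : ℤ) (h : Ω), (∀ f, σ f = ((2 : ℚ) ^ (-k)) • φ (x ^ k) f + h) ∧
          (∀ j : ℤ, ∃ c : ℤ, h (cj Q x t j) = c * (2 : ℚ) ^ (j + 1)) ∧
          ∀ y, (∀ j, y ≠ cj Q x t j) → h y = 0}
        one_mem' := ⟨0, 0, by intro f; simp, fun j => ⟨0, by show (0 : ℚ) = _; simp⟩,
          fun y _ => rfl⟩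
        mul_mem' := by
          rintro σ τ ⟨k, h, h1, h2, h3⟩ ⟨k', h', h1', h2', h3'⟩
          refine ⟨k + k', ((2 : ℚ) ^ (-k)) • φ (x ^ k) h' + h, ?_, ?_, ?_⟩
          · intro f
            rw [Equiv.Perm.mul_apply, h1', h1, hadd, hsm, smul_add, smul_smul, ← add_assoc,
              ← Equiv.Perm.mul_apply, ← map_mul, ← zpow_add, ← zpow_add₀ (by norm_num)]
            congr 3
            congr 1
            ring
          · intro j
            obtain ⟨c, hc⟩ := h2 j
            obtain ⟨c', hc'⟩ := h2' (j + k)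
            refine ⟨c + c', ?_⟩
            show (2 : ℚ) ^ (-k) * h' ((x ^ k)⁻¹ • cj Q x t j) + h (cj Q x t j) = _
            rw [cj_shift hb.x_mem, hc', hc]
            have : (2 : ℚ) ^ (j + k + 1) = 2 ^ k * 2 ^ (j + 1) := by
              rw [← zpow_add₀ (by norm_num)]; congr 1; ring
            rw [this, zpow_neg]
            have h2k : (2 : ℚ) ^ k ≠ 0 := zpow_ne_zero _ (by norm_num)
            field_simp
            push_cast
            ring
          · intro y hy
            show (2 : ℚ) ^ (-k) * h' ((x ^ k)⁻¹ • y) + h y = 0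
            rw [h3 y hy, h3' ((x ^ k)⁻¹ • y), mul_zero, add_zero]
            intro j hj
            apply hy (j - k)
            have h4 : y = x ^ k • cj Q x t j := by rw [← hj, smul_inv_smul]
            have h5 := cj_shift (Q := Q) (t := t) hb.x_mem j (-k)
            rw [zpow_neg, inv_inv] at h5
            rw [h4, h5]
            rfl
        inv_mem' := by
          rintro σ ⟨k, h, h1, h2, h3⟩
          refine ⟨-k, -(((2 : ℚ) ^ k) • φ (x ^ (-k)) h), ?_, ?_, ?_⟩
          · intro f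
            rw [Equiv.Perm.inv_eq_iff_eq, h1, neg_neg, ← sub_eq_add_neg, map_zpow, map_zpow]
            have hsub : ∀ (k : K) (f g : Ω), φ k (f - g) = φ k f - φ k g := fun k f g => rfl
            rw [← map_zpow, ← map_zpow, hsub, hsm, hsm, smul_sub, smul_smul, smul_smul,
              ← Equiv.Perm.mul_apply, ← Equiv.Perm.mul_apply, ← map_mul, ← zpow_add,
              ← zpow_add₀ (by norm_num : (2 : ℚ) ≠ 0)]
            simp
          · intro j
            obtain ⟨c, hc⟩ := h2 (j - k)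
            refine ⟨-c, ?_⟩
            show -((2 : ℚ) ^ k * h ((x ^ (-k))⁻¹ • cj Q x t j)) = _
            rw [cj_shift hb.x_mem, ← sub_eq_add_neg, hc]
            have : (2 : ℚ) ^ (j + 1) = 2 ^ k * 2 ^ (j - k + 1) := by
              rw [← zpow_add₀ (by norm_num)]; congr 1; ring
            rw [this]
            push_cast
            ring
          · intro y hy
            show -((2 : ℚ) ^ k * h ((x ^ (-k))⁻¹ • y)) = 0
            rw [h3, mul_zero, neg_zero]
            intro j hj
            apply hy (j + k)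
            have h4 : y = x ^ (-k) • cj Q x t j := by rw [← hj, smul_inv_smul]
            have h5 := cj_shift (Q := Q) (t := t) hb.x_mem j k
            rw [h4, zpow_neg, h5] }
    let W : Subgroup (Equiv.Perm Ω) :=
      { carrier := {σ | ∃ (k : K) (h : Ω), ∀ f, σ f = φ k f + h}
        one_mem' := ⟨1, 0, by intro f; simp⟩
        mul_mem' := by
          rintro σ τ ⟨k, h, h1⟩ ⟨k', h', h1'⟩
          refine ⟨k * k', φ k h' + h, ?_⟩
          intro f
          rw [Equiv.Perm.mul_apply, h1', h1, hadd, ← add_assoc, map_mul, Equiv.Perm.mul_apply]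
        inv_mem' := by
          rintro σ ⟨k, h, h1⟩
          refine ⟨k⁻¹, -(φ k⁻¹ h), ?_⟩
          intro f
          have hsub : ∀ (k : K) (f g : Ω), φ k (f - g) = φ k f - φ k g := fun k f g => rfl
          rw [Equiv.Perm.inv_eq_iff_eq, h1, ← sub_eq_add_neg, hsub, ← Equiv.Perm.mul_apply,
            ← Equiv.Perm.mul_apply, ← map_mul]
          simp }
    let L : Subgroup (Equiv.Perm Ω) :=
      { carrier := {σ | ∃ ρ ∈ Rr, ∃ (h : Ω), (∀ f, σ f = φ ρ f + h) ∧
          ∀ κ ∈ Rr, ∃ c : ℤ, h (κ • cj Q x t n) = g * c}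
        one_mem' := ⟨1, one_mem _, 0, by intro f; simp, fun κ _ => ⟨0, by show (0 : ℚ) = _; simp⟩⟩
        mul_mem' := by
          rintro σ τ ⟨ρ, hρ, h, h1, h2⟩ ⟨ρ', hρ', h', h1', h2'⟩
          refine ⟨ρ * ρ', mul_mem hρ hρ', φ ρ h' + h, ?_, ?_⟩
          · intro f
            rw [Equiv.Perm.mul_apply, h1', h1, hadd, ← add_assoc, map_mul, Equiv.Perm.mul_apply]
          · intro κ hκ
            obtain ⟨c, hc⟩ := h2 κ hκ
            obtain ⟨c', hc'⟩ := h2' (ρ⁻¹ * κ) (mul_mem (inv_mem hρ) hκ)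
            refine ⟨c' + c, ?_⟩
            show h' (ρ⁻¹ • κ • cj Q x t n) + h (κ • cj Q x t n) = _
            rw [smul_smul, hc, hc']
            push_cast
            ring
        inv_mem' := by
          rintro σ ⟨ρ, hρ, h, h1, h2⟩
          refine ⟨ρ⁻¹, inv_mem hρ, -(φ ρ⁻¹ h), ?_, ?_⟩
          · intro f
            have hsub : ∀ (k : K) (f g : Ω), φ k (f - g) = φ k f - φ k g := fun k f g => rfl
            rw [Equiv.Perm.inv_eq_iff_eq, h1, ← sub_eq_add_neg, hsub, ← Equiv.Perm.mul_apply,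
              ← Equiv.Perm.mul_apply, ← map_mul]
            simp
          · intro κ hκ
            obtain ⟨c, hc⟩ := h2 (ρ * κ) (mul_mem hρ hκ)
            refine ⟨-c, ?_⟩
            show -(h (ρ⁻¹⁻¹ • κ • cj Q x t n)) = _
            rw [inv_inv, smul_smul, hc]
            push_cast
            ring }
    have hV : Subgroup.closure {φ x * u, (φ t)⁻¹ * z ^ 2 * φ t} ≤ V := by
      rw [Subgroup.closure_le]
      rintro σ (rfl | rfl)
      · refine ⟨1, 0, ?_, fun j => ⟨0, by show (0 : ℚ) = _; simp⟩, fun y _ => rfl⟩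
        intro f
        rw [Equiv.Perm.mul_apply, hu, hsm, zpow_one]
        simp
      · refine ⟨0, (2 : ℚ) • δ (cj Q x t 0), ?_, ?_, ?_⟩
        · intro f
          have h1 := hconj t 2 f
          have h2 : (φ t)⁻¹ * z ^ 2 * φ t = ((φ t)⁻¹ * z * φ t) ^ (2 : ℤ) := by
            rw [zpow_ofNat, pow_two, pow_two]; group
          rw [h2]
          have h3 : cj Q x t 0 = QuotientGroup.mk t⁻¹ := by
            rw [cj_eq hb.x_mem]; simp
          rw [h3]
          simpa using h1
        · intro j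
          by_cases hj : j = 0
          · subst hj
            refine ⟨1, ?_⟩
            show (2 : ℚ) * (Pi.single (cj Q x t 0) 1 : K ⧸ Q → ℚ) (cj Q x t 0) = _
            rw [Pi.single_eq_same]
            norm_num
          · refine ⟨0, ?_⟩
            have : cj Q x t j ≠ cj Q x t 0 := fun h => hj (hdist _ _ h)
            show (2 : ℚ) * (Pi.single (cj Q x t 0) 1 : K ⧸ Q → ℚ) (cj Q x t j) = _
            rw [Pi.single_eq_of_ne this]
            simp
        · intro y hy
          show (2 : ℚ) * (Pi.single (cj Q x t 0) 1 : K ⧸ Q → ℚ) y = _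
          rw [Pi.single_eq_of_ne (hy 0), mul_zero]
    have hW : Subgroup.closure (Set.range φ ∪ {z}) ≤ W := by
      rw [Subgroup.closure_le]
      rintro σ (⟨k, rfl⟩ | rfl)
      · exact ⟨k, 0, fun f => by rw [add_zero]⟩
      · exact ⟨1, _, fun f => by rw [hz, map_one]; rfl⟩
    have hL : Subgroup.closure
          (((Subgroup.closure {φ x * u, (φ t)⁻¹ * z ^ 2 * φ t} ⊓
            Subgroup.closure (Set.range φ ∪ {z}) : Subgroup (Equiv.Perm Ω)) :
              Set (Equiv.Perm Ω)) ∪ φ '' Rr) ≤ L := by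
      rw [Subgroup.closure_le]
      rintro σ (⟨h1, h2⟩ | ⟨ρ, hρ, rfl⟩)
      · obtain ⟨k, h, e1, e2, e3⟩ := hV h1
        obtain ⟨k', h', e4⟩ := hW h2
        have e5 : h = h' := by
          have h5 := e1 0
          have h6 := e4 0
          have h7 : ∀ k, φ k 0 = 0 := fun k => rfl
          rw [h7, smul_zero, zero_add] at h5
          rw [h7, zero_add] at h6
          rw [← h5, h6]
        subst e5
        have e6 : (2 : ℚ) ^ (-k) = 1 := by
          have h5 := (e1 (fun _ => 1)).symm.trans (e4 (fun _ => 1))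
          have h6 := congrFun (add_right_cancel h5) (QuotientGroup.mk 1)
          have h7 : (2 : ℚ) ^ (-k) * 1 = 1 := h6
          simpa using h7
        have e7 : k = 0 := by
          have := (zpow_eq_one_iff_right₀ (by norm_num : (0 : ℚ) ≤ 2) (by norm_num)).1 e6
          omega
        subst e7
        refine ⟨1, one_mem _, h, ?_, ?_⟩
        · intro f
          rw [e1]
          simp
        · intro κ hκ
          by_cases hy : ∃ j, κ • cj Q x t n = cj Q x t j
          · obtain ⟨j, hj⟩ := hy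
            have h5 := s_eq_of hb κ hκ j n hj.symm
            have h6 : Conn Rr x t n j := ⟨κ⁻¹, inv_mem hκ, by rw [h5]; simp⟩
            obtain ⟨c, hc⟩ := e2 j
            obtain ⟨d, hd⟩ := hg j h6
            have h7 := hn j h6
            refine ⟨d * c, ?_⟩
            rw [hj, hc]
            obtain ⟨j', rfl⟩ := Int.eq_ofNat_of_zero_le h7
            have h8 : (2 : ℚ) ^ ((j' : ℤ) + 1) = (g : ℚ) * d := by
              have h9 : ((2 : ℤ) ^ (j' + 1) : ℤ) = g * d := hd
              have h10 : (((2 : ℤ) ^ (j' + 1) : ℤ) : ℚ) = ((g * d : ℤ) : ℚ) := by rw [h9]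
              push_cast at h10
              rw [← h10]
              exact_mod_cast zpow_natCast (2 : ℚ) (j' + 1)
            rw [h8]
            push_cast
            ring
          · push Not at hy
            exact ⟨0, by rw [e3 _ hy]; simp⟩
      · exact ⟨ρ, hρ, 0, fun f => by rw [add_zero], fun κ _ => ⟨0, by show (0 : ℚ) = _; simp⟩⟩
    obtain ⟨ρ, hρ, h, h1, h2⟩ := hL ha
    obtain ⟨c, hc⟩ := h2 1 (one_mem _)
    have h3 := h1 0
    have h4 := hconj (s x t n) a 0
    have h5 : h = (a : ℚ) • δ (QuotientGroup.mk (s x t n)⁻¹) := by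
      have h7 : ∀ k, φ k 0 = 0 := fun k => rfl
      rw [h7, zero_add] at h3
      rw [zero_add] at h4
      rw [← h3]
      exact h4
    rw [h5, one_smul] at hc
    have h6 : (a : ℚ) = g * c := by
      have : ((a : ℚ) • δ (QuotientGroup.mk (s x t n)⁻¹)) (cj Q x t n) = a := by
        show (a : ℚ) * (Pi.single (cj Q x t n) 1 : K ⧸ Q → ℚ) (cj Q x t n) = _
        rw [Pi.single_eq_same, mul_one]
      rw [← this, hc]
    exact ⟨c, by exact_mod_cast h6⟩

end Pool.Agent.Q236.ISO
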