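import Mathlib
import Pool.Agent.Q236.ISO.HN

/-!
Multiple HNN extensions.
-/

set_option autoImplicit false

namespace Pool.Agent.Q236.ISO

theorem hnn1 (G : Type) [Group G] (Q : Type) [Group Q] (f g : Q →* G)
    (hf : Function.Injective f) (hg : Function.Injective g) :
    ∃ (K : Type) (_ : Group K) (of : G →* K) (r : K), Function.Injective of ∧
      (∀ q, r * of (f q) = of (g q) * r) ∧ (TF G → TF K) ∧
      Subgroup.closure (Set.range of ∪ {r}) = ⊤ ∧
      (∀ (H : Type) [Group H] (φ : G →* H) (s : H), (∀ q, s * φ (f q) = φ (g q) * s) →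
        ∃ Φ : K →* H, (∀ x, Φ (of x) = φ x) ∧ Φ r = s) ∧
      (∀ S : Subgroup G, (∀ q, f q ∈ S ↔ g q ∈ S) → ∀ x,
        of x ∈ Subgroup.closure (of '' (S : Set G) ∪ {r}) → x ∈ S) := by
  let e : f.range ≃* g.range := (MonoidHom.ofInjective hf).symm.trans (MonoidHom.ofInjective hg)
  have he : ∀ q, e ⟨f q, ⟨q, rfl⟩⟩ = ⟨g q, ⟨q, rfl⟩⟩ := by
    intro q
    have : (MonoidHom.ofInjective hf).symm ⟨f q, ⟨q, rfl⟩⟩ = q := by
      rw [MulEquiv.symm_apply_eq]; rfl
    show MonoidHom.ofInjective hg ((MonoidHom.ofInjective hf).symm ⟨f q, ⟨q, rfl⟩⟩) = _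
    rw [this]; rfl
  have he' : ∀ q, ((e ⟨f q, ⟨q, rfl⟩⟩ : g.range) : G) = g q := by
    intro q; rw [he]
  refine ⟨HNNExtension G f.range g.range e, inferInstance, HNNExtension.of, HNNExtension.t,
    HNNExtension.of_injective _, ?_, tf_hnn e, ce_top e, ?_, ?_⟩
  · intro q
    have := HNNExtension.t_mul_of (φ := e) ⟨f q, ⟨q, rfl⟩⟩
    rw [he'] at this
    exact this
  · intro H _ φ s hs
    refine ⟨HNNExtension.lift φ s ?_, fun x => HNNExtension.lift_of _ _ _ x,
      HNNExtension.lift_t _ _ _⟩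
    rintro ⟨_, ⟨q, rfl⟩⟩
    rw [he']
    exact hs q
  · intro S hS x hx
    refine hnn_sub e S ?_ x hx
    rintro ⟨_, ⟨q, rfl⟩⟩
    rw [he']
    exact hS q

/-- The properties of a multiple HNN extension. -/
def MHNN (ι : Type) : Prop := ∀ (G : Type) [Group G] (Q : ι → Type)
  [∀ i, Group (Q i)] (f g : ∀ i, Q i →* G), (∀ i, Function.Injective (f i)) →
  (∀ i, Function.Injective (g i)) →
  ∃ (K : Type) (_ : Group K) (of : G →* K) (r : ι → K), Function.Injective of ∧
    (∀ i q, r i * of (f i q) = of (g i q) * r i) ∧ (TF G → TF K) ∧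
    Subgroup.closure (Set.range of ∪ Set.range r) = ⊤ ∧
    (∀ (H : Type) [Group H] (φ : G →* H) (s : ι → H),
      (∀ i q, s i * φ (f i q) = φ (g i q) * s i) →
      ∃ Φ : K →* H, (∀ x, Φ (of x) = φ x) ∧ ∀ i, Φ (r i) = s i) ∧
    (∀ S : Subgroup G, (∀ i q, f i q ∈ S ↔ g i q ∈ S) → ∀ x,
        of x ∈ Subgroup.closure (of '' (S : Set G) ∪ Set.range r) → x ∈ S)

theorem mhnn (ι : Type) [Finite ι] : MHNN ι := by
  refine Finite.induction_empty_option (P := MHNN) ?_ ?_ ?_ ι
  · intro α β e hα G _ Q _ f g hf hg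
    obtain ⟨K, iK, of, r, h1, h2, h3, h4, h5, h6⟩ := hα G (fun i => Q (e i)) (fun i => f (e i))
      (fun i => g (e i)) (fun i => hf _) (fun i => hg _)
    have hr : Set.range (fun j => r (e.symm j)) = Set.range r := by
      ext x
      constructor
      · rintro ⟨j, rfl⟩; exact ⟨_, rfl⟩
      · rintro ⟨i, rfl⟩; exact ⟨e i, by simp⟩
    refine ⟨K, iK, of, fun j => r (e.symm j), h1, ?_, h3, ?_, ?_, ?_⟩
    · intro j
      obtain ⟨i, rfl⟩ := e.surjective j
      intro q
      simpa using h2 i q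
    · rw [hr]; exact h4
    · intro H _ φ s hs
      obtain ⟨Φ, ha, hb⟩ := h5 H φ (fun i => s (e i)) (fun i q => hs _ q)
      refine ⟨Φ, ha, ?_⟩
      intro j
      rw [hb]; simp
    · intro S hS x hx
      rw [hr] at hx
      exact h6 S (fun i q => hS _ q) x hx
  · intro G _ Q _ f g hf hg
    refine ⟨G, inferInstance, MonoidHom.id G, PEmpty.elim, fun _ _ h => h, fun i => i.elim,
      id, ?_, ?_, ?_⟩
    · rw [eq_top_iff]
      intro x _
      exact Subgroup.subset_closure (Or.inl ⟨x, rfl⟩)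
    · intro H _ φ s _
      exact ⟨φ, fun _ => rfl, fun i => i.elim⟩
    · intro S _ x hx
      have : Subgroup.closure ((MonoidHom.id G) '' (S : Set G) ∪ Set.range (PEmpty.elim : PEmpty → G))
          ≤ S := by
        rw [Subgroup.closure_le]
        rintro y (⟨s, hs, rfl⟩ | ⟨i, _⟩)
        · exact hs
        · exact i.elim
      exact this hx
  · intro α _ hα G _ Q _ f g hf hg
    obtain ⟨K, iK, of, r, h1, h2, h3, h4, h5, h6⟩ := hα G (fun i => Q (some i))
      (fun i => f (some i)) (fun i => g (some i)) (fun i => hf _) (fun i => hg _)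
    obtain ⟨K', iK', of', r', k1, k2, k3, k4, k5, k6⟩ := hnn1 K (Q none) (of.comp (f none))
      (of.comp (g none)) (h1.comp (hf none)) (h1.comp (hg none))
    let R : Option α → K' := fun o => o.elim r' (fun i => of' (r i))
    refine ⟨K', iK', of'.comp of, R, k1.comp h1, ?_, fun h => k3 (h3 h), ?_, ?_, ?_⟩
    · rintro (_ | i) q
      · exact k2 q
      · show of' (r i) * of' (of (f (some i) q)) = of' (of (g (some i) q)) * of' (r i)
        rw [← map_mul, h2, map_mul]
    · rw [eq_top_iff, ← k4, Subgroup.closure_le]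
      have hle : (⊤ : Subgroup K).map of' ≤
          Subgroup.closure (Set.range (of'.comp of) ∪ Set.range R) := by
        rw [← h4, MonoidHom.map_closure, Subgroup.closure_le]
        rintro _ ⟨y, (⟨x, rfl⟩ | ⟨i, rfl⟩), rfl⟩
        · exact Subgroup.subset_closure (Or.inl ⟨x, rfl⟩)
        · exact Subgroup.subset_closure (Or.inr ⟨some i, rfl⟩)
      rintro y (⟨x, rfl⟩ | rfl)
      · exact hle ⟨x, trivial, rfl⟩
      · exact Subgroup.subset_closure (Or.inr ⟨none, rfl⟩)
    · intro H _ φ s hs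
      obtain ⟨Φ, ha, hb⟩ := h5 H φ (fun i => s (some i)) (fun i q => hs _ q)
      obtain ⟨Φ', ha', hb'⟩ := k5 H Φ (s none) (by
        intro q
        simp only [MonoidHom.comp_apply]
        rw [ha, ha]
        exact hs none q)
      refine ⟨Φ', ?_, ?_⟩
      · intro x
        rw [MonoidHom.comp_apply, ha', ha]
      · rintro (_ | i)
        · exact hb'
        · show Φ' (of' (r i)) = _
          rw [ha', hb]
    · intro S hS x hx
      let S1 : Subgroup K := Subgroup.closure (of '' (S : Set G) ∪ Set.range r)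
      have hS1 : ∀ y, of y ∈ S1 ↔ y ∈ S := by
        intro y
        exact ⟨h6 S (fun i q => hS _ q) y, fun h => Subgroup.subset_closure (Or.inl ⟨y, h, rfl⟩)⟩
      have := k6 S1 (by
        intro q
        simp only [MonoidHom.comp_apply]
        rw [hS1, hS1]
        exact hS none q) (of x) (by
        refine Subgroup.closure_le _ |>.2 ?_ hx
        rintro y (⟨s, hs, rfl⟩ | ⟨(_ | i), rfl⟩)
        · exact Subgroup.subset_closure (Or.inl ⟨of s, (hS1 s).2 hs, rfl⟩)
        · exact Subgroup.subset_closure (Or.inr rfl)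
        · exact Subgroup.subset_closure (Or.inl ⟨r i, Subgroup.subset_closure (Or.inr ⟨i, rfl⟩), rfl⟩))
      exact (hS1 x).1 this

end Pool.Agent.Q236.ISO
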