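import Mathlib
import Pool.Agent.Q236.ISO.GM
import Pool.Agent.Q236.ISO.MH

/-!
The tower of HNN extensions.
-/

set_option autoImplicit false

namespace Pool.Agent.Q236.ISO

theorem comm_closure {G H : Type} [Group G] [Group H] (Φ : G →* H) (v : H) (S : Set G)
    (h : ∀ a ∈ S, Commute v (Φ a)) : ∀ a ∈ Subgroup.closure S, Commute v (Φ a) := by
  intro a ha
  induction ha using Subgroup.closure_induction with
  | mem a ha => exact h a ha
  | one => rw [map_one]; exact Commute.one_right _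
  | mul a b _ _ ha hb => rw [map_mul]; exact ha.mul_right hb
  | inv a _ ha => rw [map_inv]; exact ha.inv_right

theorem map_closure_le {G H : Type} [Group G] [Group H] (Φ : G →* H) (S : Set G) (S' : Subgroup H)
    (h : ∀ a ∈ S, Φ a ∈ S') : ∀ a ∈ Subgroup.closure S, Φ a ∈ S' := by
  have : Subgroup.closure S ≤ S'.comap Φ := by
    rw [Subgroup.closure_le]
    exact h
  exact this

theorem top_trans {A B : Type} [Group A] [Group B] (f : A →* B) (SA : Set A) (T : Set B)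
    (hA : Subgroup.closure SA = ⊤) (hB : Subgroup.closure (Set.range f ∪ T) = ⊤) :
    Subgroup.closure (f '' SA ∪ T) = ⊤ := by
  rw [eq_top_iff, ← hB, Subgroup.closure_le]
  rintro y (⟨x, rfl⟩ | hy)
  · exact map_closure_le f SA _ (fun a ha => Subgroup.subset_closure (Or.inl ⟨a, ha, rfl⟩)) x
      (by rw [hA]; trivial)
  · exact Subgroup.subset_closure (Or.inr hy)

/-- The second level of the tower. -/
theorem tower2 (K : Type) [Group K] (Q : Subgroup K) (hK : TF K) :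
    ∃ (U : Type) (_ : Group U) (φ : K →* U) (z u : U), TF U ∧ z ≠ 1 ∧
      (∀ q ∈ Q, Commute z (φ q)) ∧ (∀ k, Commute u (φ k)) ∧ u⁻¹ * z * u = z ^ 2 ∧
      Subgroup.closure (Set.range φ ∪ {z, u}) = ⊤ ∧
      ∀ (H : Type) [Group H] (φ' : K →* H) (z' u' : H), (∀ q ∈ Q, Commute z' (φ' q)) →
        (∀ k, Commute u' (φ' k)) → u'⁻¹ * z' * u' = z' ^ 2 →
        ∃ Φ : U →* H, (∀ k, Φ (φ k) = φ' k) ∧ Φ z = z' ∧ Φ u = u' := by
  obtain ⟨ψ, hψ, hψk, hψt⟩ := square K Q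
  obtain ⟨U, iU, o, r, a1, a2, a3, a4, a5, -⟩ := hnn1 (CE K Q) (CE K Q) (MonoidHom.id _) ψ
    Function.injective_id hψ
  refine ⟨U, iU, o.comp HNNExtension.of, o HNNExtension.t, r⁻¹, a3 (tf_hnn _ hK), ?_, ?_, ?_, ?_,
    ?_, ?_⟩
  · intro h
    have h1 : (HNNExtension.t : CE K Q) = 1 := a1 (by rw [h, map_one])
    obtain ⟨Φ, -, hΦ⟩ := ce_lift Q (1 : K →* Multiplicative ℤ) (Multiplicative.ofAdd 1)
      (fun _ _ => mul_comm _ _)
    rw [h1, map_one] at hΦ
    exact absurd hΦ (by decide)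
  · intro q hq
    exact (ce_comm Q q hq).map o
  · intro k
    have := a2 (HNNExtension.of k)
    rw [hψk] at this
    have h : Commute r (o (HNNExtension.of k)) := this
    exact h.inv_left
  · have := a2 HNNExtension.t
    rw [hψt] at this
    have h : r * o HNNExtension.t * r⁻¹ = (o HNNExtension.t) ^ 2 := by
      rw [← map_pow]
      exact mul_inv_eq_of_eq_mul this
    rw [inv_inv]
    exact h
  · have h1 := top_trans o _ _ (ce_top (MulEquiv.refl Q)) a4
    rw [eq_top_iff, ← h1, Subgroup.closure_le]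
    rintro y (⟨_, (⟨x, rfl⟩ | rfl), rfl⟩ | rfl)
    · exact Subgroup.subset_closure (Or.inl ⟨x, rfl⟩)
    · exact Subgroup.subset_closure (Or.inr (Or.inl rfl))
    · have : y⁻¹ ∈ Subgroup.closure (Set.range (o.comp (HNNExtension.of : K →* CE K Q)) ∪
          {o HNNExtension.t, y⁻¹}) := Subgroup.subset_closure (Or.inr (Or.inr rfl))
      simpa using inv_mem this
  · intro H _ φ' z' u' h1 h2 h3
    obtain ⟨Φ, hΦ, hΦt⟩ := ce_lift Q φ' z' h1
    have key : (MulAut.conj u'⁻¹).toMonoidHom.comp Φ = Φ.comp ψ := by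
      apply HNNExtension.hom_ext
      · ext k
        show u'⁻¹ * Φ (HNNExtension.of k) * u'⁻¹⁻¹ = Φ (ψ (HNNExtension.of k))
        rw [hψk, hΦ, ((h2 k).inv_left).eq]
        group
      · show u'⁻¹ * Φ HNNExtension.t * u'⁻¹⁻¹ = Φ (ψ HNNExtension.t)
        rw [hψt, map_pow, hΦt, inv_inv, h3]
    obtain ⟨Φ', hc, hd⟩ := a5 H Φ u'⁻¹ (by
      intro q
      have := DFunLike.congr_fun key q
      have h : u'⁻¹ * Φ q * u'⁻¹⁻¹ = Φ (ψ q) := this
      rw [← h]
      simp)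
    refine ⟨Φ', ?_, ?_, ?_⟩
    · intro k
      rw [MonoidHom.comp_apply, hc, hΦ]
    · rw [hc, hΦt]
    · rw [map_inv, hd, inv_inv]

/-- The relations of the group `U`. -/
structure RelU {K : Type} [Group K] (Q Rr : Subgroup K) (x t : K) (H : Type) [Group H]
    (φ : K →* H) (z u v τ : H) : Prop where
  zq : ∀ q ∈ Q, Commute z (φ q)
  uk : ∀ k, Commute u (φ k)
  uz : u⁻¹ * z * u = z ^ 2
  vx : Commute v (φ x * u)
  vt : Commute v ((φ t)⁻¹ * z ^ 2 * φ t)
  τk : ∀ k, Commute τ (v * φ k * v⁻¹)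
  τz : Commute τ (v * z * v⁻¹)
  τr : ∀ ρ ∈ Rr, Commute τ (φ ρ)

/-- The group `B_g = ⟨t, z | [t, z ^ g]⟩`. -/
abbrev Bg (g : ℤ) : Type := CE (Multiplicative ℤ) (Subgroup.zpowers (Multiplicative.ofAdd g))

/-- The key computation. -/
theorem pow_comp {K : Type} [Group K] {Q : Subgroup K} {x t : K} (hx : x ∈ Q)
    {H : Type} [Group H] {φ : K →* H} {z u : H} (zq : ∀ q ∈ Q, Commute z (φ q))
    (uk : ∀ k, Commute u (φ k)) (uz : u⁻¹ * z * u = z ^ 2) (m : ℕ) :
    ((φ x * u) ^ m)⁻¹ * ((φ t)⁻¹ * z ^ 2 * φ t) * (φ x * u) ^ m =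
      (φ (s x t m))⁻¹ * z ^ (2 ^ (m + 1)) * φ (s x t m) := by
  have h1 : ∀ m : ℕ, (u ^ m)⁻¹ * z * u ^ m = z ^ (2 ^ m) := by
    intro m
    induction m with
    | zero => simp
    | succ m ih =>
      have e : (u ^ (m + 1))⁻¹ * z * u ^ (m + 1) = u⁻¹ * ((u ^ m)⁻¹ * z * u ^ m) * u := by
        rw [pow_succ]; group
      have e2 : u⁻¹ * z ^ 2 ^ m * u = (u⁻¹ * z * u) ^ 2 ^ m := by
        have := conj_pow (a := u⁻¹) (b := z) (i := 2 ^ m)
        rw [inv_inv] at this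
        exact this.symm
      rw [e, ih, e2, uz, ← pow_mul]
      congr 1
      ring
  have h2 : (u ^ m)⁻¹ * z ^ 2 * u ^ m = z ^ (2 ^ (m + 1)) := by
    have := conj_pow (a := (u ^ m)⁻¹) (b := z) (i := 2)
    rw [inv_inv] at this
    rw [← this, h1, ← pow_mul]
    congr 1
  have h3 : (φ x * u) ^ m = φ x ^ m * u ^ m := ((uk x).symm.mul_pow m)
  have h4 : Commute (u ^ m) (φ t) := (uk t).pow_left m
  have h5 : Commute (u ^ m) (φ x ^ m) := ((uk x).pow_left m).pow_right m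
  have h6 : Commute (z ^ (2 ^ (m + 1))) (φ x ^ m) := ((zq x hx).pow_left _).pow_right m
  have h7 : φ (s x t m) = (φ x ^ m)⁻¹ * φ t * φ x ^ m := by
    unfold s
    rw [map_mul, map_mul, map_zpow, map_zpow, zpow_neg, zpow_natCast]
  rw [h3, h7]
  have e1 : (φ x ^ m * u ^ m)⁻¹ * ((φ t)⁻¹ * z ^ 2 * φ t) * (φ x ^ m * u ^ m) =
      ((φ x ^ m * u ^ m)⁻¹ * (φ t)⁻¹) * z ^ 2 * (φ t * (φ x ^ m * u ^ m)) := by group
  have e2 : φ t * (φ x ^ m * u ^ m) = u ^ m * (φ t * φ x ^ m) := by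
    rw [← h5.eq, ← mul_assoc, ← mul_assoc, ← h4.eq]
  have e3 : (φ x ^ m * u ^ m)⁻¹ * (φ t)⁻¹ = (u ^ m * (φ t * φ x ^ m))⁻¹ := by
    rw [← e2, mul_inv_rev (φ t)]
  rw [e1, e2, e3]
  have e4 : (u ^ m * (φ t * φ x ^ m))⁻¹ * z ^ 2 * (u ^ m * (φ t * φ x ^ m)) =
      (φ t * φ x ^ m)⁻¹ * ((u ^ m)⁻¹ * z ^ 2 * u ^ m) * (φ t * φ x ^ m) := by group
  rw [e4, h2]
  have e5 : ((φ x ^ m)⁻¹ * φ t * φ x ^ m)⁻¹ * z ^ (2 ^ (m + 1)) * ((φ x ^ m)⁻¹ * φ t * φ x ^ m) =
      (φ t * φ x ^ m)⁻¹ * (φ x ^ m * z ^ (2 ^ (m + 1)) * (φ x ^ m)⁻¹) * (φ t * φ x ^ m) := by group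
  rw [e5, ← h6.eq]
  group

/-- TOWER. -/
theorem tower (K : Type) [Group K] (Q Rr : Subgroup K) (π : K →* K) (x t : K)
    (hb : Bot K Q Rr π x t) :
    ∃ (U : Type) (_ : Group U) (φ : K →* U) (z u v τ : U), TF U ∧
      RelU Q Rr x t U φ z u v τ ∧ Subgroup.closure (Set.range φ ∪ {z, u, v, τ}) = ⊤ ∧
      (∀ (H : Type) [Group H] (φ' : K →* H) (z' u' v' τ' : H), RelU Q Rr x t H φ' z' u' v' τ' →
        ∃ Φ : U →* H, (∀ k, Φ (φ k) = φ' k) ∧ Φ z = z' ∧ Φ u = u' ∧ Φ v = v' ∧ Φ τ = τ') ∧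
      ∀ n : ℤ, (∀ m : ℤ, Conn Rr x t n m → 0 ≤ m) → ∀ g : ℤ,
        (∀ m : ℤ, Conn Rr x t n m → g ∣ 2 ^ (m.toNat + 1)) →
        (∃ m : ℤ, Conn Rr x t n m ∧ g = 2 ^ (m.toNat + 1)) →
        ∃ β : Bg g →* U, Function.Injective β ∧
          β (HNNExtension.of (Multiplicative.ofAdd 1)) = z ∧
          β HNNExtension.t = φ (s x t n) * τ * (φ (s x t n))⁻¹ := by
  obtain ⟨U2, iU2, φ2, z2, u2, tf2, zne, zq, uk, uz, top2, univ2⟩ := tower2 K Q hb.tf
  let V : Subgroup U2 := Subgroup.closure {φ2 x * u2, (φ2 t)⁻¹ * z2 ^ 2 * φ2 t}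
  let o3 : U2 →* CE U2 V := HNNExtension.of
  let v3 : CE U2 V := HNNExtension.t
  let S4 : Subgroup (CE U2 V) := Subgroup.closure
    (Set.range (fun k => v3 * o3 (φ2 k) * v3⁻¹) ∪ {v3 * o3 z2 * v3⁻¹} ∪
      (fun ρ => o3 (φ2 ρ)) '' (Rr : Set K))
  let o4 : CE U2 V →* CE (CE U2 V) S4 := HNNExtension.of
  let τ4 : CE (CE U2 V) S4 := HNNExtension.t
  have tf3 : TF (CE U2 V) := tf_hnn _ tf2
  have hvV : ∀ a ∈ V, Commute v3 (o3 a) := fun a ha => ce_comm V a ha
  have hτS : ∀ a ∈ S4, Commute τ4 (o4 a) := fun a ha => ce_comm S4 a ha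
  refine ⟨CE (CE U2 V) S4, inferInstance, o4.comp (o3.comp φ2), o4 (o3 z2), o4 (o3 u2), o4 v3, τ4,
    tf_hnn _ tf3, ?_, ?_, ?_, ?_⟩
  · constructor
    · intro q hq
      exact ((zq q hq).map o3).map o4
    · intro k
      exact ((uk k).map o3).map o4
    · rw [← map_inv, ← map_inv, ← map_mul, ← map_mul, ← map_mul, ← map_mul, uz, map_pow, map_pow]
    · have := (hvV _ (Subgroup.subset_closure (Or.inl rfl))).map o4
      simpa using this
    · have := (hvV _ (Subgroup.subset_closure (Or.inr rfl))).map o4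
      simpa using this
    · intro k
      have := hτS _ (Subgroup.subset_closure (Or.inl (Or.inl ⟨k, rfl⟩)))
      simpa using this
    · have := hτS _ (Subgroup.subset_closure (Or.inl (Or.inr rfl)))
      simpa using this
    · intro ρ hρ
      exact hτS _ (Subgroup.subset_closure (Or.inr ⟨ρ, hρ, rfl⟩))
  · have t3 := top_trans o3 _ _ top2 (ce_top (MulEquiv.refl V))
    have t4 := top_trans o4 _ _ t3 (ce_top (MulEquiv.refl S4))
    rw [eq_top_iff, ← t4, Subgroup.closure_le]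
    rintro y (⟨_, (⟨_, (⟨k, rfl⟩ | h), rfl⟩ | rfl), rfl⟩ | rfl)
    · exact Subgroup.subset_closure (Or.inl ⟨k, rfl⟩)
    · rcases h with rfl | rfl
      · exact Subgroup.subset_closure (Or.inr (Or.inl rfl))
      · exact Subgroup.subset_closure (Or.inr (Or.inr (Or.inl rfl)))
    · exact Subgroup.subset_closure (Or.inr (Or.inr (Or.inr (Or.inl rfl))))
    · exact Subgroup.subset_closure (Or.inr (Or.inr (Or.inr (Or.inr rfl))))
  · intro H _ φ' z' u' v' τ' hR
    obtain ⟨Φ2, e1, e2, e3⟩ := univ2 H φ' z' u' hR.zq hR.uk hR.uz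
    obtain ⟨Φ3, f1, f2⟩ := ce_lift V Φ2 v' (comm_closure Φ2 v' _ (by
      rintro a (rfl | rfl)
      · rw [map_mul, e1, e3]; exact hR.vx
      · rw [map_mul, map_mul, map_inv, map_pow, e1, e2]; exact hR.vt))
    obtain ⟨Φ4, g1, g2⟩ := ce_lift S4 Φ3 τ' (comm_closure Φ3 τ' _ (by
      rintro a ((⟨k, rfl⟩ | rfl) | ⟨ρ, hρ, rfl⟩)
      · show Commute τ' (Φ3 (v3 * o3 (φ2 k) * v3⁻¹))
        rw [map_mul, map_mul, map_inv, f1, f2, e1]; exact hR.τk k
      · rw [map_mul, map_mul, map_inv, f1, f2, e2]; exact hR.τz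
      · show Commute τ' (Φ3 (o3 (φ2 ρ)))
        rw [f1, e1]; exact hR.τr ρ hρ))
    refine ⟨Φ4, ?_, ?_, ?_, ?_, g2⟩
    · intro k
      show Φ4 (o4 (o3 (φ2 k))) = _
      rw [g1, f1, e1]
    · rw [g1, f1, e2]
    · rw [g1, f1, e3]
    · rw [g1, f2]
  · intro n hn g hg hg2
    let y : U2 := (φ2 (s x t n))⁻¹ * z2 * φ2 (s x t n)
    let w : CE U2 V := o3 y
    let α : Multiplicative ℤ →* CE U2 V := zpowersHom _ w
    have hα : ∀ a : ℤ, α (Multiplicative.ofAdd a) = w ^ a := fun a => rfl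
    have hwne : w ≠ 1 := by
      intro h
      have h1 : y = 1 := HNNExtension.of_injective (MulEquiv.refl V) (by rw [map_one]; exact h)
      apply zne
      have h2 : z2 = φ2 (s x t n) * y * (φ2 (s x t n))⁻¹ := by
        simp only [y]; group
      rw [h2, h1]
      group
    have hαinj : Function.Injective α := by
      rw [injective_iff_map_eq_one]
      intro a ha
      obtain ⟨a, rfl⟩ := Multiplicative.ofAdd.surjective a
      rw [hα] at ha
      by_contra hne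
      have hne' : a ≠ 0 := fun h => hne (by rw [h]; rfl)
      apply hwne
      apply tf3
      rw [isOfFinOrder_iff_zpow_eq_one]
      exact ⟨a, hne', ha⟩
    let M : Subgroup U2 := Subgroup.closure (Set.range φ2 ∪ {z2})
    let L : Subgroup U2 := Subgroup.closure (((V ⊓ M : Subgroup U2) : Set U2) ∪ φ2 '' Rr)
    have hLM : L ≤ M := by
      rw [Subgroup.closure_le]
      rintro p (hp | ⟨ρ, _, rfl⟩)
      · exact hp.2
      · exact Subgroup.subset_closure (Or.inl ⟨ρ, rfl⟩)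
    have hVM : V ⊓ M ≤ L := fun p hp => Subgroup.subset_closure (Or.inl hp)
    have hS4 : S4 ≤ Subgroup.closure
      ((fun g : U2 => (HNNExtension.t * HNNExtension.of g * HNNExtension.t⁻¹ : CE U2 V)) '' M ∪
        (fun g : U2 => (HNNExtension.of g : CE U2 V)) '' L) := by
      rw [Subgroup.closure_le]
      rintro p ((⟨k, rfl⟩ | rfl) | ⟨ρ, hρ, rfl⟩)
      · exact Subgroup.subset_closure (Or.inl ⟨_, Subgroup.subset_closure (Or.inl ⟨k, rfl⟩), rfl⟩)
      · exact Subgroup.subset_closure (Or.inl ⟨_, Subgroup.subset_closure (Or.inr rfl), rfl⟩)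
      · exact Subgroup.subset_closure (Or.inr ⟨_, Subgroup.subset_closure (Or.inr ⟨ρ, hρ, rfl⟩), rfl⟩)
    have hforw : ∀ a : ℤ, w ^ a ∈ S4 → g ∣ a := by
      intro a ha
      have h1 : y ^ a ∈ L := by
        apply lemA U2 V M L hVM hLM
        have : (HNNExtension.of (y ^ a) : CE U2 V) = w ^ a := by
          show o3 (y ^ a) = _
          rw [map_zpow]
        rw [this]
        exact hS4 ha
      obtain ⟨Mo, iMo, φ', z', u', m1, m2, m3, m4⟩ := gmodel K Q Rr π x t hb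
      obtain ⟨Θ, c1, c2, c3⟩ := univ2 Mo φ' z' u' m1 m2 m3
      refine m4 n hn a ?_ g hg
      have h2 : Θ (y ^ a) = ((φ' (s x t n))⁻¹ * z' * φ' (s x t n)) ^ a := by
        rw [map_zpow, map_mul, map_mul, map_inv, c1, c2]
      rw [← h2]
      refine map_closure_le Θ _ _ ?_ _ h1
      rintro p (⟨hp1, hp2⟩ | ⟨ρ, hρ, rfl⟩)
      · refine Subgroup.subset_closure (Or.inl ⟨?_, ?_⟩)
        · refine map_closure_le Θ _ _ ?_ _ hp1
          rintro p (rfl | rfl)
          · rw [map_mul, c1, c3]; exact Subgroup.subset_closure (Or.inl rfl)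
          · rw [map_mul, map_mul, map_inv, map_pow, c1, c2]
            exact Subgroup.subset_closure (Or.inr rfl)
        · refine map_closure_le Θ _ _ ?_ _ hp2
          rintro p (⟨k, rfl⟩ | rfl)
          · rw [c1]; exact Subgroup.subset_closure (Or.inl ⟨k, rfl⟩)
          · rw [c2]; exact Subgroup.subset_closure (Or.inr rfl)
      · rw [c1]
        exact Subgroup.subset_closure (Or.inr ⟨ρ, hρ, rfl⟩)
    have hback : w ^ g ∈ S4 := by
      obtain ⟨m, hm, hgm⟩ := hg2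
      have hm0 := hn m hm
      obtain ⟨m', rfl⟩ := Int.eq_ofNat_of_zero_le hm0
      obtain ⟨ρ, hρ, hρ'⟩ := hm
      let y' : U2 := (φ2 (s x t m'))⁻¹ * z2 ^ (2 ^ (m' + 1)) * φ2 (s x t m')
      have hy'V : y' ∈ V := by
        have := pow_comp (t := t) hb.x_mem zq uk uz m'
        show (φ2 (s x t m'))⁻¹ * z2 ^ (2 ^ (m' + 1)) * φ2 (s x t m') ∈ V
        rw [← this]
        have g1 : φ2 x * u2 ∈ V := Subgroup.subset_closure (Or.inl rfl)
        have g2 : (φ2 t)⁻¹ * z2 ^ 2 * φ2 t ∈ V := Subgroup.subset_closure (Or.inr rfl)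
        exact mul_mem (mul_mem (inv_mem (pow_mem g1 _)) g2) (pow_mem g1 _)
      have hy'M : y' ∈ M := by
        have g1 : φ2 (s x t m') ∈ M := Subgroup.subset_closure (Or.inl ⟨_, rfl⟩)
        have g2 : z2 ∈ M := Subgroup.subset_closure (Or.inr rfl)
        exact mul_mem (mul_mem (inv_mem g1) (pow_mem g2 _)) g1
      have hy'S : o3 y' ∈ S4 := by
        have h1 : o3 y' = v3 * o3 y' * v3⁻¹ := by
          rw [(hvV y' hy'V).eq]; group
        rw [h1]
        have h2 : ∀ p ∈ M, ((MulAut.conj v3).toMonoidHom.comp o3) p ∈ S4 := by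
          apply map_closure_le
          rintro p (⟨k, rfl⟩ | rfl)
          · exact Subgroup.subset_closure (Or.inl (Or.inl ⟨k, rfl⟩))
          · exact Subgroup.subset_closure (Or.inl (Or.inr rfl))
        exact h2 y' hy'M
      have hρS : o3 (φ2 ρ) ∈ S4 := Subgroup.subset_closure (Or.inr ⟨ρ, hρ, rfl⟩)
      have h3 : w ^ g = o3 (φ2 ρ) * o3 y' * (o3 (φ2 ρ))⁻¹ := by
        have h4 : y ^ g = φ2 ρ * y' * (φ2 ρ)⁻¹ := by
          have h5 : y ^ g = (φ2 (s x t n))⁻¹ * z2 ^ g * φ2 (s x t n) := by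
            have := conj_zpow (a := (φ2 (s x t n))⁻¹) (b := z2) (i := g)
            rw [inv_inv] at this
            exact this
          have h6 : (z2 : U2) ^ g = z2 ^ (2 ^ (m' + 1)) := by
            rw [hgm, Int.toNat_natCast]
            exact_mod_cast zpow_natCast z2 (2 ^ (m' + 1))
          have h7 : Commute (z2 ^ (2 ^ (m' + 1))) (φ2 ρ) := (zq ρ (hb.le hρ)).pow_left _
          rw [h5, h6, hρ', map_mul, map_mul, map_inv]
          have h8 : (φ2 ρ * φ2 (s x t m') * (φ2 ρ)⁻¹)⁻¹ * z2 ^ 2 ^ (m' + 1) *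
              (φ2 ρ * φ2 (s x t m') * (φ2 ρ)⁻¹) = φ2 ρ * ((φ2 (s x t m'))⁻¹ *
              ((φ2 ρ)⁻¹ * (z2 ^ 2 ^ (m' + 1) * φ2 ρ)) * φ2 (s x t m')) * (φ2 ρ)⁻¹ := by group
          rw [h8, h7.eq]
          simp only [y']
          group
        show o3 y ^ g = _
        rw [← map_zpow, h4, map_mul, map_mul, map_inv]
      rw [h3]
      exact mul_mem (mul_mem hρS hy'S) (inv_mem hρS)
    obtain ⟨Φ, hΦ, hΦ1, hΦ2⟩ := subHNN (Multiplicative ℤ) (CE U2 V) α
      (Subgroup.zpowers (Multiplicative.ofAdd g)) S4 hαinj (by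
        intro a
        obtain ⟨a, rfl⟩ := Multiplicative.ofAdd.surjective a
        rw [hα, Subgroup.mem_zpowers_iff]
        constructor
        · intro h
          obtain ⟨k, rfl⟩ := hforw a h
          refine ⟨k, ?_⟩
          rw [← ofAdd_zsmul, smul_eq_mul, mul_comm]
        · rintro ⟨k, hk⟩
          have hk' : k * g = a := by
            rw [← ofAdd_zsmul] at hk
            exact hk
          rw [← hk', mul_comm, zpow_mul]
          exact zpow_mem hback k)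
    let c : CE (CE U2 V) S4 := o4 (o3 (φ2 (s x t n)))
    refine ⟨(MulAut.conj c).toMonoidHom.comp Φ, (MulAut.conj c).injective.comp hΦ, ?_, ?_⟩
    · show c * Φ (HNNExtension.of (Multiplicative.ofAdd 1)) * c⁻¹ = _
      rw [hΦ1, hα, zpow_one]
      show o4 (o3 (φ2 (s x t n))) * o4 (o3 y) * (o4 (o3 (φ2 (s x t n))))⁻¹ = o4 (o3 z2)
      rw [← map_inv, ← map_inv, ← map_mul, ← map_mul, ← map_mul, ← map_mul]
      congr 2
      simp only [y]
      group
    · show c * Φ HNNExtension.t * c⁻¹ = _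
      rw [hΦ2]
      rfl

end Pool.Agent.Q236.ISO
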