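import Mathlib
import Pool.Agent.Q236.ISO.TW
import Pool.Agent.TH103.VD.Syll

/-!
The amalgam `U *_E (E × C₂)`: universal property, involutions and their centralisers.
-/

set_option autoImplicit false

namespace Pool.Agent.Q236.ISO

open Monoid Pool.Agent.TH103.VD

/-- The factors of the amalgam. -/
def Fam (E U : Type) : Bool → Type
  | false => U
  | true => E × ℤˣ

instance (E U : Type) [Group E] [Group U] : ∀ b, Group (Fam E U b)
  | false => inferInstanceAs (Group U)
  | true => inferInstanceAs (Group (E × ℤˣ))

/-- The embeddings of the amalgamated subgroup. -/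
def famHom {E U : Type} [Group E] [Group U] (β : E →* U) : ∀ b, E →* Fam E U b
  | false => β
  | true => MonoidHom.inl E ℤˣ

/-- The amalgam `U *_E (E × C₂)`. -/
abbrev Amal {E U : Type} [Group E] [Group U] (β : E →* U) : Type := Monoid.PushoutI (famHom β)

theorem famHom_inj {E U : Type} [Group E] [Group U] (β : E →* U) (hβ : Function.Injective β) :
    ∀ b, Function.Injective (famHom β b)
  | false => hβ
  | true => fun x y h => (Prod.ext_iff.1 (h : ((x, 1) : E × ℤˣ) = (y, 1))).1

section

variable {E U : Type} [Group E] [Group U] (β : E →* U)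

/-- The inclusion of `U`. -/
def oU : U →* Amal β := PushoutI.of (φ := famHom β) false

/-- The inclusion of `E × C₂`. -/
def oT : E × ℤˣ →* Amal β := PushoutI.of (φ := famHom β) true

/-- The involution. -/
def cc : Amal β := oT β (1, -1)

theorem oU_β (e : E) : oU β (β e) = oT β (e, 1) :=
  (PushoutI.of_apply_eq_base (famHom β) false e).trans
    (PushoutI.of_apply_eq_base (famHom β) true e).symm

theorem cc_sq : cc β ^ 2 = 1 := by
  rw [cc, ← map_pow]
  have : ((1, -1) : E × ℤˣ) ^ 2 = 1 := by
    ext
    · simp
    · simp
  rw [this, map_one]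

theorem cc_comm (k : E × ℤˣ) : Commute (cc β) (oT β k) := by
  show oT β (1, -1) * oT β k = oT β k * oT β (1, -1)
  rw [← map_mul, ← map_mul]
  congr 1
  ext
  · simp
  · simp

/-- The homomorphism from `C₂` given by an involution. -/
def invHom {H : Type} [Group H] (c : H) (hc : c ^ 2 = 1) : ℤˣ →* H where
  toFun i := if i = 1 then 1 else c
  map_one' := by simp
  map_mul' i j := by
    rw [pow_two] at hc
    rcases Int.units_eq_one_or i with rfl | rfl <;> rcases Int.units_eq_one_or j with rfl | rfl
    · simp
    · simp
    · simp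
    · simp [hc]

theorem amUP {H : Type} [Group H] (φ : U →* H) (c : H) (hc : c ^ 2 = 1)
    (h : ∀ e, Commute c (φ (β e))) : ∃ Φ : Amal β →* H, (∀ x, Φ (oU β x) = φ x) ∧ Φ (cc β) = c := by
  let F : ∀ b, Fam E U b →* H := fun b => match b with
    | false => φ
    | true => MonoidHom.noncommCoprod (φ.comp β) (invHom c hc) (by
        intro e i
        rcases Int.units_eq_one_or i with rfl | rfl
        · rw [map_one]; exact Commute.one_right _
        · exact (h e).symm)
  refine ⟨PushoutI.lift F (φ.comp β) ?_, ?_, ?_⟩
  · rintro (_ | _)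
    · rfl
    · ext e
      show φ (β e) * invHom c hc 1 = φ (β e)
      rw [map_one, mul_one]
  · intro x
    exact PushoutI.lift_of _ _ _ _
  · refine (PushoutI.lift_of _ _ _ _).trans ?_
    show (φ.comp β) 1 * invHom c hc (-1) = c
    rw [map_one, one_mul]
    rfl

theorem am_top : Subgroup.closure (Set.range (oU β) ∪ {cc β}) = ⊤ := by
  rw [eq_top_iff]
  rintro x -
  induction x using PushoutI.induction_on with
  | of i g =>
    cases i with
    | false => exact Subgroup.subset_closure (Or.inl ⟨g, rfl⟩)
    | true =>
      obtain ⟨e, i⟩ := g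
      have h1 : oT β (e, i) = oU β (β e) * oT β (1, i) := by
        rw [oU_β, ← map_mul]
        congr 1
        ext <;> simp
      show oT β (e, i) ∈ _
      rw [h1]
      refine mul_mem (Subgroup.subset_closure (Or.inl ⟨_, rfl⟩)) ?_
      rcases Int.units_eq_one_or i with rfl | rfl
      · have : ((1, 1) : E × ℤˣ) = 1 := rfl
        rw [this, map_one]
        exact one_mem _
      · exact Subgroup.subset_closure (Or.inr rfl)
  | base h =>
    rw [← PushoutI.of_apply_eq_base (famHom β) false h]
    exact Subgroup.subset_closure (Or.inl ⟨_, rfl⟩)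
  | mul x y hx hy => exact mul_mem hx hy

theorem cc_ne (hβ : Function.Injective β) : cc β ≠ 1 := by
  intro h
  have := PushoutI.of_injective (famHom_inj β hβ) true (a₁ := ((1, -1) : E × ℤˣ))
    (a₂ := ((1, 1) : E × ℤˣ)) (by
    refine Eq.trans h ?_
    exact (map_one (oT β)).symm)
  have h2 : (-1 : ℤˣ) = 1 := (Prod.ext_iff.1 (this : ((1, -1) : E × ℤˣ) = (1, 1))).2
  exact absurd h2 (by decide)

/-- Involutions are conjugate to `c`. -/
theorem invol (hβ : Function.Injective β) (hU : TF U) (z : Amal β) (hz : z ^ 2 = 1) (hz1 : z ≠ 1) :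
    ∃ y, z = y * cc β * y⁻¹ := by
  obtain ⟨c, L, hL, h⟩ := exists_red_conj (φ := famHom β) z
  have hconj : z = c * pr (famHom β) L * c⁻¹ := by rw [hL]; group
  have hne : pr (famHom β) L ≠ 1 := by
    intro h1
    rw [h1] at hconj
    apply hz1
    rw [hconj]; group
  have hsq : pr (famHom β) L ^ 2 = 1 := by
    have := conj_pow (a := c⁻¹) (b := z) (i := 2)
    rw [inv_inv] at this
    rw [hL, this, hz]
    group
  rcases h with h | h
  · match L, h with
    | [], _ => exact absurd rfl hne
    | [⟨false, g⟩], _ =>
      exfalso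
      rw [pr_cons, pr_nil, mul_one] at hne hsq
      rw [← map_pow] at hsq
      have h1 : g ^ 2 = 1 := PushoutI.of_injective (famHom_inj β hβ) false (by rw [map_one]; exact hsq)
      have h2 : g = 1 := hU g (isOfFinOrder_iff_pow_eq_one.2 ⟨2, by norm_num, h1⟩)
      apply hne
      show PushoutI.of (φ := famHom β) false g = 1
      rw [h2]
      exact map_one _
    | [⟨true, (e, i)⟩], _ =>
      rw [pr_cons, pr_nil, mul_one] at hne hsq
      rw [← map_pow] at hsq
      have h1 : ((e, i) : E × ℤˣ) ^ 2 = 1 :=
        PushoutI.of_injective (famHom_inj β hβ) true (Eq.trans hsq (map_one (oT β)).symm)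
      have h2 : e ^ 2 = 1 := (Prod.ext_iff.1 h1).1
      have h3 : e = 1 := by
        apply hβ
        rw [map_one]
        exact hU _ (isOfFinOrder_iff_pow_eq_one.2 ⟨2, by norm_num, by rw [← map_pow, h2, map_one]⟩)
      subst h3
      rcases Int.units_eq_one_or i with rfl | rfl
      · exact absurd (map_one (oT β)) hne
      · refine ⟨c, ?_⟩
        rw [hconj, pr_cons, pr_nil, mul_one]
        rfl
  · exfalso
    refine (h 2).ne_one (famHom_inj β hβ) ?_ ?_
    · intro h3
      have : L = [] := (List.append_eq_nil_iff.mp h3).1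
      rw [this] at hne
      exact hne rfl
    · rw [pr_rep]
      exact hsq

/-- The inverse of a list of syllables. -/
def iv (L : List (Σ b, Fam E U b)) : List (Σ b, Fam E U b) :=
  (L.map (fun s => (⟨s.1, s.2⁻¹⟩ : Σ b, Fam E U b))).reverse

theorem pr_iv (L : List (Σ b, Fam E U b)) : pr (famHom β) (iv L) = (pr (famHom β) L)⁻¹ := by
  induction L with
  | nil => simp [iv, pr]
  | cons s L ih =>
    have : iv (s :: L) = iv L ++ [⟨s.1, s.2⁻¹⟩] := by simp [iv]
    rw [this, pr_append, ih, pr_cons, pr_nil, mul_one, pr_cons, mul_inv_rev]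
    congr 1

/-- The centraliser of `c`. -/
theorem cent (hβ : Function.Injective β) (x : Amal β) (hx : Commute (cc β) x) :
    ∃ k, x = oT β k := by
  classical
  have hex : ∃ n, ∃ (k k' : E × ℤˣ) (L : List (Σ b, Fam E U b)), L.length = n ∧
      pr (famHom β) L = oT β k * x * oT β k' := by
    obtain ⟨L, hL⟩ := exists_pr (φ := famHom β) x
    exact ⟨L.length, 1, 1, L, rfl, by rw [hL, map_one]; simp⟩
  obtain ⟨k, k', L, hn, hL⟩ := Nat.find_spec hex
  have hmin : ∀ (k k' : E × ℤˣ) (L' : List (Σ b, Fam E U b)),
      pr (famHom β) L' = oT β k * x * oT β k' → L.length ≤ L'.length := by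
    intro k k' L' h
    rw [hn]
    exact Nat.find_min' hex ⟨k, k', L', rfl, h⟩
  have hxe : x = (oT β k)⁻¹ * pr (famHom β) L * (oT β k')⁻¹ := by rw [hL]; group
  have hcomm : Commute (cc β) (pr (famHom β) L) := by
    rw [hL]
    exact ((cc_comm β k).mul_right hx).mul_right (cc_comm β k')
  have fin1 : (∃ k, pr (famHom β) L = oT β k) → ∃ k, x = oT β k := by
    rintro ⟨k'', h⟩
    refine ⟨k⁻¹ * k'' * k'⁻¹, ?_⟩
    rw [hxe, h, map_mul, map_mul, map_inv, map_inv]
  by_cases h0 : L = []
  · apply fin1
    refine ⟨1, ?_⟩
    rw [h0, map_one]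
    rfl
  -- the first and last syllables
  have hfirst : ∀ s ∈ L.head?, s.1 = false ∨ ∃ k, pr (famHom β) L = oT β k := by
    rintro ⟨b, g⟩ hs
    cases b with
    | false => exact Or.inl rfl
    | true =>
      exfalso
      cases L with
      | nil => exact h0 rfl
      | cons s' M =>
        simp only [List.head?_cons, Option.mem_def, Option.some.injEq] at hs
        subst hs
        rw [pr_cons] at hL
        let g' : E × ℤˣ := g
        have := hmin (g'⁻¹ * k) k' M (by
          have h1 : oT β (g'⁻¹ * k) = (oT β g')⁻¹ * oT β k := by rw [map_mul, map_inv]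
          rw [h1, mul_assoc, mul_assoc, ← mul_assoc (oT β k), ← hL]
          show _ = (oT β g')⁻¹ * (oT β g' * _)
          rw [inv_mul_cancel_left])
        simp at this
  have hlast : ∀ s ∈ L.getLast?, s.1 = false ∨ ∃ k, pr (famHom β) L = oT β k := by
    rintro ⟨b, g⟩ hs
    cases b with
    | false => exact Or.inl rfl
    | true =>
      exfalso
      obtain ⟨N, hN⟩ : ∃ N, L = N ++ [⟨true, g⟩] := by
        refine ⟨L.dropLast, ?_⟩
        have h5 := List.dropLast_append_getLast h0
        have h6 : L.getLast h0 = ⟨true, g⟩ := by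
          rw [List.getLast?_eq_some_getLast h0] at hs
          exact Option.some.inj hs
        rw [h6] at h5
        exact h5.symm
      let g' : E × ℤˣ := g
      have h7 : pr (famHom β) L = pr (famHom β) N * oT β g' := by
        rw [hN, pr_append, pr_cons, pr_nil, mul_one]
        rfl
      have := hmin k (k' * g'⁻¹) N (by
        have h1 : oT β (k' * g'⁻¹) = oT β k' * (oT β g')⁻¹ := by rw [map_mul, map_inv]
        rw [h1, ← mul_assoc, ← hL, h7]
        group)
      rw [hN] at this
      simp at this
  by_cases hT : ∃ k, pr (famHom β) L = oT β k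
  · exact fin1 hT
  exfalso
  have hred : Red (famHom β) L := by
    by_cases h2 : 2 ≤ L.length
    · exact red_of_min L h2 (fun L' h => hmin k k' L' (by rw [h, hL]))
    · match L, h0 with
      | [⟨b, g⟩], _ =>
        refine ⟨?_, List.isChain_singleton _⟩
        intro s hs hr
        rw [List.mem_singleton] at hs
        subst hs
        obtain ⟨e, he⟩ := hr
        apply hT
        refine ⟨(e, 1), ?_⟩
        rw [pr_cons, pr_nil, mul_one]
        show PushoutI.of (φ := famHom β) b g = _
        have he' : famHom β b e = g := he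
        rw [← he', PushoutI.of_apply_eq_base]
        exact (PushoutI.of_apply_eq_base (famHom β) true e).symm
      | (_ :: _ :: _), _ => simp at h2
  have hf : ∀ s ∈ L.head?, s.1 = false := fun s hs => (hfirst s hs).resolve_right hT
  have hl : ∀ s ∈ L.getLast?, s.1 = false := fun s hs => (hlast s hs).resolve_right hT
  let c0 : Σ b, Fam E U b := ⟨true, ((1, -1) : E × ℤˣ)⟩
  have hc0 : c0.2 ∉ (famHom β c0.1).range := by
    rintro ⟨e, he⟩
    have h2 : (1 : ℤˣ) = -1 := (Prod.ext_iff.1 (he : ((e, 1) : E × ℤˣ) = (1, -1))).2
    exact absurd h2 (by decide)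
  have hprc : pr (famHom β) [c0] = cc β := by
    rw [pr_cons, pr_nil, mul_one]
    rfl
  have hinv : ∀ s ∈ iv L, s.2 ∉ (famHom β s.1).range := by
    intro s hs hr
    simp only [iv, List.mem_reverse, List.mem_map] at hs
    obtain ⟨s', hs', rfl⟩ := hs
    apply hred.1 s' hs'
    simpa using inv_mem hr
  have hch : (iv L).IsChain (fun s t => Sigma.fst s ≠ Sigma.fst t) := by
    unfold iv
    rw [List.isChain_reverse, List.isChain_map]
    exact hred.2.imp (fun a b h => h.symm)
  have hih : ∀ s ∈ (iv L).head?, s.1 = false := by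
    intro s hs
    unfold iv at hs
    rw [List.head?_reverse, List.getLast?_map] at hs
    simp only [Option.mem_def, Option.map_eq_some_iff] at hs
    obtain ⟨s', hs', rfl⟩ := hs
    exact hl s' hs'
  have hil : ∀ s ∈ (iv L).getLast?, s.1 = false := by
    intro s hs
    unfold iv at hs
    rw [List.getLast?_reverse, List.head?_map] at hs
    simp only [Option.mem_def, Option.map_eq_some_iff] at hs
    obtain ⟨s', hs', rfl⟩ := hs
    exact hf s' hs'
  have hW : Red (famHom β) (L ++ ([c0] ++ (iv L ++ [c0]))) := by
    constructor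
    · intro s hs
      simp only [List.mem_append, List.mem_singleton] at hs
      rcases hs with hs | rfl | hs | rfl
      · exact hred.1 s hs
      · exact hc0
      · exact hinv s hs
      · exact hc0
    · rw [List.isChain_append]
      refine ⟨hred.2, ?_, ?_⟩
      · rw [List.isChain_append]
        refine ⟨List.isChain_singleton _, ?_, ?_⟩
        · rw [List.isChain_append]
          refine ⟨hch, List.isChain_singleton _, ?_⟩
          intro a ha b hb
          simp only [List.head?_cons, Option.mem_def, Option.some.injEq] at hb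
          subst hb
          rw [hil a ha]
          exact Bool.false_ne_true
        · intro a ha b hb
          simp only [List.getLast?_singleton, Option.mem_def, Option.some.injEq] at ha
          subst ha
          have : b.1 = false := by
            have hne : iv L ≠ [] := by
              unfold iv
              simpa using h0
            rw [List.head?_append_of_ne_nil _ hne] at hb
            exact hih b hb
          rw [this]
          exact Bool.false_ne_true.symm
      · intro a ha b hb
        simp only [List.singleton_append, List.head?_cons, Option.mem_def, Option.some.injEq] at hb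
        subst hb
        rw [hl a ha]
        exact Bool.false_ne_true
  refine hW.ne_one (famHom_inj β hβ) (by simp [h0]) ?_
  rw [pr_append, pr_append, pr_append, pr_iv, hprc]
  have h8 : pr (famHom β) L * (cc β * ((pr (famHom β) L)⁻¹ * cc β)) =
      pr (famHom β) L * cc β * (pr (famHom β) L)⁻¹ * cc β := by group
  rw [h8, ← hcomm.eq]
  have h9 := cc_sq β
  rw [pow_two] at h9
  rw [mul_inv_cancel_right, h9]

end

end Pool.Agent.Q236.ISO
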