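import Mathlib
import Pool.Agent.Q236.ISO.MH

/-!
The group of the rules: an HNN extension of the free product of a free abelian group and a free
group, in which the rules become conjugations.
-/

set_option autoImplicit false

namespace Pool.Agent.Q236.ISO

/-- A rule joins `(src, μ w + a)` to `(tgt, ν w + b)` for all `w`. -/
structure Rule (P J : Type) where
  dim : Type
  fin : Fintype dim
  dec : DecidableEq dim
  src : P
  tgt : P
  μ : (dim → ℤ) →+ (J → ℤ)
  ν : (dim → ℤ) →+ (J → ℤ)
  a : J → ℤ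
  b : J → ℤ
  μ_inj : Function.Injective μ
  ν_inj : Function.Injective ν

/-- One step. -/
inductive Step {P ι J : Type} (D : ι → Rule P J) : P × (J → ℤ) → P × (J → ℤ) → Prop
  | mk (i : ι) (w : (D i).dim → ℤ) :
      Step D ((D i).src, (D i).μ w + (D i).a) ((D i).tgt, (D i).ν w + (D i).b)

theorem aut_ext {α : Type} {e f : MulAut (FreeGroup α)}
    (h : ∀ a, e (FreeGroup.of a) = f (FreeGroup.of a)) : e = f := by
  apply MulEquiv.ext
  intro x
  exact DFunLike.congr_fun (FreeGroup.ext_hom (f := e.toMonoidHom) (g := f.toMonoidHom) h) x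

/-- Translation of the index. -/
def tr (P J : Type) (v : J → ℤ) : P × (J → ℤ) ≃ P × (J → ℤ) where
  toFun x := (x.1, x.2 - v)
  invFun x := (x.1, x.2 + v)
  left_inv := by rintro ⟨p, n⟩; simp
  right_inv := by rintro ⟨p, n⟩; simp

/-- The action of translations on the free group. -/
def act (P J : Type) : Multiplicative (J → ℤ) →* MulAut (FreeGroup (P × (J → ℤ))) where
  toFun v := FreeGroup.freeGroupCongr (tr P J v.toAdd)
  map_one' := by
    apply aut_ext
    rintro ⟨p, n⟩
    simp [tr]
  map_mul' v w := by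
    apply aut_ext
    rintro ⟨p, n⟩
    simp only [FreeGroup.freeGroupCongr_apply, MulAut.mul_apply, FreeGroup.map.of, tr,
      Equiv.coe_fn_mk, toAdd_mul]
    congr 2
    abel

theorem act_of {P J : Type} (v : Multiplicative (J → ℤ)) (p : P) (n : J → ℤ) :
    act P J v (FreeGroup.of (p, n)) = FreeGroup.of (p, n - v.toAdd) := by
  simp [act, tr]

/-- The free product of `P` infinite cyclic groups and the free abelian group `J → ℤ`. -/
abbrev G0 (P J : Type) : Type := FreeGroup (P × (J → ℤ)) ⋊[act P J] Multiplicative (J → ℤ)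

/-- The free abelian group in `G0`. -/
def X0 (P J : Type) : Multiplicative (J → ℤ) →* G0 P J := SemidirectProduct.inr

/-- The generator `t_p` of `G0`. -/
def t0 {P J : Type} (p : P) : G0 P J := SemidirectProduct.inl (FreeGroup.of (p, 0))

/-- `T p v = X(v)⁻¹ t_p X(v)`. -/
def T {P J H : Type} [Group H] (X : Multiplicative (J → ℤ) →* H) (t : P → H) (p : P) (v : J → ℤ) :
    H := (X (Multiplicative.ofAdd v))⁻¹ * t p * X (Multiplicative.ofAdd v)

theorem T_map {P J H H' : Type} [Group H] [Group H'] (Φ : H →* H')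
    (X : Multiplicative (J → ℤ) →* H) (t : P → H) (p : P) (v : J → ℤ) :
    Φ (T X t p v) = T (Φ.comp X) (fun p => Φ (t p)) p v := by
  simp [T]

theorem T0 {P J : Type} (p : P) (v : J → ℤ) :
    T (X0 P J) t0 p v = SemidirectProduct.inl (FreeGroup.of (p, v)) := by
  have h : (act P J (Multiplicative.ofAdd v))⁻¹ (FreeGroup.of (p, 0)) = FreeGroup.of (p, v) := by
    rw [MulAut.inv_apply, MulEquiv.symm_apply_eq, act_of]
    simp
  rw [← h, SemidirectProduct.inl_aut_inv]
  rfl

theorem tf_free (α : Type) : TF (FreeGroup α) := by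
  intro x hx
  obtain ⟨n, hn, h⟩ := isOfFinOrder_iff_pow_eq_one.1 hx
  exact (pow_eq_one_iff_left hn.ne').1 h

theorem tf_G0 (P J : Type) : TF (G0 P J) := by
  intro x hx
  have h1 : IsOfFinOrder (SemidirectProduct.rightHom x) :=
    MonoidHom.isOfFinOrder (SemidirectProduct.rightHom : G0 P J →* _) hx
  have h2 : x.right = 1 := by
    obtain ⟨n, hn, h⟩ := isOfFinOrder_iff_pow_eq_one.1 h1
    have h' : n • (x.right.toAdd) = 0 := congrArg Multiplicative.toAdd h
    have : x.right.toAdd = 0 := (smul_eq_zero.1 h').resolve_left hn.ne'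
    exact congrArg Multiplicative.ofAdd this
  have h3 : x = SemidirectProduct.inl x.left := by
    ext
    · simp
    · simp [h2]
  rw [h3] at hx ⊢
  have h4 := tf_free _ _ ((Function.Injective.isOfFinOrder_iff
    (SemidirectProduct.inl_injective (φ := act P J))).1 hx)
  rw [h4, map_one]

theorem top_G0 (P J : Type) :
    Subgroup.closure (Set.range (X0 P J) ∪ Set.range (t0 : P → G0 P J)) = ⊤ := by
  rw [eq_top_iff]
  rintro x -
  have hT : ∀ p v, T (X0 P J) t0 p v ∈
      Subgroup.closure (Set.range (X0 P J) ∪ Set.range (t0 : P → G0 P J)) := by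
    intro p v
    exact mul_mem (mul_mem (inv_mem (Subgroup.subset_closure (Or.inl ⟨_, rfl⟩)))
      (Subgroup.subset_closure (Or.inr ⟨p, rfl⟩))) (Subgroup.subset_closure (Or.inl ⟨_, rfl⟩))
  have hl : ∀ y : FreeGroup (P × (J → ℤ)), (SemidirectProduct.inl y : G0 P J) ∈
      Subgroup.closure (Set.range (X0 P J) ∪ Set.range (t0 : P → G0 P J)) := by
    intro y
    induction y using FreeGroup.induction_on with
    | C1 => rw [map_one]; exact one_mem _
    | of x => rw [← T0]; exact hT _ _
    | inv_of x h => rw [map_inv]; exact inv_mem h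
    | mul x y hx hy => rw [map_mul]; exact mul_mem hx hy
  rw [← SemidirectProduct.inl_left_mul_inr_right x]
  exact mul_mem (hl _) (Subgroup.subset_closure (Or.inl ⟨_, rfl⟩))

theorem lift_G0 {P J H : Type} [Group H] (X : Multiplicative (J → ℤ) →* H) (t : P → H) :
    ∃ Φ : G0 P J →* H, (∀ v, Φ (X0 P J v) = X v) ∧ ∀ p, Φ (t0 p) = t p := by
  let f₁ : FreeGroup (P × (J → ℤ)) →* H := FreeGroup.lift (fun x => T X t x.1 x.2)
  refine ⟨SemidirectProduct.lift f₁ X ?_, fun v => SemidirectProduct.lift_inr _ _ _ _, ?_⟩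
  · intro g
    apply FreeGroup.ext_hom
    rintro ⟨p, n⟩
    show f₁ (act P J g (FreeGroup.of (p, n))) = X g * f₁ (FreeGroup.of (p, n)) * (X g)⁻¹
    rw [act_of]
    simp only [f₁, FreeGroup.lift_apply_of, T]
    have h1 : X (Multiplicative.ofAdd (n - g.toAdd)) =
        X (Multiplicative.ofAdd n) * (X g)⁻¹ := by
      rw [← map_inv, ← map_mul]
      rfl
    rw [h1]
    group
  · intro p
    show SemidirectProduct.lift f₁ X _ (SemidirectProduct.inl (FreeGroup.of (p, 0))) = _
    rw [SemidirectProduct.lift_inl]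
    simp [f₁, T]

/-- The embeddings. -/
theorem emb_G0 (P J : Type) (d : Type) (μ : (d → ℤ) →+ (J → ℤ)) (hμ : Function.Injective μ)
    (p : P) (a : J → ℤ) : ∃ f : G0 Unit (d) →* G0 P J, Function.Injective f ∧
      (∀ y w, f (SemidirectProduct.inl y * SemidirectProduct.inr w) =
        SemidirectProduct.inl (FreeGroup.map (fun x : Unit × (d → ℤ) => (p, μ x.2 + a)) y) *
          SemidirectProduct.inr (Multiplicative.ofAdd (μ w.toAdd))) := by
  let κ : Unit × (d → ℤ) → P × (J → ℤ) := fun x => (p, μ x.2 + a)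
  have hκ : Function.Injective κ := by
    rintro ⟨⟨⟩, x⟩ ⟨⟨⟩, y⟩ h
    have h2 : μ x + a = μ y + a := (Prod.ext_iff.1 h).2
    have h3 := hμ (add_right_cancel h2)
    rw [h3]
  let f₂ : Multiplicative (d → ℤ) →* Multiplicative (J → ℤ) := AddMonoidHom.toMultiplicative μ
  have hc : ∀ g : Multiplicative (d → ℤ), (FreeGroup.map κ).comp (act Unit (d) g).toMonoidHom =
      (act P J (f₂ g)).toMonoidHom.comp (FreeGroup.map κ) := by
    intro g
    apply FreeGroup.ext_hom
    rintro ⟨⟨⟩, n⟩
    show FreeGroup.map κ (act Unit (d) g (FreeGroup.of ((), n))) =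
      act P J (f₂ g) (FreeGroup.map κ (FreeGroup.of ((), n)))
    rw [act_of, FreeGroup.map.of, FreeGroup.map.of]
    simp only [κ]
    rw [act_of]
    congr 2
    show μ (n - g.toAdd) + a = μ n + a - μ g.toAdd
    rw [map_sub]
    abel
  refine ⟨SemidirectProduct.map (FreeGroup.map κ) f₂ hc, ?_, ?_⟩
  · intro x y h
    have h1 := congrArg SemidirectProduct.left h
    have h2 := congrArg SemidirectProduct.right h
    simp only [SemidirectProduct.map_left, SemidirectProduct.map_right] at h1 h2
    ext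
    · rw [FreeGroup.map_injective hκ h1]
    · exact congrFun (hμ h2) _
  · intro y w
    rw [map_mul, SemidirectProduct.map_inl, SemidirectProduct.map_inr]
    rfl

/-- The relations of the rules. -/
structure Rel {P ι J : Type} (D : ι → Rule P J) (H : Type) [Group H]
    (X : Multiplicative (J → ℤ) →* H) (t : P → H) (r : ι → H) : Prop where
  shift : ∀ i (w : (D i).dim → ℤ), r i * X (Multiplicative.ofAdd ((D i).μ w)) =
    X (Multiplicative.ofAdd ((D i).ν w)) * r i
  rule : ∀ i, r i * T X t (D i).src (D i).a = T X t (D i).tgt (D i).b * r i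

theorem T_add {P J H : Type} [Group H] (X : Multiplicative (J → ℤ) →* H) (t : P → H) (p : P)
    (x a : J → ℤ) : T X t p (x + a) =
      (X (Multiplicative.ofAdd x))⁻¹ * T X t p a * X (Multiplicative.ofAdd x) := by
  have h : X (Multiplicative.ofAdd (x + a)) =
      X (Multiplicative.ofAdd a) * X (Multiplicative.ofAdd x) := by
    rw [← map_mul, add_comm]
    rfl
  unfold T
  rw [h]
  group

theorem Rel.step {P ι J : Type} {D : ι → Rule P J} {H : Type} [Group H]
    {X : Multiplicative (J → ℤ) →* H} {t : P → H} {r : ι → H} (h : Rel D H X t r) (i : ι)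
    (w : (D i).dim → ℤ) : T X t (D i).tgt ((D i).ν w + (D i).b) =
      r i * T X t (D i).src ((D i).μ w + (D i).a) * (r i)⁻¹ := by
  have h1 : r i * X (Multiplicative.ofAdd ((D i).μ w)) * (r i)⁻¹ =
      X (Multiplicative.ofAdd ((D i).ν w)) := by rw [h.shift]; group
  have h2 : r i * T X t (D i).src (D i).a * (r i)⁻¹ = T X t (D i).tgt (D i).b := by
    rw [h.rule]; group
  rw [T_add, T_add, ← h1, ← h2]
  group

theorem Rel.conn {P ι J : Type} {D : ι → Rule P J} {H : Type} [Group H]
    {X : Multiplicative (J → ℤ) →* H} {t : P → H} {r : ι → H} (h : Rel D H X t r)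
    (x y : P × (J → ℤ)) (hxy : Relation.EqvGen (Step D) x y) :
    ∃ ρ ∈ Subgroup.closure (Set.range r), T X t x.1 x.2 = ρ * T X t y.1 y.2 * ρ⁻¹ := by
  induction hxy with
  | rel x y hxy =>
    obtain ⟨i, w⟩ := hxy
    refine ⟨(r i)⁻¹, inv_mem (Subgroup.subset_closure ⟨i, rfl⟩), ?_⟩
    simp only
    rw [h.step i w]
    group
  | refl x => exact ⟨1, one_mem _, by simp⟩
  | symm x y _ ih =>
    obtain ⟨ρ, hρ, h⟩ := ih
    refine ⟨ρ⁻¹, inv_mem hρ, ?_⟩
    rw [h]
    group
  | trans x y z _ _ ih1 ih2 =>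
    obtain ⟨ρ, hρ, h⟩ := ih1
    obtain ⟨ρ', hρ', h'⟩ := ih2
    refine ⟨ρ * ρ', mul_mem hρ hρ', ?_⟩
    rw [h, h']
    group

theorem free_mem {α β : Type} (κ : α → β) (hκ : Function.Injective κ) (D : Set β)
    (y : FreeGroup α) : FreeGroup.map κ y ∈ Subgroup.closure (FreeGroup.of '' D) ↔
      y ∈ Subgroup.closure (FreeGroup.of '' (κ ⁻¹' D)) := by
  classical
  constructor
  · intro h
    let E : FreeGroup β →* FreeGroup α :=
      FreeGroup.lift (fun b => if hb : ∃ a, κ a = b then FreeGroup.of hb.choose else 1)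
    have hE : ∀ a, E (FreeGroup.of (κ a)) = FreeGroup.of a := by
      intro a
      have hb : ∃ a', κ a' = κ a := ⟨a, rfl⟩
      simp only [E, FreeGroup.lift_apply_of]
      rw [dif_pos hb]
      exact congrArg FreeGroup.of (hκ hb.choose_spec)
    have hE' : E (FreeGroup.map κ y) = y := by
      have : E.comp (FreeGroup.map κ) = MonoidHom.id _ := by
        apply FreeGroup.ext_hom
        intro a
        simp [hE]
      exact DFunLike.congr_fun this y
    rw [← hE']
    have : Subgroup.closure (FreeGroup.of '' D) ≤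
        (Subgroup.closure (FreeGroup.of '' (κ ⁻¹' D))).comap E := by
      rw [Subgroup.closure_le]
      rintro _ ⟨b, hb, rfl⟩
      by_cases hb' : ∃ a, κ a = b
      · obtain ⟨a, rfl⟩ := hb'
        show E _ ∈ Subgroup.closure (FreeGroup.of '' (κ ⁻¹' D))
        rw [hE]
        exact Subgroup.subset_closure ⟨a, hb, rfl⟩
      · show E (FreeGroup.of b) ∈ Subgroup.closure (FreeGroup.of '' (κ ⁻¹' D))
        simp only [E, FreeGroup.lift_apply_of]
        rw [dif_neg hb']
        exact one_mem _
    exact this h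
  · intro h
    have : Subgroup.closure (FreeGroup.of '' (κ ⁻¹' D)) ≤
        (Subgroup.closure (FreeGroup.of '' D)).comap (FreeGroup.map κ) := by
      rw [Subgroup.closure_le]
      rintro _ ⟨a, ha, rfl⟩
      show FreeGroup.map κ (FreeGroup.of a) ∈ Subgroup.closure (FreeGroup.of '' D)
      rw [FreeGroup.map.of]
      exact Subgroup.subset_closure ⟨_, ha, rfl⟩
    exact this h

theorem free_of_mem {β : Type} (D : Set β) (b : β)
    (h : FreeGroup.of b ∈ Subgroup.closure (FreeGroup.of '' D)) : b ∈ D := by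
  classical
  by_contra hb
  let E : FreeGroup β →* Multiplicative ℤ :=
    FreeGroup.lift (fun b => if b ∈ D then 1 else Multiplicative.ofAdd 1)
  have : Subgroup.closure (FreeGroup.of '' D) ≤ E.ker := by
    rw [Subgroup.closure_le]
    rintro _ ⟨a, ha, rfl⟩
    show E _ = 1
    simp [E, ha]
  have h2 : E (FreeGroup.of b) = 1 := this h
  simp only [E, FreeGroup.lift_apply_of, if_neg hb] at h2
  exact absurd h2 (by decide)

theorem mem_inl {P J : Type} (S : Subgroup (FreeGroup (P × (J → ℤ))))
    (y : FreeGroup (P × (J → ℤ))) (w : Multiplicative (J → ℤ)) :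
    (SemidirectProduct.inl y * SemidirectProduct.inr w : G0 P J) ∈
      S.map SemidirectProduct.inl ↔ w = 1 ∧ y ∈ S := by
  constructor
  · rintro ⟨z, hz, h⟩
    have h1 := congrArg SemidirectProduct.left h
    have h2 := congrArg SemidirectProduct.right h
    simp at h1 h2
    exact ⟨h2.symm, h1 ▸ hz⟩
  · rintro ⟨rfl, hy⟩
    exact ⟨y, hy, by simp⟩

/-- The group `K` of the rules. -/
theorem kk (P ι J : Type) [Finite ι] (D : ι → Rule P J) :
    ∃ (K : Type) (_ : Group K) (X : Multiplicative (J → ℤ) →* K) (t : P → K) (r : ι → K),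
      Rel D K X t r ∧ TF K ∧
      Subgroup.closure (Set.range X ∪ Set.range t ∪ Set.range r) = ⊤ ∧
      (∀ (H : Type) [Group H] (X' : Multiplicative (J → ℤ) →* H) (t' : P → H) (r' : ι → H),
        Rel D H X' t' r' → ∃ Φ : K →* H, (∀ v, Φ (X v) = X' v) ∧ (∀ p, Φ (t p) = t' p) ∧
          ∀ i, Φ (r i) = r' i) ∧
      ∀ p p' v v', (∃ ρ ∈ Subgroup.closure (Set.range r), T X t p v = ρ * T X t p' v' * ρ⁻¹) ↔
        Relation.EqvGen (Step D) (p, v) (p', v') := by
  choose f hf hf' using fun i => emb_G0 P J (D i).dim (D i).μ (D i).μ_inj (D i).src (D i).a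
  choose g hg hg' using fun i => emb_G0 P J (D i).dim (D i).ν (D i).ν_inj (D i).tgt (D i).b
  have fX : ∀ i w, f i (X0 _ _ w) = X0 P J (Multiplicative.ofAdd ((D i).μ w.toAdd)) := by
    intro i w
    have := hf' i 1 w
    simpa [X0] using this
  have gX : ∀ i w, g i (X0 _ _ w) = X0 P J (Multiplicative.ofAdd ((D i).ν w.toAdd)) := by
    intro i w
    have := hg' i 1 w
    simpa [X0] using this
  have ft : ∀ i, f i (t0 ()) = T (X0 P J) t0 (D i).src (D i).a := by
    intro i
    have := hf' i (FreeGroup.of ((), 0)) 1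
    rw [T0]
    simpa [t0] using this
  have gt : ∀ i, g i (t0 ()) = T (X0 P J) t0 (D i).tgt (D i).b := by
    intro i
    have := hg' i (FreeGroup.of ((), 0)) 1
    rw [T0]
    simpa [t0] using this
  obtain ⟨K, iK, of, r, h1, h2, h3, h4, h5, h6⟩ := mhnn ι (G0 P J)
    (fun i => G0 Unit ((D i).dim)) f g hf hg
  have hR : Rel D K (of.comp (X0 P J)) (fun p => of (t0 p)) r := by
    constructor
    · intro i w
      have := h2 i (X0 _ _ (Multiplicative.ofAdd w))
      rw [fX, gX] at this
      exact this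
    · intro i
      have := h2 i (t0 ())
      rw [ft, gt, T_map, T_map] at this
      exact this
  refine ⟨K, iK, of.comp (X0 P J), fun p => of (t0 p), r, hR, h3 (tf_G0 P J), ?_, ?_, ?_⟩
  · rw [eq_top_iff, ← h4, Subgroup.closure_le]
    have hle : (⊤ : Subgroup (G0 P J)).map of ≤ Subgroup.closure
        (Set.range (of.comp (X0 P J)) ∪ Set.range (fun p => of (t0 p)) ∪ Set.range r) := by
      rw [← top_G0, MonoidHom.map_closure, Subgroup.closure_le]
      rintro _ ⟨y, (⟨x, rfl⟩ | ⟨i, rfl⟩), rfl⟩
      · exact Subgroup.subset_closure (Or.inl (Or.inl ⟨x, rfl⟩))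
      · exact Subgroup.subset_closure (Or.inl (Or.inr ⟨i, rfl⟩))
    rintro y (⟨x, rfl⟩ | ⟨i, rfl⟩)
    · exact hle ⟨x, trivial, rfl⟩
    · exact Subgroup.subset_closure (Or.inr ⟨i, rfl⟩)
  · intro H _ X' t' r' hR'
    obtain ⟨Φ, ha, hb⟩ := lift_G0 X' t'
    have hΦX : Φ.comp (X0 P J) = X' := by
      ext v
      exact ha v
    have hΦt : (fun p => Φ (t0 p)) = t' := funext hb
    obtain ⟨Φ', hc, hd⟩ := h5 H Φ r' (by
      intro i q
      have key : (MulAut.conj (r' i)).toMonoidHom.comp (Φ.comp (f i)) = Φ.comp (g i) := by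
        apply MonoidHom.eq_of_eqOn_dense (top_G0 Unit ((D i).dim))
        rintro x (⟨w, rfl⟩ | ⟨⟨⟩, rfl⟩)
        · show r' i * Φ (f i _) * (r' i)⁻¹ = Φ (g i _)
          rw [fX, gX, ha, ha]
          have := hR'.shift i w.toAdd
          rw [this]
          group
        · show r' i * Φ (f i _) * (r' i)⁻¹ = Φ (g i _)
          have := hR'.rule i
          rw [ft, gt, T_map, T_map, hΦX, hΦt, this]
          group
      have := DFunLike.congr_fun key q
      have h' : r' i * Φ (f i q) * (r' i)⁻¹ = Φ (g i q) := this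
      rw [← h']
      group)
    refine ⟨Φ', ?_, ?_, hd⟩
    · intro v
      rw [MonoidHom.comp_apply, hc, ha]
    · intro p
      rw [hc, hb]
  · intro p p' v v'
    constructor
    · rintro ⟨ρ, hρ, h⟩
      rw [← T_map, ← T_map, T0, T0] at h
      let C : Set (P × (J → ℤ)) := {x | Relation.EqvGen (Step D) x (p', v')}
      let S : Subgroup (G0 P J) :=
        (Subgroup.closure (FreeGroup.of '' C)).map SemidirectProduct.inl
      have := h6 S (by
        intro i q
        rw [← SemidirectProduct.inl_left_mul_inr_right q, hf', hg', mem_inl, mem_inl]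
        have hκ1 : Function.Injective (fun x : Unit × ((D i).dim → ℤ) =>
            ((D i).src, (D i).μ x.2 + (D i).a)) := by
          rintro ⟨⟨⟩, x⟩ ⟨⟨⟩, y⟩ h
          have h2 : (D i).μ x + (D i).a = (D i).μ y + (D i).a := (Prod.ext_iff.1 h).2
          rw [(D i).μ_inj (add_right_cancel h2)]
        have hκ2 : Function.Injective (fun x : Unit × ((D i).dim → ℤ) =>
            ((D i).tgt, (D i).ν x.2 + (D i).b)) := by
          rintro ⟨⟨⟩, x⟩ ⟨⟨⟩, y⟩ h
          have h2 : (D i).ν x + (D i).b = (D i).ν y + (D i).b := (Prod.ext_iff.1 h).2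
          rw [(D i).ν_inj (add_right_cancel h2)]
        rw [free_mem _ hκ1, free_mem _ hκ2]
        have e1 : (fun x : Unit × ((D i).dim → ℤ) => ((D i).src, (D i).μ x.2 + (D i).a)) ⁻¹' C =
            (fun x : Unit × ((D i).dim → ℤ) => ((D i).tgt, (D i).ν x.2 + (D i).b)) ⁻¹' C := by
          ext ⟨⟨⟩, w⟩
          have hs : Relation.EqvGen (Step D) ((D i).src, (D i).μ w + (D i).a)
              ((D i).tgt, (D i).ν w + (D i).b) := Relation.EqvGen.rel _ _ (Step.mk i w)
          exact ⟨fun h => (hs.symm).trans _ _ _ h, fun h => hs.trans _ _ _ h⟩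
        rw [e1]
        have e2 : ∀ w : (D i).dim → ℤ,
            (Multiplicative.ofAdd ((D i).μ w) = (1 : Multiplicative (J → ℤ)) ↔ w = 0) := by
          intro w
          constructor
          · intro h
            have h' : (D i).μ w = 0 := h
            exact (D i).μ_inj (by rw [h', map_zero])
          · rintro rfl
            rw [map_zero]; rfl
        have e3 : ∀ w : (D i).dim → ℤ,
            (Multiplicative.ofAdd ((D i).ν w) = (1 : Multiplicative (J → ℤ)) ↔ w = 0) := by
          intro w
          constructor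
          · intro h
            have h' : (D i).ν w = 0 := h
            exact (D i).ν_inj (by rw [h', map_zero])
          · rintro rfl
            rw [map_zero]; rfl
        rw [e2, e3]) (SemidirectProduct.inl (FreeGroup.of (p, v))) (by
        rw [h]
        have hρ' : ρ ∈ Subgroup.closure (of '' (S : Set (G0 P J)) ∪ Set.range r) :=
          Subgroup.closure_mono Set.subset_union_right hρ
        refine mul_mem (mul_mem hρ' (Subgroup.subset_closure (Or.inl ⟨_, ⟨_,
          Subgroup.subset_closure ⟨(p', v'), Relation.EqvGen.refl _, rfl⟩, rfl⟩, rfl⟩)))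
          (inv_mem hρ'))
      obtain ⟨z, hz, hz'⟩ := this
      have := SemidirectProduct.inl_injective hz'
      subst this
      exact free_of_mem C _ hz
    · intro h
      exact hR.conn (p, v) (p', v') h

end Pool.Agent.Q236.ISO
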