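import Mathlib
import Pool.Agent.H665Simp.P_der_iff
import Pool.Agent.Helper227.SOne

/-!
Isomorphism of finite presentations is recursively enumerable.
-/

set_option autoImplicit false

namespace Pool.Agent.Q236.ISO

open Pool.Agent.H665Simp Pool.Agent.Helper227

/-- Codes. -/
abbrev Cd : Type := ℕ × List Wd

/-- The relators of a code. -/
def relSet (a : Cd) : Set (FreeGroup (Fin a.1)) :=
  {g : FreeGroup (Fin a.1) | ∃ w ∈ a.2, g = FreeGroup.mk
    (w.filterMap (fun q => if h : q.1 < a.1 then some ((⟨q.1, h⟩ : Fin a.1), q.2) else none))}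

/-- The group of a code. -/
abbrev PG (a : Cd) : Type := PresentedGroup (relSet a)

/-- The group of a code, with the generators indexed by the natural numbers. -/
abbrev NG (a : Cd) : Type := PresentedGroup (relsN a.1 a.2)

/-- Membership in the normal closure. -/
def Tr (a : Cd) (v : Wd) : Prop := FreeGroup.mk v ∈ Subgroup.normalClosure (relsN a.1 a.2)

theorem s1_tr : S1 (fun x : Cd × Wd => Tr x.1 x.2) := by
  have h : S1 (fun x : Cd × Wd => ∃ d : Der, IsDer x.1.1 x.1.2 x.2 d) := by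
    refine S1.ex (p := fun (x : Cd × Wd) (d : Der) => IsDer x.1.1 x.1.2 x.2 d) ?_
    refine S1.of_prim (PrimrecPred.comp pp_isDer (Primrec.pair (Primrec.fst.comp Primrec.fst)
      (Primrec.pair (Primrec.snd.comp Primrec.fst) Primrec.snd)))
  exact h.of_eq (fun x => (der_iff x.1.1 x.1.2 x.2).symm)

/-- Substitution. -/
def sub (U : List Wd) (w : Wd) : Wd :=
  w.flatMap (fun l => if l.2 = true then U.getD l.1 [] else inv (U.getD l.1 []))

theorem pr_sub : Primrec₂ sub := by
  unfold sub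
  refine Primrec.list_flatMap Primrec.snd ?_
  have h1 : Primrec fun q : (List Wd × Wd) × (ℕ × Bool) => q.1.1.getD q.2.1 [] :=
    (Primrec.list_getD []).comp (Primrec.fst.comp Primrec.fst) (Primrec.fst.comp Primrec.snd)
  exact Primrec.ite (Primrec.eq.comp (Primrec.snd.comp Primrec.snd) (Primrec.const true)) h1
    (pr_inv.comp h1)

/-- The homomorphism of a substitution. -/
def sg (U : List Wd) : FreeGroup ℕ →* FreeGroup ℕ :=
  FreeGroup.lift (fun i => FreeGroup.mk (U.getD i []))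

theorem sg_of (U : List Wd) (i : ℕ) : sg U (FreeGroup.of i) = FreeGroup.mk (U.getD i []) := by
  unfold sg
  rw [FreeGroup.lift_apply_of]

theorem sg_mk (U : List Wd) (w : Wd) : sg U (FreeGroup.mk w) = FreeGroup.mk (sub U w) := by
  induction w with
  | nil =>
    have h1 : sub U [] = [] := rfl
    rw [h1, mk_nil', map_one]
  | cons l w ih =>
    have h1 : FreeGroup.mk (l :: w) = FreeGroup.mk [l] * FreeGroup.mk w := by
      rw [← mk_app]; rfl
    have h2 : sub U (l :: w) = (if l.2 = true then U.getD l.1 [] else inv (U.getD l.1 [])) ++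
        sub U w := by
      unfold sub
      rw [List.flatMap_cons]
    rw [h1, map_mul, ih, h2, mk_app]
    congr 1
    obtain ⟨i, b⟩ := l
    cases b
    · have : FreeGroup.mk [(i, false)] = (FreeGroup.of i : FreeGroup ℕ)⁻¹ := by
        rw [show (FreeGroup.of i : FreeGroup ℕ) = FreeGroup.mk [(i, true)] from rfl,
          FreeGroup.inv_mk]
        rfl
      rw [this, map_inv, sg_of, if_neg (by simp), inv_eq]
    · have : FreeGroup.mk [(i, true)] = (FreeGroup.of i : FreeGroup ℕ) := rfl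
      rw [this, sg_of, if_pos rfl]

/-- The certificate of an isomorphism. -/
def Crt (a b : Cd) (U V : List Wd) : Prop :=
  (U.length ≤ a.1 ∧ ∀ w ∈ a.2, Tr b (sub U w)) ∧ (V.length ≤ b.1 ∧ ∀ w ∈ b.2, Tr a (sub V w)) ∧
    (∀ i < a.1, Tr a (sub V (U.getD i []) ++ [(i, false)])) ∧
    ∀ j < b.1, Tr b (sub U (V.getD j []) ++ [(j, false)])

/-- The domain of the certificates. -/
abbrev Dm : Type := (Cd × Cd) × (List Wd × List Wd)

theorem s1_c1 {α : Type} [Primcodable α] (fa fb : α → Cd) (fU : α → List Wd) (ha : Primrec fa) (hb : Primrec fb)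
    (hU : Primrec fU) :
    S1 (fun x => (fU x).length ≤ (fa x).1 ∧ ∀ w ∈ (fa x).2, Tr (fb x) (sub (fU x) w)) := by
  have h1 : PrimrecPred (fun x => (fU x).length ≤ (fa x).1) :=
    Primrec.nat_le.comp (Primrec.list_length.comp hU) (Primrec.fst.comp ha)
  have h2 : Primrec (fun y : α × Wd => (fb y.1, sub (fU y.1) y.2)) :=
    Primrec.pair (hb.comp Primrec.fst) (pr_sub.comp (hU.comp Primrec.fst) Primrec.snd)
  have h3 : S1 (fun y : α × Wd => Tr (fb y.1) (sub (fU y.1) y.2)) :=
    S1.comp (f := fun y : α × Wd => (fb y.1, sub (fU y.1) y.2)) s1_tr h2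
  exact (S1.of_prim h1).and (S1.all_mem (p := fun x w => Tr (fb x) (sub (fU x) w)) h3
    (Primrec.snd.comp ha))

theorem s1_c2 {α : Type} [Primcodable α] (fa : α → Cd) (fU fV : α → List Wd) (ha : Primrec fa) (hU : Primrec fU)
    (hV : Primrec fV) :
    S1 (fun x => ∀ i < (fa x).1, Tr (fa x) (sub (fV x) ((fU x).getD i []) ++ [(i, false)])) := by
  have h0 : Primrec (fun y : α × ℕ => (fU y.1).getD y.2 []) :=
    (Primrec.list_getD []).comp (hU.comp Primrec.fst) Primrec.snd
  have h1 : Primrec (fun y : α × ℕ => ([(y.2, false)] : Wd)) :=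
    Primrec.list_cons.comp (Primrec.pair Primrec.snd (Primrec.const false)) (Primrec.const [])
  have h2 : Primrec (fun y : α × ℕ => sub (fV y.1) ((fU y.1).getD y.2 []) ++ [(y.2, false)]) :=
    Primrec.list_append.comp (pr_sub.comp (hV.comp Primrec.fst) h0) h1
  have h3 : Primrec (fun y : α × ℕ =>
      (fa y.1, sub (fV y.1) ((fU y.1).getD y.2 []) ++ [(y.2, false)])) :=
    Primrec.pair (ha.comp Primrec.fst) h2
  have h4 : S1 (fun y : α × ℕ =>
      Tr (fa y.1) (sub (fV y.1) ((fU y.1).getD y.2 []) ++ [(y.2, false)])) :=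
    S1.comp (f := fun y : α × ℕ =>
      (fa y.1, sub (fV y.1) ((fU y.1).getD y.2 []) ++ [(y.2, false)])) s1_tr h3
  exact S1.all_lt (p := fun x i => Tr (fa x) (sub (fV x) ((fU x).getD i []) ++ [(i, false)])) h4
    (Primrec.fst.comp ha)

theorem s1_crt : S1 (fun x : Dm => Crt x.1.1 x.1.2 x.2.1 x.2.2) := by
  have ha : Primrec fun x : Dm => x.1.1 := Primrec.fst.comp Primrec.fst
  have hb : Primrec fun x : Dm => x.1.2 := Primrec.snd.comp Primrec.fst
  have hU : Primrec fun x : Dm => x.2.1 := Primrec.fst.comp Primrec.snd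
  have hV : Primrec fun x : Dm => x.2.2 := Primrec.snd.comp Primrec.snd
  exact (s1_c1 _ _ _ ha hb hU).and ((s1_c1 _ _ _ hb ha hV).and ((s1_c2 _ _ _ ha hU hV).and
    (s1_c2 _ _ _ hb hV hU)))

/-- The homomorphism of a certificate. -/
theorem hom_of {a b : Cd} {U : List Wd} (h1 : U.length ≤ a.1) (h2 : ∀ w ∈ a.2, Tr b (sub U w)) :
    ∃ Φ : NG a →* NG b, ∀ x, Φ (PresentedGroup.mk _ x) = PresentedGroup.mk _ (sg U x) := by
  have hle : Subgroup.normalClosure (relsN a.1 a.2) ≤
      (Subgroup.normalClosure (relsN b.1 b.2)).comap (sg U) := by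
    apply Subgroup.normalClosure_le_normal
    rintro r (⟨i, hi, rfl⟩ | ⟨w, hw, rfl⟩)
    · show sg U (FreeGroup.of i) ∈ Subgroup.normalClosure (relsN b.1 b.2)
      rw [sg_of, List.getD_eq_default _ _ (by omega), mk_nil']
      exact one_mem _
    · show sg U (FreeGroup.mk w) ∈ Subgroup.normalClosure (relsN b.1 b.2)
      rw [sg_mk]
      exact h2 w hw
  exact ⟨QuotientGroup.map _ _ (sg U) hle, fun x => rfl⟩

theorem iso_of_crt {a b : Cd} {U V : List Wd} (h : Crt a b U V) : Nonempty (NG a ≃* NG b) := by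
  obtain ⟨⟨h1, h2⟩, ⟨h3, h4⟩, h5, h6⟩ := h
  obtain ⟨Φ, hΦ⟩ := hom_of h1 h2
  obtain ⟨Ψ, hΨ⟩ := hom_of h3 h4
  have key : ∀ (a b : Cd) (U V : List Wd) (Φ : NG a →* NG b) (Ψ : NG b →* NG a),
      (∀ x, Φ (PresentedGroup.mk _ x) = PresentedGroup.mk _ (sg U x)) →
      (∀ x, Ψ (PresentedGroup.mk _ x) = PresentedGroup.mk _ (sg V x)) →
      (∀ i < a.1, Tr a (sub V (U.getD i []) ++ [(i, false)])) →
      Ψ.comp Φ = MonoidHom.id _ := by
    intro a b U V Φ Ψ hΦ hΨ h
    apply PresentedGroup.ext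
    intro i
    show Ψ (Φ (PresentedGroup.mk _ (FreeGroup.of i))) = PresentedGroup.mk _ (FreeGroup.of i)
    by_cases hi : i < a.1
    · rw [hΦ, hΨ, sg_of, sg_mk]
      have := h i hi
      unfold Tr at this
      rw [mk_app] at this
      have e : FreeGroup.mk [(i, false)] = (FreeGroup.of i : FreeGroup ℕ)⁻¹ := by
        rw [show (FreeGroup.of i : FreeGroup ℕ) = FreeGroup.mk [(i, true)] from rfl,
          FreeGroup.inv_mk]
        rfl
      rw [e] at this
      have h7 : (QuotientGroup.mk (FreeGroup.mk (sub V (U.getD i [])) * (FreeGroup.of i)⁻¹) :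
          NG a) = 1 := (QuotientGroup.eq_one_iff _).2 this
      have h8 : (PresentedGroup.mk (relsN a.1 a.2)) (FreeGroup.mk (sub V (U.getD i [])) *
        (FreeGroup.of i)⁻¹) = 1 := h7
      rw [map_mul, map_inv] at h8
      exact mul_inv_eq_one.1 h8
    · have : (PresentedGroup.mk (relsN a.1 a.2)) (FreeGroup.of i) = 1 := by
        have h7 : (QuotientGroup.mk (FreeGroup.of i) : NG a) = 1 :=
          (QuotientGroup.eq_one_iff _).2 (Subgroup.subset_normalClosure (Or.inl ⟨i, by omega, rfl⟩))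
        exact h7
      rw [this, map_one, map_one]
  have k1 := key a b U V Φ Ψ hΦ hΨ h5
  have k2 := key b a V U Ψ Φ hΨ hΦ h6
  exact ⟨MonoidHom.toMulEquiv Φ Ψ k1 k2⟩

theorem crt_of_iso {a b : Cd} (h : Nonempty (NG a ≃* NG b)) : ∃ U V, Crt a b U V := by
  obtain ⟨Θ⟩ := h
  have hex : ∀ (a b : Cd) (Θ : NG a ≃* NG b), ∃ U : List Wd, U.length ≤ a.1 ∧
      ∀ x, Θ (PresentedGroup.mk _ x) = PresentedGroup.mk _ (sg U x) := by
    intro a b Θ
    have h1 : ∀ i, ∃ w : Wd, Θ (PresentedGroup.mk _ (FreeGroup.of i)) =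
        PresentedGroup.mk _ (FreeGroup.mk w) := by
      intro i
      obtain ⟨y, hy⟩ := PresentedGroup.mk_surjective (relsN b.1 b.2)
        (Θ (PresentedGroup.mk _ (FreeGroup.of i)))
      exact ⟨y.toWord, by rw [FreeGroup.mk_toWord, hy]⟩
    choose W hW using h1
    refine ⟨(List.range a.1).map W, by simp, ?_⟩
    have h2 : Θ.toMonoidHom.comp (PresentedGroup.mk (relsN a.1 a.2)) =
        (PresentedGroup.mk (relsN b.1 b.2)).comp (sg ((List.range a.1).map W)) := by
      apply FreeGroup.ext_hom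
      intro i
      show Θ (PresentedGroup.mk _ (FreeGroup.of i)) = PresentedGroup.mk _ (sg _ (FreeGroup.of i))
      rw [sg_of]
      by_cases hi : i < a.1
      · rw [hW]
        congr 2
        simp [List.getD, hi]
      · have h3 : (PresentedGroup.mk (relsN a.1 a.2)) (FreeGroup.of i) = 1 := by
          have h7 : (QuotientGroup.mk (FreeGroup.of i) : NG a) = 1 :=
            (QuotientGroup.eq_one_iff _).2 (Subgroup.subset_normalClosure
              (Or.inl ⟨i, by omega, rfl⟩))
          exact h7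
        rw [h3, map_one, List.getD_eq_default _ _ (by simp; omega), mk_nil', map_one]
    intro x
    exact DFunLike.congr_fun h2 x
  obtain ⟨U, hU1, hU2⟩ := hex a b Θ
  obtain ⟨V, hV1, hV2⟩ := hex b a Θ.symm
  have key1 : ∀ (a b : Cd) (Θ : NG a ≃* NG b) (U : List Wd),
      (∀ x, Θ (PresentedGroup.mk _ x) = PresentedGroup.mk _ (sg U x)) →
      ∀ w ∈ a.2, Tr b (sub U w) := by
    intro a b Θ U hU w hw
    have h1 : (PresentedGroup.mk (relsN a.1 a.2)) (FreeGroup.mk w) = 1 := by
      have h7 : (QuotientGroup.mk (FreeGroup.mk w) : NG a) = 1 :=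
        (QuotientGroup.eq_one_iff _).2 (Subgroup.subset_normalClosure (Or.inr ⟨w, hw, rfl⟩))
      exact h7
    have h2 := hU (FreeGroup.mk w)
    rw [h1, map_one, sg_mk] at h2
    have h3 : (QuotientGroup.mk (FreeGroup.mk (sub U w)) : NG b) = 1 := h2.symm
    exact (QuotientGroup.eq_one_iff _).1 h3
  have key2 : ∀ (a b : Cd) (Θ : NG a ≃* NG b) (U V : List Wd),
      (∀ x, Θ (PresentedGroup.mk _ x) = PresentedGroup.mk _ (sg U x)) →
      (∀ x, Θ.symm (PresentedGroup.mk _ x) = PresentedGroup.mk _ (sg V x)) →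
      ∀ i < a.1, Tr a (sub V (U.getD i []) ++ [(i, false)]) := by
    intro a b Θ U V hU hV i _
    have h1 : Θ.symm (Θ (PresentedGroup.mk _ (FreeGroup.of i))) =
        PresentedGroup.mk _ (FreeGroup.of i) := MulEquiv.symm_apply_apply _ _
    rw [hU, hV, sg_of, sg_mk] at h1
    have h2 : (PresentedGroup.mk (relsN a.1 a.2)) (FreeGroup.mk (sub V (U.getD i [])) *
        (FreeGroup.of i)⁻¹) = 1 := by
      rw [map_mul, map_inv, h1, mul_inv_cancel]
    have h3 : (QuotientGroup.mk (FreeGroup.mk (sub V (U.getD i [])) * (FreeGroup.of i)⁻¹) :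
        NG a) = 1 := h2
    have h4 := (QuotientGroup.eq_one_iff _).1 h3
    unfold Tr
    rw [mk_app]
    have e : FreeGroup.mk [(i, false)] = (FreeGroup.of i : FreeGroup ℕ)⁻¹ := by
      rw [show (FreeGroup.of i : FreeGroup ℕ) = FreeGroup.mk [(i, true)] from rfl,
        FreeGroup.inv_mk]
      rfl
    rw [e]
    exact h4
  refine ⟨U, V, ⟨hU1, key1 a b Θ U hU2⟩, ⟨hV1, key1 b a Θ.symm V hV2⟩,
    key2 a b Θ U V hU2 hV2, key2 b a Θ.symm V U hV2 ?_⟩
  exact hU2

theorem crt_iff {a b : Cd} : Nonempty (NG a ≃* NG b) ↔ ∃ U V, Crt a b U V :=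
  ⟨crt_of_iso, fun ⟨_, _, h⟩ => iso_of_crt h⟩

/-- Drop the letters which are too large. -/
def dr (K : ℕ) (w : Wd) : List (Fin K × Bool) :=
  w.filterMap (fun q => if h : q.1 < K then some ((⟨q.1, h⟩ : Fin K), q.2) else none)

/-- The homomorphism which drops generators. -/
def dh (K : ℕ) : FreeGroup ℕ →* FreeGroup (Fin K) :=
  FreeGroup.lift (fun i => if h : i < K then FreeGroup.of (⟨i, h⟩ : Fin K) else 1)

theorem dh_mk (K : ℕ) (w : Wd) : dh K (FreeGroup.mk w) = FreeGroup.mk (dr K w) := by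
  induction w with
  | nil =>
    have h1 : dr K [] = [] := rfl
    rw [h1, mk_nil', map_one]
    rfl
  | cons l w ih =>
    have h1 : FreeGroup.mk (l :: w) = FreeGroup.mk [l] * FreeGroup.mk w := by
      rw [← mk_app]; rfl
    rw [h1, map_mul, ih]
    obtain ⟨i, b⟩ := l
    have h2 : FreeGroup.mk [(i, b)] = if b = true then FreeGroup.of i else (FreeGroup.of i)⁻¹ := by
      cases b
      · rw [if_neg (by simp), show (FreeGroup.of i : FreeGroup ℕ) = FreeGroup.mk [(i, true)] from rfl,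
          FreeGroup.inv_mk]
        rfl
      · rw [if_pos rfl]
        rfl
    have h3 : dh K (FreeGroup.of i) = if h : i < K then FreeGroup.of (⟨i, h⟩ : Fin K) else 1 := by
      unfold dh
      rw [FreeGroup.lift_apply_of]
    by_cases hi : i < K
    · have h4 : dr K ((i, b) :: w) = ((⟨i, hi⟩ : Fin K), b) :: dr K w := by
        unfold dr
        rw [List.filterMap_cons]
        simp [hi]
      have h5 : FreeGroup.mk (((⟨i, hi⟩ : Fin K), b) :: dr K w) =
          FreeGroup.mk [((⟨i, hi⟩ : Fin K), b)] * FreeGroup.mk (dr K w) := by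
        rw [FreeGroup.mul_mk]; rfl
      rw [h4, h5, h2]
      congr 1
      rw [dif_pos hi] at h3
      cases b
      · rw [if_neg (by simp), map_inv, h3, show (FreeGroup.of (⟨i, hi⟩ : Fin K)) =
          FreeGroup.mk [((⟨i, hi⟩ : Fin K), true)] from rfl, FreeGroup.inv_mk]
        rfl
      · rw [if_pos rfl, h3]
        rfl
    · have h4 : dr K ((i, b) :: w) = dr K w := by
        unfold dr
        rw [List.filterMap_cons]
        simp [hi]
      rw [dif_neg hi] at h3
      rw [h4, h2]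
      cases b
      · rw [if_neg (by simp), map_inv, h3, inv_one, one_mul]
      · rw [if_pos rfl, h3, one_mul]

theorem pg_ng (a : Cd) : Nonempty (PG a ≃* NG a) := by
  let f : FreeGroup (Fin a.1) →* FreeGroup ℕ := FreeGroup.map Fin.val
  have hdf : (dh a.1).comp f = MonoidHom.id _ := by
    apply FreeGroup.ext_hom
    intro i
    show dh a.1 (FreeGroup.map Fin.val (FreeGroup.of i)) = FreeGroup.of i
    rw [FreeGroup.map.of]
    unfold dh
    rw [FreeGroup.lift_apply_of, dif_pos i.2]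
  have hfd : (PresentedGroup.mk (relsN a.1 a.2)).comp (f.comp (dh a.1)) =
      PresentedGroup.mk (relsN a.1 a.2) := by
    apply FreeGroup.ext_hom
    intro i
    show PresentedGroup.mk _ (f (dh a.1 (FreeGroup.of i))) = PresentedGroup.mk _ (FreeGroup.of i)
    unfold dh
    rw [FreeGroup.lift_apply_of]
    by_cases hi : i < a.1
    · rw [dif_pos hi]
      rfl
    · rw [dif_neg hi, map_one, map_one]
      have h7 : (QuotientGroup.mk (FreeGroup.of i) : NG a) = 1 :=
        (QuotientGroup.eq_one_iff _).2 (Subgroup.subset_normalClosure (Or.inl ⟨i, by omega, rfl⟩))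
      exact h7.symm
  have h1 : Subgroup.normalClosure (relSet a) ≤
      (Subgroup.normalClosure (relsN a.1 a.2)).comap f := by
    apply Subgroup.normalClosure_le_normal
    rintro r ⟨w, hw, rfl⟩
    show f (FreeGroup.mk (dr a.1 w)) ∈ Subgroup.normalClosure (relsN a.1 a.2)
    rw [← dh_mk]
    have h2 := DFunLike.congr_fun hfd (FreeGroup.mk w)
    have h3 : (QuotientGroup.mk (FreeGroup.mk w) : NG a) = 1 :=
        (QuotientGroup.eq_one_iff _).2 (Subgroup.subset_normalClosure (Or.inr ⟨w, hw, rfl⟩))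
    have h4 : (QuotientGroup.mk (f (dh a.1 (FreeGroup.mk w))) : NG a) = 1 := h2.trans h3
    exact (QuotientGroup.eq_one_iff _).1 h4
  have h2 : Subgroup.normalClosure (relsN a.1 a.2) ≤
      (Subgroup.normalClosure (relSet a)).comap (dh a.1) := by
    apply Subgroup.normalClosure_le_normal
    rintro r (⟨i, hi, rfl⟩ | ⟨w, hw, rfl⟩)
    · show dh a.1 (FreeGroup.of i) ∈ Subgroup.normalClosure (relSet a)
      unfold dh
      rw [FreeGroup.lift_apply_of, dif_neg (by omega)]
      exact one_mem _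
    · show dh a.1 (FreeGroup.mk w) ∈ Subgroup.normalClosure (relSet a)
      rw [dh_mk]
      exact Subgroup.subset_normalClosure ⟨w, hw, rfl⟩
  let Φ : PG a →* NG a := QuotientGroup.map _ _ f h1
  let Ψ : NG a →* PG a := QuotientGroup.map _ _ (dh a.1) h2
  refine ⟨MonoidHom.toMulEquiv Φ Ψ ?_ ?_⟩
  · apply PresentedGroup.ext
    intro i
    show PresentedGroup.mk _ (dh a.1 (f (FreeGroup.of i))) = PresentedGroup.mk _ (FreeGroup.of i)
    have := DFunLike.congr_fun hdf (FreeGroup.of i)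
    have h3 : dh a.1 (f (FreeGroup.of i)) = FreeGroup.of i := this
    rw [h3]
  · apply PresentedGroup.ext
    intro i
    exact DFunLike.congr_fun hfd (FreeGroup.of i)

/-- RE. -/
theorem re_iso : REPred (fun p : Cd × Cd => Nonempty (PG p.1 ≃* PG p.2)) := by
  have h : S1 (fun p : Cd × Cd => ∃ c : List Wd × List Wd, Crt p.1 p.2 c.1 c.2) :=
    S1.ex (p := fun (p : Cd × Cd) (c : List Wd × List Wd) => Crt p.1 p.2 c.1 c.2) s1_crt
  refine S1.re (h.of_eq ?_)
  rintro ⟨a, b⟩
  obtain ⟨ea⟩ := pg_ng a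
  obtain ⟨eb⟩ := pg_ng b
  constructor
  · rintro ⟨⟨U, V⟩, hc⟩
    obtain ⟨Θ⟩ := iso_of_crt hc
    exact ⟨(ea.trans Θ).trans eb.symm⟩
  · rintro ⟨Θ⟩
    obtain ⟨U, V, hc⟩ := crt_of_iso ⟨(ea.symm.trans Θ).trans eb⟩
    exact ⟨(U, V), hc⟩

end Pool.Agent.Q236.ISO
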