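import Mathlib
import Pool.Agent.Q236.ISO.RE
import Pool.Agent.Q236.ISO.KK
import Pool.Agent.Q236.ISO.TW

/-!
Codes of the presentations.
-/

set_option autoImplicit false

namespace Pool.Agent.Q236.ISO

open Pool.Agent.H665Simp

/-- The word of `x⁻ⁿ t^{±1} xⁿ`. -/
def sw {A : Type} (x t : A) (b : Bool) (n : ℕ) : List (A × Bool) :=
  (List.range n).map (fun _ => (x, false)) ++ ((t, b) :: (List.range n).map (fun _ => (x, true)))

/-- The word of `[c, κ_n]`, where `κ_n = s_n τ s_n⁻¹`, `s_n = x⁻ⁿ t xⁿ`. -/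
def W {A : Type} (c x t τ : A) (n : ℕ) : List (A × Bool) :=
  (c, true) :: (sw x t true n ++ ((τ, true) :: (sw x t false n ++ ((c, false) ::
    (sw x t true n ++ ((τ, false) :: sw x t false n))))))

/-- Change of letters. -/
def ml {A A' : Type} (i : A → A') (w : List (A × Bool)) : List (A' × Bool) :=
  w.map (fun p => (i p.1, p.2))

theorem ml_W {A A' : Type} (i : A → A') (c x t τ : A) (n : ℕ) :
    ml i (W c x t τ n) = W (i c) (i x) (i t) (i τ) n := by
  simp [ml, W, sw]

theorem pr_rep (l : ℕ × Bool) : Primrec (fun n : ℕ => (List.range n).map (fun _ => l)) :=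
  Primrec.list_map Primrec.list_range (Primrec.const l).to₂

theorem pr_sw (x t : ℕ) (b : Bool) : Primrec (fun n : ℕ => sw x t b n) :=
  Primrec.list_append.comp (pr_rep _) (Primrec.list_cons.comp (Primrec.const _) (pr_rep _))

theorem pr_W (c x t τ : ℕ) : Primrec (fun n : ℕ => W c x t τ n) :=
  Primrec.list_cons.comp (Primrec.const _) (Primrec.list_append.comp (pr_sw x t true)
    (Primrec.list_cons.comp (Primrec.const _) (Primrec.list_append.comp (pr_sw x t false)
      (Primrec.list_cons.comp (Primrec.const _) (Primrec.list_append.comp (pr_sw x t true)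
        (Primrec.list_cons.comp (Primrec.const _) (pr_sw x t false)))))))

theorem lift_ml {A A' H : Type} [Group H] (i : A → A') (h : A' → H) (w : List (A × Bool)) :
    FreeGroup.lift h (FreeGroup.mk (ml i w)) = FreeGroup.lift (h ∘ i) (FreeGroup.mk w) := by
  rw [FreeGroup.lift_mk, FreeGroup.lift_mk, ml, List.map_map]
  rfl

theorem lift_mk_app {A H : Type} [Group H] (h : A → H) (w w' : List (A × Bool)) :
    FreeGroup.lift h (FreeGroup.mk (w ++ w')) =
      FreeGroup.lift h (FreeGroup.mk w) * FreeGroup.lift h (FreeGroup.mk w') := by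
  rw [← map_mul, FreeGroup.mul_mk]

theorem lift_mk_cons {A H : Type} [Group H] (h : A → H) (l : A × Bool) (w : List (A × Bool)) :
    FreeGroup.lift h (FreeGroup.mk (l :: w)) =
      cond l.2 (h l.1) (h l.1)⁻¹ * FreeGroup.lift h (FreeGroup.mk w) := by
  rw [FreeGroup.lift_mk, FreeGroup.lift_mk, List.map_cons, List.prod_cons]

theorem lift_sw {A H : Type} [Group H] (h : A → H) (x t : A) (b : Bool) (n : ℕ) :
    FreeGroup.lift h (FreeGroup.mk (sw x t b n)) =
      (h x ^ n)⁻¹ * cond b (h t) (h t)⁻¹ * h x ^ n := by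
  unfold sw
  rw [lift_mk_app, lift_mk_cons, FreeGroup.lift_mk, FreeGroup.lift_mk, List.map_map, List.map_map]
  have e1 : ((fun p : A × Bool => cond p.2 (h p.1) (h p.1)⁻¹) ∘ fun _ : ℕ => (x, false)) =
      fun _ => (h x)⁻¹ := rfl
  have e2 : ((fun p : A × Bool => cond p.2 (h p.1) (h p.1)⁻¹) ∘ fun _ : ℕ => (x, true)) =
      fun _ => h x := rfl
  rw [e1, e2, List.map_const', List.map_const', List.length_range, List.prod_replicate,
    List.prod_replicate, inv_pow, mul_assoc]

theorem lift_W {A H : Type} [Group H] (h : A → H) (c x t τ : A) (n : ℕ) :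
    FreeGroup.lift h (FreeGroup.mk (W c x t τ n)) = 1 ↔
      Commute (h c) (s (h x) (h t) n * h τ * (s (h x) (h t) n)⁻¹) := by
  unfold W s
  rw [lift_mk_cons, lift_mk_app, lift_mk_cons, lift_mk_app, lift_mk_cons, lift_mk_app,
    lift_mk_cons, lift_sw, lift_sw, zpow_neg, zpow_natCast]
  simp only [cond_true, cond_false]
  have e : h c * ((h x ^ n)⁻¹ * h t * h x ^ n * (h τ * ((h x ^ n)⁻¹ * (h t)⁻¹ * h x ^ n *
      ((h c)⁻¹ * ((h x ^ n)⁻¹ * h t * h x ^ n * ((h τ)⁻¹ *
        ((h x ^ n)⁻¹ * (h t)⁻¹ * h x ^ n))))))) =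
      (h c * ((h x ^ n)⁻¹ * h t * h x ^ n * h τ * ((h x ^ n)⁻¹ * h t * h x ^ n)⁻¹)) *
      (((h x ^ n)⁻¹ * h t * h x ^ n * h τ * ((h x ^ n)⁻¹ * h t * h x ^ n)⁻¹) * h c)⁻¹ := by
    group
  rw [e, mul_inv_eq_one]
  rfl

/-- CODE. -/
theorem code (A : Type) [Fintype A] (c x t τ : A) (L : List (List (A × Bool))) :
    ∃ f : ℕ → Cd, Computable f ∧ ∀ n, ∃ g : A → PG (f n),
      (∀ w ∈ W c x t τ n :: L, FreeGroup.lift g (FreeGroup.mk w) = 1) ∧
      Subgroup.closure (Set.range g) = ⊤ ∧
      ∀ (H : Type) [Group H] (h : A → H),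
        (∀ w ∈ W c x t τ n :: L, FreeGroup.lift h (FreeGroup.mk w) = 1) →
        ∃ Φ : PG (f n) →* H, ∀ a, Φ (g a) = h a := by
  let e : A ≃ Fin (Fintype.card A) := Fintype.equivFin A
  let i : A → ℕ := fun a => (e a).val
  let f : ℕ → Cd := fun n => (Fintype.card A, W (i c) (i x) (i t) (i τ) n :: L.map (ml i))
  have hdr : ∀ w : List (A × Bool), dr (Fintype.card A) (ml i w) = ml e w := by
    intro w
    induction w with
    | nil => rfl
    | cons l w ih =>
      have h1 : ml i (l :: w) = ((e l.1).val, l.2) :: ml i w := rfl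
      have h2 : ml e (l :: w) = (e l.1, l.2) :: ml e w := rfl
      rw [h1, h2, ← ih]
      unfold dr
      rw [List.filterMap_cons]
      simp
  have hmem : ∀ n (w' : Wd), w' ∈ (f n).2 ↔ ∃ w ∈ W c x t τ n :: L, w' = ml i w := by
    intro n w'
    show w' ∈ W (i c) (i x) (i t) (i τ) n :: L.map (ml i) ↔ _
    rw [← ml_W, List.mem_cons, List.mem_map]
    constructor
    · rintro (rfl | ⟨w, hw, rfl⟩)
      · exact ⟨_, List.mem_cons_self, rfl⟩
      · exact ⟨w, List.mem_cons_of_mem _ hw, rfl⟩
    · rintro ⟨w, hw, rfl⟩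
      rcases List.mem_cons.1 hw with rfl | hw
      · exact Or.inl rfl
      · exact Or.inr ⟨w, hw, rfl⟩
  have hrel : ∀ n, relSet (f n) =
      {y : FreeGroup (Fin (Fintype.card A)) | ∃ w ∈ W c x t τ n :: L, y = FreeGroup.mk (ml e w)} := by
    intro n
    ext y
    constructor
    · rintro ⟨w', hw', hy⟩
      obtain ⟨w, hw, rfl⟩ := (hmem n w').1 hw'
      refine ⟨w, hw, ?_⟩
      rw [hy, ← hdr]
      rfl
    · rintro ⟨w, hw, hy⟩
      refine ⟨ml i w, (hmem n _).2 ⟨w, hw, rfl⟩, ?_⟩
      rw [hy, ← hdr]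
      rfl
  refine ⟨f, ?_, ?_⟩
  · exact (Primrec.pair (Primrec.const _) (Primrec.list_cons.comp (pr_W _ _ _ _)
      (Primrec.const _))).to_comp
  · intro n
    let g : A → PG (f n) := fun a => PresentedGroup.of (rels := relSet (f n)) (e a)
    have hg : ∀ w : List (A × Bool), FreeGroup.lift g (FreeGroup.mk w) =
        PresentedGroup.mk (relSet (f n)) (FreeGroup.mk (ml e w)) := by
      intro w
      have h1 := lift_ml e (fun j => PresentedGroup.of (rels := relSet (f n)) j) w
      have h2 : FreeGroup.lift (fun j => PresentedGroup.of (rels := relSet (f n)) j) =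
          PresentedGroup.mk (relSet (f n)) := by
        apply FreeGroup.ext_hom
        intro j
        rw [FreeGroup.lift_apply_of]
        rfl
      rw [h2] at h1
      exact h1.symm
    refine ⟨g, ?_, ?_, ?_⟩
    · intro w hw
      rw [hg]
      have h3 : (QuotientGroup.mk (FreeGroup.mk (ml e w)) : PG (f n)) = 1 :=
        (QuotientGroup.eq_one_iff _).2 (Subgroup.subset_normalClosure (by
          rw [hrel]; exact ⟨w, hw, rfl⟩))
      exact h3
    · have h1 : Set.range g = Set.range (PresentedGroup.of (rels := relSet (f n))) := by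
        ext y
        constructor
        · rintro ⟨a, rfl⟩; exact ⟨_, rfl⟩
        · rintro ⟨j, rfl⟩; exact ⟨e.symm j, by simp [g]⟩
      rw [h1]
      exact PresentedGroup.closure_range_of _
    · intro H _ h hh
      refine ⟨PresentedGroup.toGroup (f := h ∘ e.symm) ?_, ?_⟩
      · intro r hr
        rw [hrel] at hr
        obtain ⟨w, hw, rfl⟩ := hr
        rw [lift_ml]
        have : (h ∘ e.symm) ∘ e = h := by
          ext a; simp
        rw [this]
        exact hh w hw
      · intro a
        show PresentedGroup.toGroup _ (PresentedGroup.of (e a)) = h a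
        rw [PresentedGroup.toGroup.of]
        simp

end Pool.Agent.Q236.ISO
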