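import Mathlib
import Pool.Agent.Q236.ISO.KK
import Pool.Agent.Y786.ISO.Arith

/-!
Every c.e. equivalence relation is the connectedness of an affine graph.
-/

set_option autoImplicit false

namespace Pool.Agent.Q236.ISO

open Pool.Agent.Helper844.Sys
open Pool.Agent.Y817.ISO (Defines)

section

variable {X : Type}

/-- Vectors. -/
def mkv (v : X → ℤ) (c₁ c₂ : ℤ) : X ⊕ Fin 2 → ℤ := Sum.elim v (fun j => if j = 0 then c₁ else c₂)

theorem mkv_inl (v : X → ℤ) (c₁ c₂ : ℤ) (x : X) : mkv v c₁ c₂ (Sum.inl x) = v x := rfl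
theorem mkv_0 (v : X → ℤ) (c₁ c₂ : ℤ) : mkv v c₁ c₂ (Sum.inr 0) = c₁ := rfl
theorem mkv_1 (v : X → ℤ) (c₁ c₂ : ℤ) : mkv v c₁ c₂ (Sum.inr 1) = c₂ := rfl

theorem mkv_comp (v : X → ℤ) (c₁ c₂ : ℤ) : mkv v c₁ c₂ ∘ Sum.inl = v := rfl

theorem mkv_add (v v' : X → ℤ) (c₁ c₂ c₁' c₂' : ℤ) :
    mkv v c₁ c₂ + mkv v' c₁' c₂' = mkv (v + v') (c₁ + c₁') (c₂ + c₂') := by
  ext x
  rcases x with x | j
  · rfl
  · show (if j = 0 then c₁ else c₂) + (if j = 0 then c₁' else c₂') =
      (if j = 0 then c₁ + c₁' else c₂ + c₂')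
    split <;> rfl

theorem mkv_eta (u : X ⊕ Fin 2 → ℤ) : mkv (u ∘ Sum.inl) (u (Sum.inr 0)) (u (Sum.inr 1)) = u := by
  ext x
  rcases x with x | j
  · rfl
  · fin_cases j <;> rfl

/-- Affine maps given by linear forms. -/
def lv (f g : (X → ℤ) →+ ℤ) : (X → ℤ) →+ (X ⊕ Fin 2 → ℤ) where
  toFun v := mkv v (f v) (g v)
  map_zero' := by
    rw [map_zero, map_zero]
    ext x
    rcases x with x | j
    · rfl
    · show (if j = 0 then (0 : ℤ) else 0) = 0
      split <;> rfl
  map_add' v w := by rw [map_add, map_add, mkv_add]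

theorem lv_apply (f g : (X → ℤ) →+ ℤ) (v : X → ℤ) : lv f g v = mkv v (f v) (g v) := rfl

theorem lv_inj (f g : (X → ℤ) →+ ℤ) : Function.Injective (lv f g) := by
  intro v w h
  have := congrArg (fun u => u ∘ (Sum.inl : X → X ⊕ Fin 2)) h
  exact this

/-- The evaluation. -/
def evl (x : X) : (X → ℤ) →+ ℤ := Pi.evalAddMonoidHom _ x

/-- The linear part of an equation. -/
def linp (q : Eqn X) : (X → ℤ) →+ ℤ := q.a • evl q.k + q.b • evl q.l + q.c • evl q.m

theorem linp_apply (q : Eqn X) (v : X → ℤ) :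
    linp q v = q.a * v q.k + q.b * v q.l + q.c * v q.m := rfl

/-- The step of the counter. -/
def stp (q : Eqn X) : (X ⊕ Fin 2 → ℤ) →+ (X ⊕ Fin 2 → ℤ) where
  toFun u := mkv (u ∘ Sum.inl) (u (Sum.inr 0)) (u (Sum.inr 1) + q.e * u (Sum.inl q.j))
  map_zero' := by
    ext x
    rcases x with x | j
    · rfl
    · fin_cases j
      · rfl
      · show (0 : ℤ) + q.e * 0 = 0
        ring
  map_add' u w := by
    rw [mkv_add]
    congr 1
    show u (Sum.inr 1) + w (Sum.inr 1) + q.e * (u (Sum.inl q.j) + w (Sum.inl q.j)) =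
      u (Sum.inr 1) + q.e * u (Sum.inl q.j) + (w (Sum.inr 1) + q.e * w (Sum.inl q.j))
    ring

theorem stp_apply (q : Eqn X) (v : X → ℤ) (c₁ c₂ : ℤ) :
    stp q (mkv v c₁ c₂) = mkv v c₁ (c₂ + q.e * v q.j) := rfl

theorem stp_inj (q : Eqn X) : Function.Injective (stp q) := by
  intro u w h
  have h1 : u ∘ Sum.inl = w ∘ (Sum.inl : X → X ⊕ Fin 2) :=
    funext fun x => congrFun h (Sum.inl x)
  have h2 : u (Sum.inr 0) = w (Sum.inr 0) := congrFun h (Sum.inr 0)
  have h3 : u (Sum.inr 1) + q.e * u (Sum.inl q.j) = w (Sum.inr 1) + q.e * w (Sum.inl q.j) :=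
    congrFun h (Sum.inr 1)
  have h4 : u (Sum.inl q.j) = w (Sum.inl q.j) := congrFun h1 q.j
  rw [h4] at h3
  rw [← mkv_eta u, ← mkv_eta w, h1, h2, add_right_cancel h3]

variable [Fintype X] [DecidableEq X] (n m : X) (L : List (Eqn X))

/-- The nodes. -/
abbrev Nd (L : List (Eqn X)) : Type := Unit ⊕ (Fin (L.length + 1) ⊕ Fin L.length)

/-- The free moves. -/
def rfree (p : Nd L) (n x : X) : Rule (Nd L) (X ⊕ Fin 2) where
  dim := X
  fin := inferInstance
  dec := inferInstance
  src := p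
  tgt := p
  μ := lv 0 0
  ν := lv 0 0
  a := 0
  b := mkv (if x = n then 0 else Pi.single x 1) 0 0
  μ_inj := lv_inj _ _
  ν_inj := lv_inj _ _

/-- The initial rule. -/
def rB : Rule (Nd L) (X ⊕ Fin 2) where
  dim := Unit
  fin := inferInstance
  dec := inferInstance
  src := Sum.inl ()
  tgt := Sum.inr (Sum.inl 0)
  μ := (lv 0 0).comp ((AddMonoidHom.single (fun _ : X => ℤ) n).comp (Pi.evalAddMonoidHom _ ()))
  ν := (lv 0 0).comp ((AddMonoidHom.single (fun _ : X => ℤ) n).comp (Pi.evalAddMonoidHom _ ()))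
  a := 0
  b := 0
  μ_inj := by
    intro v w h
    have h1 := lv_inj _ _ h
    have h2 := Pi.single_injective (M := fun _ : X => ℤ) n h1
    ext i
    exact h2
  ν_inj := by
    intro v w h
    have h1 := lv_inj _ _ h
    have h2 := Pi.single_injective (M := fun _ : X => ℤ) n h1
    ext i
    exact h2

/-- The entry of a gadget. -/
def rin (i : Fin L.length) : Rule (Nd L) (X ⊕ Fin 2) where
  dim := X
  fin := inferInstance
  dec := inferInstance
  src := Sum.inr (Sum.inl i.castSucc)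
  tgt := Sum.inr (Sum.inr i)
  μ := lv 0 0
  ν := lv 0 (linp (L.get i))
  a := 0
  b := mkv 0 0 (L.get i).d
  μ_inj := lv_inj _ _
  ν_inj := lv_inj _ _

/-- The counter of a gadget. -/
def rst (i : Fin L.length) : Rule (Nd L) (X ⊕ Fin 2) where
  dim := X ⊕ Fin 2
  fin := inferInstance
  dec := inferInstance
  src := Sum.inr (Sum.inr i)
  tgt := Sum.inr (Sum.inr i)
  μ := AddMonoidHom.id _
  ν := stp (L.get i)
  a := 0
  b := mkv 0 1 0
  μ_inj := Function.injective_id
  ν_inj := stp_inj _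

/-- The exit of a gadget. -/
def rout (i : Fin L.length) : Rule (Nd L) (X ⊕ Fin 2) where
  dim := X
  fin := inferInstance
  dec := inferInstance
  src := Sum.inr (Sum.inr i)
  tgt := Sum.inr (Sum.inl i.succ)
  μ := lv (evl (L.get i).i) 0
  ν := lv 0 0
  a := 0
  b := 0
  μ_inj := lv_inj _ _
  ν_inj := lv_inj _ _

/-- The indices of the rules. -/
abbrev Ix (L : List (Eqn X)) : Type :=
  Unit ⊕ (X ⊕ (X ⊕ (Fin L.length ⊕ (Fin L.length ⊕ Fin L.length))))

/-- The rules. -/
def rls : Ix L → Rule (Nd L) (X ⊕ Fin 2) :=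
  Sum.elim (fun _ => rB n L) (Sum.elim (fun x => rfree L (Sum.inr (Sum.inl 0)) n x)
    (Sum.elim (fun x => rfree L (Sum.inr (Sum.inl (Fin.last _))) m x)
      (Sum.elim (rin L) (Sum.elim (rst L) (rout L)))))

/-- Connectedness. -/
abbrev Cn (x y : Nd L × (X ⊕ Fin 2 → ℤ)) : Prop := Relation.EqvGen (Step (rls n m L)) x y

theorem cn_B (k : ℤ) : Cn n m L (Sum.inl (), mkv (Pi.single n k) 0 0)
    (Sum.inr (Sum.inl 0), mkv (Pi.single n k) 0 0) := by
  have := Relation.EqvGen.rel _ _ (Step.mk (D := rls n m L) (Sum.inl ()) (fun _ => k))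
  have e : mkv (Pi.single n k) 0 0 + 0 = mkv (Pi.single n k) 0 0 := add_zero _
  rw [← e]
  exact this

theorem cn_free0 (x : X) (hx : x ≠ n) (v : X → ℤ) : Cn n m L (Sum.inr (Sum.inl 0), mkv v 0 0)
    (Sum.inr (Sum.inl 0), mkv (v + Pi.single x 1) 0 0) := by
  have := Relation.EqvGen.rel _ _ (Step.mk (D := rls n m L) (Sum.inr (Sum.inl x)) v)
  have e : mkv v 0 0 + 0 = mkv v 0 0 := add_zero _
  have e2 : mkv v 0 0 + mkv (if x = n then 0 else Pi.single x 1) 0 0 =
      mkv (v + Pi.single x 1) 0 0 := by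
    rw [mkv_add, if_neg hx]; rfl
  rw [← e2]
  nth_rw 1 [← e]
  exact this

theorem cn_freeN (x : X) (hx : x ≠ m) (v : X → ℤ) :
    Cn n m L (Sum.inr (Sum.inl (Fin.last _)), mkv v 0 0)
    (Sum.inr (Sum.inl (Fin.last _)), mkv (v + Pi.single x 1) 0 0) := by
  have := Relation.EqvGen.rel _ _ (Step.mk (D := rls n m L) (Sum.inr (Sum.inr (Sum.inl x))) v)
  have e : mkv v 0 0 + 0 = mkv v 0 0 := add_zero _
  have e2 : mkv v 0 0 + mkv (if x = m then 0 else Pi.single x 1) 0 0 =
      mkv (v + Pi.single x 1) 0 0 := by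
    rw [mkv_add, if_neg hx]; rfl
  rw [← e2]
  nth_rw 1 [← e]
  exact this

theorem cn_in (i : Fin L.length) (v : X → ℤ) :
    Cn n m L (Sum.inr (Sum.inl i.castSucc), mkv v 0 0)
      (Sum.inr (Sum.inr i), mkv v 0 (linp (L.get i) v + (L.get i).d)) := by
  have := Relation.EqvGen.rel _ _
    (Step.mk (D := rls n m L) (Sum.inr (Sum.inr (Sum.inr (Sum.inl i)))) v)
  have e : mkv v 0 0 + 0 = mkv v 0 0 := add_zero _
  have e2 : mkv v 0 (linp (L.get i) v) + mkv 0 0 (L.get i).d =
      mkv v 0 (linp (L.get i) v + (L.get i).d) := by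
    rw [mkv_add, add_zero, add_zero]
  rw [← e2]
  nth_rw 1 [← e]
  exact this

theorem cn_st (i : Fin L.length) (v : X → ℤ) (c₁ c₂ : ℤ) :
    Cn n m L (Sum.inr (Sum.inr i), mkv v c₁ c₂)
      (Sum.inr (Sum.inr i), mkv v (c₁ + 1) (c₂ + (L.get i).e * v (L.get i).j)) := by
  have := Relation.EqvGen.rel _ _
    (Step.mk (D := rls n m L) (Sum.inr (Sum.inr (Sum.inr (Sum.inr (Sum.inl i))))) (mkv v c₁ c₂))
  have e : mkv v c₁ c₂ + 0 = mkv v c₁ c₂ := add_zero _
  have e2 : mkv v c₁ (c₂ + (L.get i).e * v (L.get i).j) + mkv 0 1 0 =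
      mkv v (c₁ + 1) (c₂ + (L.get i).e * v (L.get i).j) := by
    rw [mkv_add, add_zero, add_zero]
  rw [← e2]
  nth_rw 1 [← e]
  exact this

theorem cn_out (i : Fin L.length) (v : X → ℤ) :
    Cn n m L (Sum.inr (Sum.inr i), mkv v (v (L.get i).i) 0)
      (Sum.inr (Sum.inl i.succ), mkv v 0 0) := by
  have := Relation.EqvGen.rel _ _
    (Step.mk (D := rls n m L) (Sum.inr (Sum.inr (Sum.inr (Sum.inr (Sum.inr i))))) v)
  have e : mkv v (v (L.get i).i) 0 + 0 = mkv v (v (L.get i).i) 0 := add_zero _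
  have e2 : mkv v 0 0 + 0 = mkv v 0 0 := add_zero _
  rw [← e2, ← e]
  exact this

theorem cn_count (i : Fin L.length) (v : X → ℤ) (c₂ : ℤ) (c₁ : ℤ) :
    Cn n m L (Sum.inr (Sum.inr i), mkv v 0 c₂)
      (Sum.inr (Sum.inr i), mkv v c₁ (c₂ + c₁ * ((L.get i).e * v (L.get i).j))) := by
  induction c₁ using Int.induction_on with
  | zero =>
    have : c₂ + 0 * ((L.get i).e * v (L.get i).j) = c₂ := by ring
    rw [this]
    exact Relation.EqvGen.refl _
  | succ k ih =>
    refine ih.trans _ _ _ ?_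
    have := cn_st n m L i v k (c₂ + k * ((L.get i).e * v (L.get i).j))
    have e : c₂ + k * ((L.get i).e * v (L.get i).j) + (L.get i).e * v (L.get i).j =
        c₂ + (k + 1) * ((L.get i).e * v (L.get i).j) := by ring
    rw [e] at this
    exact this
  | pred k ih =>
    refine ih.trans _ _ _ (Relation.EqvGen.symm _ _ ?_)
    have := cn_st n m L i v (-k - 1) (c₂ + (-k - 1) * ((L.get i).e * v (L.get i).j))
    have e : c₂ + (-k - 1) * ((L.get i).e * v (L.get i).j) + (L.get i).e * v (L.get i).j =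
        c₂ + (-k) * ((L.get i).e * v (L.get i).j) := by ring
    have e' : (-k - 1 + 1 : ℤ) = -k := by ring
    rw [e, e'] at this
    exact this

theorem cn_eq (i : Fin L.length) (v : X → ℤ) (hv : (L.get i).Holds v) :
    Cn n m L (Sum.inr (Sum.inl i.castSucc), mkv v 0 0)
      (Sum.inr (Sum.inl i.succ), mkv v 0 0) := by
  refine (cn_in n m L i v).trans _ _ _ (Relation.EqvGen.trans _ _ _
    (cn_count n m L i v _ (v (L.get i).i)) ?_)
  have e : linp (L.get i) v + (L.get i).d + v (L.get i).i * ((L.get i).e * v (L.get i).j) = 0 := by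
    rw [linp_apply]
    have := hv
    unfold Eqn.Holds at this
    rw [← this]
    ring
  rw [e]
  exact cn_out n m L i v

theorem cn_all (v : X → ℤ) (hv : ∀ q ∈ L, q.Holds v) (i : ℕ) (hi : i < L.length + 1) :
    Cn n m L (Sum.inr (Sum.inl 0), mkv v 0 0) (Sum.inr (Sum.inl ⟨i, hi⟩), mkv v 0 0) := by
  induction i with
  | zero => exact Relation.EqvGen.refl _
  | succ i ih =>
    exact (ih (by omega)).trans _ _ _ (cn_eq n m L ⟨i, by omega⟩ v (hv _ (List.get_mem _ _)))

theorem free_gen {A : Type} [AddCommGroup A] (r : A → A → Prop) (hr : Equivalence r)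
    (S : AddSubgroup A) (G : Set A) (hG : AddSubgroup.closure G = S)
    (h : ∀ g ∈ G, ∀ v, r v (v + g)) (d : A) (hd : d ∈ S) : ∀ v, r v (v + d) := by
  rw [← hG] at hd
  induction hd using AddSubgroup.closure_induction with
  | mem g hg => exact h g hg
  | zero => intro v; rw [add_zero]; exact hr.refl v
  | add x y _ _ hx hy => intro v; rw [← add_assoc]; exact hr.trans (hx v) (hy _)
  | neg x _ hx =>
    intro v
    have := hx (v + -x)
    rw [neg_add_cancel_right] at this
    exact hr.symm this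

theorem free_move (p : Nd L) (n' : X)
    (hp : ∀ x ≠ n', ∀ v, Cn n m L (p, mkv v 0 0) (p, mkv (v + Pi.single x 1) 0 0))
    (v v' : X → ℤ) (h : v n' = v' n') : Cn n m L (p, mkv v 0 0) (p, mkv v' 0 0) := by
  have h1 := free_gen (fun v v' : X → ℤ => Cn n m L (p, mkv v 0 0) (p, mkv v' 0 0))
    ⟨fun v => Relation.EqvGen.refl _, fun h => Relation.EqvGen.symm _ _ h,
      fun h h' => Relation.EqvGen.trans _ _ _ h h'⟩
    (AddSubgroup.closure {g : X → ℤ | ∃ x ≠ n', g = Pi.single x 1}) _ rfl (by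
      rintro g ⟨x, hx, rfl⟩ v
      exact hp x hx v) (v' - v) (by
      have h2 : v' - v = ∑ x, (v' x - v x) • (Pi.single x 1 : X → ℤ) := by
        ext y
        rw [Finset.sum_apply]
        simp [Pi.single_apply]
      rw [h2]
      apply AddSubgroup.sum_mem
      intro x _
      by_cases hx : x = n'
      · subst hx
        rw [h, sub_self, zero_smul]
        exact AddSubgroup.zero_mem _
      · refine AddSubgroup.zsmul_mem _ (AddSubgroup.subset_closure ?_) _
        show Pi.single x 1 ∈ {g : X → ℤ | ∃ x ≠ n', g = Pi.single x 1}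
        exact ⟨x, hx, rfl⟩) v
  simpa using h1

open Classical in
/-- The labels of the vertices of the line. -/
noncomputable def lp' (cls : ℤ → Set ℤ) (i : Fin (L.length + 1)) (v : X → ℤ) : Option (Set ℤ) :=
  if ∀ j : Fin L.length, j.val < i.val → (L.get j).Holds v then some (cls (v n)) else
    if ∀ j : Fin L.length, i.val ≤ j.val → (L.get j).Holds v then some (cls (v m)) else none

omit [Fintype X] [DecidableEq X] in
theorem lp_step (cls : ℤ → Set ℤ) (i : Fin L.length) (v : X → ℤ) (h : (L.get i).Holds v) :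
    lp' n m L cls i.castSucc v = lp' n m L cls i.succ v := by
  classical
  have e1 : (∀ j : Fin L.length, j.val < i.castSucc.val → (L.get j).Holds v) ↔
      (∀ j : Fin L.length, j.val < i.succ.val → (L.get j).Holds v) := by
    constructor
    · intro h1 j hj
      rcases Nat.lt_succ_iff_lt_or_eq.1 (by simpa using hj : j.val < i.val + 1) with h2 | h2
      · exact h1 j (by simpa using h2)
      · have : j = i := Fin.ext h2
        rw [this]; exact h
    · intro h1 j hj
      exact h1 j (by simp only [Fin.val_castSucc, Fin.val_succ] at hj ⊢; omega)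
  have e2 : (∀ j : Fin L.length, i.castSucc.val ≤ j.val → (L.get j).Holds v) ↔
      (∀ j : Fin L.length, i.succ.val ≤ j.val → (L.get j).Holds v) := by
    constructor
    · intro h1 j hj
      exact h1 j (by simp only [Fin.val_castSucc, Fin.val_succ] at hj ⊢; omega)
    · intro h1 j hj
      by_cases h2 : j = i
      · rw [h2]; exact h
      · refine h1 j ?_
        have h3 : j.val ≠ i.val := fun h => h2 (Fin.ext h)
        simp only [Fin.val_castSucc, Fin.val_succ] at hj ⊢
        omega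
  unfold lp'
  simp only [e1, e2]

omit [Fintype X] [DecidableEq X] in
theorem lp_zero (cls : ℤ → Set ℤ) (v : X → ℤ) : lp' n m L cls 0 v = some (cls (v n)) := by
  unfold lp'
  rw [if_pos]
  intro j hj
  exact absurd hj (by simp)

omit [Fintype X] [DecidableEq X] in
theorem lp_last (cls : ℤ → Set ℤ)
    (hcls : ∀ v : X → ℤ, (∀ q ∈ L, q.Holds v) → cls (v n) = cls (v m)) (v : X → ℤ) :
    lp' n m L cls (Fin.last _) v = some (cls (v m)) := by
  unfold lp'
  split_ifs with h1 h2
  · rw [hcls v]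
    intro q hq
    obtain ⟨j, rfl⟩ := List.mem_iff_get.1 hq
    exact h1 j (by simp)
  · rfl
  · exact absurd (fun j hj => absurd j.2 (by simp at hj; omega)) h2

open Classical in
/-- The labels. -/
noncomputable def lab (cls : ℤ → Set ℤ) : Nd L × (X ⊕ Fin 2 → ℤ) → Option (Set ℤ)
  | (Sum.inl _, u) => some (cls (u (Sum.inl n)))
  | (Sum.inr (Sum.inl i), u) => lp' n m L cls i (u ∘ Sum.inl)
  | (Sum.inr (Sum.inr i), u) =>
    if u (Sum.inr 1) = linp (L.get i) (u ∘ Sum.inl) + (L.get i).d +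
      (L.get i).e * u (Sum.inl (L.get i).j) * u (Sum.inr 0) then
      lp' n m L cls i.castSucc (u ∘ Sum.inl)
    else if u (Sum.inr 1) = (L.get i).e * u (Sum.inl (L.get i).j) *
      (u (Sum.inr 0) - u (Sum.inl (L.get i).i)) then lp' n m L cls i.succ (u ∘ Sum.inl) else none

theorem lab_step (cls : ℤ → Set ℤ)
    (hcls : ∀ v : X → ℤ, (∀ q ∈ L, q.Holds v) → cls (v n) = cls (v m))
    (x y : Nd L × (X ⊕ Fin 2 → ℤ)) (h : Step (rls n m L) x y) :
    lab n m L cls x = lab n m L cls y := by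
  obtain ⟨i, w⟩ := h
  rcases i with _ | x | x | i | i | i
  · revert w; intro (w : Unit → ℤ)
    show lab n m L cls (Sum.inl (), mkv (Pi.single n (w ())) 0 0 + 0) =
      lab n m L cls (Sum.inr (Sum.inl 0), mkv (Pi.single n (w ())) 0 0 + 0)
    rw [add_zero]
    simp only [lab]
    rw [mkv_comp, mkv_inl, lp_zero]
  · revert w; intro (w : X → ℤ)
    show lab n m L cls (Sum.inr (Sum.inl 0), mkv w 0 0 + 0) =
      lab n m L cls (Sum.inr (Sum.inl 0), mkv w 0 0 + mkv (if x = n then 0 else Pi.single x 1) 0 0)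
    rw [add_zero, mkv_add]
    simp only [lab]
    rw [mkv_comp, mkv_comp, lp_zero, lp_zero]
    congr 2
    by_cases hx : x = n
    · simp [hx]
    · simp [hx, Ne.symm hx]
  · revert w; intro (w : X → ℤ)
    show lab n m L cls (Sum.inr (Sum.inl (Fin.last _)), mkv w 0 0 + 0) =
      lab n m L cls (Sum.inr (Sum.inl (Fin.last _)), mkv w 0 0 +
        mkv (if x = m then 0 else Pi.single x 1) 0 0)
    rw [add_zero, mkv_add]
    simp only [lab]
    rw [mkv_comp, mkv_comp, lp_last n m L cls hcls, lp_last n m L cls hcls]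
    congr 2
    by_cases hx : x = m
    · simp [hx]
    · simp [hx, Ne.symm hx]
  · revert w; intro (w : X → ℤ)
    show lab n m L cls (Sum.inr (Sum.inl i.castSucc), mkv w 0 0 + 0) =
      lab n m L cls (Sum.inr (Sum.inr i), mkv w 0 (linp (L.get i) w) + mkv 0 0 (L.get i).d)
    rw [add_zero, mkv_add, add_zero, add_zero]
    simp only [lab]
    rw [mkv_comp, mkv_comp, mkv_0, mkv_1, if_pos]
    ring
  · revert w; intro (w : X ⊕ Fin 2 → ℤ)
    obtain ⟨v, c₁, c₂, rfl⟩ : ∃ v c₁ c₂, w = mkv v c₁ c₂ := ⟨_, _, _, (mkv_eta w).symm⟩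
    show lab n m L cls (Sum.inr (Sum.inr i), mkv v c₁ c₂ + 0) =
      lab n m L cls (Sum.inr (Sum.inr i), mkv v c₁ (c₂ + (L.get i).e * v (L.get i).j) + mkv 0 1 0)
    rw [add_zero, mkv_add, add_zero, add_zero]
    simp only [lab]
    rw [mkv_comp, mkv_comp, mkv_0, mkv_1, mkv_0, mkv_1, mkv_inl, mkv_inl, mkv_inl, mkv_inl]
    have e1 : (c₂ = linp (L.get i) v + (L.get i).d + (L.get i).e * v (L.get i).j * c₁) ↔
        (c₂ + (L.get i).e * v (L.get i).j = linp (L.get i) v + (L.get i).d +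
          (L.get i).e * v (L.get i).j * (c₁ + 1)) := by
      constructor
      · intro h; rw [h]; ring
      · intro h; linarith
    have e2 : (c₂ = (L.get i).e * v (L.get i).j * (c₁ - v (L.get i).i)) ↔
        (c₂ + (L.get i).e * v (L.get i).j = (L.get i).e * v (L.get i).j *
          (c₁ + 1 - v (L.get i).i)) := by
      constructor
      · intro h; rw [h]; ring
      · intro h; linarith
    simp only [e1, e2]
  · revert w; intro (w : X → ℤ)
    show lab n m L cls (Sum.inr (Sum.inr i), mkv w (w (L.get i).i) 0 + 0) =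
      lab n m L cls (Sum.inr (Sum.inl i.succ), mkv w 0 0 + 0)
    rw [add_zero, add_zero]
    simp only [lab]
    rw [mkv_comp, mkv_comp, mkv_0, mkv_1, mkv_inl, mkv_inl]
    split_ifs with h1 h2
    · apply lp_step
      unfold Eqn.Holds
      rw [linp_apply] at h1
      rw [h1]
      ring
    · rfl
    · exact absurd (by ring) h2

/-- GRAPH. -/
theorem graph (R : ℕ → ℕ → Prop) (hR : Equivalence R) (hnm : n ≠ m) (hL : Defines R n m L)
    (k k' : ℤ) :
    Cn n m L (Sum.inl (), Pi.single (Sum.inl n) k) (Sum.inl (), Pi.single (Sum.inl n) k') ↔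
      (k = k' ∨ ∃ a b : ℕ, k = a ∧ k' = b ∧ R a b) := by
  have hs : ∀ k : ℤ, (Pi.single (Sum.inl n) k : X ⊕ Fin 2 → ℤ) = mkv (Pi.single n k) 0 0 := by
    intro k
    ext x
    rcases x with x | j
    · rw [mkv_inl]
      by_cases hx : x = n
      · subst hx; simp
      · rw [Pi.single_eq_of_ne hx, Pi.single_eq_of_ne (by simpa using hx)]
    · rw [Pi.single_eq_of_ne (by simp)]
      show (0 : ℤ) = if j = 0 then 0 else 0
      split <;> rfl
  rw [hs, hs]
  constructor
  · intro h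
    let rel : ℤ → ℤ → Prop := fun k k' => k = k' ∨ ∃ a b : ℕ, k = a ∧ k' = b ∧ R a b
    let cls : ℤ → Set ℤ := fun k => {k' | rel k k'}
    have hsymm : ∀ k k', rel k k' → rel k' k := by
      rintro k k' (h | ⟨a, b, h1, h2, h3⟩)
      · exact Or.inl h.symm
      · exact Or.inr ⟨b, a, h2, h1, hR.symm h3⟩
    have htrans : ∀ k k' k'', rel k k' → rel k' k'' → rel k k'' := by
      rintro k k' k'' (rfl | ⟨a, b, h1, h2, h3⟩) h'
      · exact h'
      · rcases h' with rfl | ⟨a', b', h1', h2', h3'⟩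
        · exact Or.inr ⟨a, b, h1, h2, h3⟩
        · have : b = a' := by
            have h4 : (b : ℤ) = a' := by rw [← h2, ← h1']
            exact_mod_cast h4
          subst this
          exact Or.inr ⟨a, b', h1, h2', hR.trans h3 h3'⟩
    have hcls0 : ∀ k k', rel k k' → cls k = cls k' := by
      intro k k' h
      ext j
      exact ⟨fun hj => htrans _ _ _ (hsymm _ _ h) hj, fun hj => htrans _ _ _ h hj⟩
    have hcls : ∀ v : X → ℤ, (∀ q ∈ L, q.Holds v) → cls (v n) = cls (v m) := by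
      intro v hv
      obtain ⟨a, b, h1, h2, h3⟩ := (hL (v n) (v m)).1 ⟨v, rfl, rfl, hv⟩
      exact hcls0 _ _ (Or.inr ⟨a, b, h1, h2, h3⟩)
    have key : ∀ x y, Cn n m L x y → lab n m L cls x = lab n m L cls y := by
      intro x y h
      induction h with
      | rel x y h => exact lab_step n m L cls hcls x y h
      | refl x => rfl
      | symm x y _ ih => exact ih.symm
      | trans x y z _ _ h1 h2 => exact h1.trans h2
    have h1 := key _ _ h
    simp only [lab] at h1
    rw [mkv_inl, mkv_inl, Pi.single_eq_same, Pi.single_eq_same] at h1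
    have h2 := Option.some.inj h1
    have h3 : k' ∈ cls k' := Or.inl rfl
    rw [← h2] at h3
    exact h3
  · rintro (rfl | ⟨a, b, rfl, rfl, hab⟩)
    · exact Relation.EqvGen.refl _
    · obtain ⟨v, h1, h2, h3⟩ := (hL a b).2 ⟨a, b, rfl, rfl, hab⟩
      obtain ⟨v', h1', h2', h3'⟩ := (hL b b).2 ⟨b, b, rfl, rfl, hR.refl b⟩
      have c1 := cn_B n m L (a : ℤ)
      have c2 := free_move n m L (Sum.inr (Sum.inl 0)) n (cn_free0 n m L) (Pi.single n (a : ℤ)) v
        (by rw [Pi.single_eq_same, h1])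
      have c3 := cn_all n m L v h3 L.length (by omega)
      have c4 := free_move n m L (Sum.inr (Sum.inl (Fin.last _))) m (cn_freeN n m L) v v'
        (by rw [h2, h2'])
      have c5 := cn_all n m L v' h3' L.length (by omega)
      have c6 := free_move n m L (Sum.inr (Sum.inl 0)) n (cn_free0 n m L) v'
        (Pi.single n (b : ℤ)) (by rw [Pi.single_eq_same, h1'])
      have c7 := cn_B n m L (b : ℤ)
      exact c1.trans _ _ _ (c2.trans _ _ _ (c3.trans _ _ _ (c4.trans _ _ _
        ((c5.symm).trans _ _ _ (c6.trans _ _ _ c7.symm)))))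

end

end Pool.Agent.Q236.ISO
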