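import Mathlib
import Pool.Agent.Q236.ISO.AM

/-!
The isomorphism type of the amalgam determines the exponent.
-/

set_option autoImplicit false

namespace Pool.Agent.Q236.ISO

theorem oT_inj {E U : Type} [Group E] [Group U] (β : E →* U) (hβ : Function.Injective β) :
    Function.Injective (oT β) :=
  Monoid.PushoutI.of_injective (famHom_inj β hβ) true

theorem surj_of_iso {E U E' U' : Type} [Group E] [Group U] [Group E'] [Group U'] (β : E →* U)
    (β' : E' →* U') (hβ : Function.Injective β) (hβ' : Function.Injective β')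
    (hU' : TF U') (Θ : Amal β ≃* Amal β') :
    ∃ f : E →* E', Function.Surjective f := by
  obtain ⟨y, hy⟩ := invol β' hβ' hU' (Θ (cc β)) (by rw [← map_pow, cc_sq, map_one]) (by
    intro h
    exact cc_ne β hβ (Θ.injective (by rw [h, map_one])))
  let Ψ : Amal β ≃* Amal β' := Θ.trans (MulAut.conj y⁻¹)
  have hΨ : ∀ x, Ψ x = y⁻¹ * Θ x * y⁻¹⁻¹ := fun x => rfl
  have hc : Ψ (cc β) = cc β' := by
    rw [hΨ, hy]; group
  have hex : ∀ e : E, ∃ k : E' × ℤˣ, oT β' k = Ψ (oT β (e, 1)) := by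
    intro e
    obtain ⟨k, hk⟩ := cent β' hβ' (Ψ (oT β (e, 1))) (by
      rw [← hc]
      exact (cc_comm β (e, 1)).map Ψ)
    exact ⟨k, hk.symm⟩
  choose k hk using hex
  have hmul : ∀ e e', k (e * e') = k e * k e' := by
    intro e e'
    apply oT_inj β' hβ'
    rw [hk, map_mul, hk, hk, ← map_mul, ← map_mul]
    congr 2
  let f : E →* E' := MonoidHom.mk' (fun e => (k e).1) (fun e e' => by rw [hmul]; rfl)
  refine ⟨f, ?_⟩
  intro e'
  obtain ⟨⟨e, i⟩, hi⟩ := cent β hβ (Ψ.symm (oT β' (e', 1))) (by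
    have h1 : cc β = Ψ.symm (cc β') := by rw [← hc, MulEquiv.symm_apply_apply]
    rw [h1]
    exact (cc_comm β' (e', 1)).map Ψ.symm)
  refine ⟨e, ?_⟩
  have h2 : Ψ (oT β (e, i)) = oT β' (e', 1) := by
    rw [← hi, MulEquiv.apply_symm_apply]
  have h3 : oT β (e, i) = oT β (e, 1) * oT β (1, i) := by
    rw [← map_mul]
    congr 1
    ext <;> simp
  have h4 : Ψ (oT β (1, i)) = oT β' (1, i) := by
    rcases Int.units_eq_one_or i with rfl | rfl
    · have h5 : ((1, 1) : E × ℤˣ) = 1 := rfl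
      have h6 : ((1, 1) : E' × ℤˣ) = 1 := rfl
      rw [h5, h6, map_one, map_one, map_one]
    · exact hc
  rw [h3, map_mul, h4, ← hk, ← map_mul] at h2
  have h5 := oT_inj β' hβ' h2
  have h6 := (Prod.ext_iff.1 h5).1
  show (k e).1 = e'
  simpa using h6

theorem bg_lift {g : ℤ} {H : Type} [Group H] (z t : H) (h : Commute t (z ^ g)) :
    ∃ χ : Bg g →* H, χ (HNNExtension.of (Multiplicative.ofAdd 1)) = z ∧ χ HNNExtension.t = t := by
  obtain ⟨χ, h1, h2⟩ := ce_lift (Subgroup.zpowers (Multiplicative.ofAdd g)) (zpowersHom H z) t (by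
    intro a ha
    obtain ⟨k, rfl⟩ := Subgroup.mem_zpowers_iff.1 ha
    rw [map_zpow]
    exact h.zpow_right k)
  refine ⟨χ, ?_, h2⟩
  rw [h1]
  show z ^ (1 : ℤ) = z
  rw [zpow_one]

theorem bg_ext {g : ℤ} {H : Type} [Group H] (χ χ' : Bg g →* H)
    (h1 : χ (HNNExtension.of (Multiplicative.ofAdd 1)) =
      χ' (HNNExtension.of (Multiplicative.ofAdd 1)))
    (h2 : χ HNNExtension.t = χ' HNNExtension.t) : χ = χ' := by
  apply HNNExtension.hom_ext
  · apply MonoidHom.ext_mint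
    exact h1
  · exact h2

theorem bg_rel (g : ℤ) : Commute (HNNExtension.t : Bg g)
    ((HNNExtension.of (Multiplicative.ofAdd 1)) ^ g) := by
  have := ce_comm (Subgroup.zpowers (Multiplicative.ofAdd g)) (Multiplicative.ofAdd g)
    (Subgroup.mem_zpowers _)
  rw [← map_zpow, ← ofAdd_zsmul, smul_eq_mul, mul_one]
  exact this

theorem ce_gen {G : Type} [Group G] (S : Subgroup G) (x : G)
    (h0 : Subgroup.closure ({x} : Set G) = ⊤) :
    Subgroup.closure ({HNNExtension.of x, HNNExtension.t} : Set (CE G S)) = ⊤ := by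
  have h := top_trans (HNNExtension.of : G →* CE G S) {x} {HNNExtension.t} h0
    (ce_top (MulEquiv.refl S))
  rw [Set.image_singleton] at h
  exact h

theorem bg_top (g : ℤ) : Subgroup.closure
    ({HNNExtension.of (Multiplicative.ofAdd 1), HNNExtension.t} : Set (Bg g)) = ⊤ := by
  have h0 : Subgroup.closure ({Multiplicative.ofAdd 1} : Set (Multiplicative ℤ)) = ⊤ := by
    rw [eq_top_iff]
    rintro a -
    obtain ⟨a, rfl⟩ := Multiplicative.ofAdd.surjective a
    have : Multiplicative.ofAdd a = Multiplicative.ofAdd (1 : ℤ) ^ a := by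
      rw [← ofAdd_zsmul]; simp
    rw [this]
    exact Subgroup.zpow_mem _ (Subgroup.subset_closure (Set.mem_singleton _)) a
  exact ce_gen _ _ h0

/-- There is no surjection to the group with the larger exponent. -/
theorem bg_no (a b : ℕ) (hab : a < b) (f : Bg (2 ^ (a + 1)) →* Bg (2 ^ (b + 1)))
    (hf : Function.Surjective f) : False := by
  let N := 2 ^ (b + 1)
  have hN : N ≠ 0 := pow_ne_zero _ (by norm_num)
  have : NeZero N := ⟨hN⟩
  let H := Equiv.Perm (ZMod N)
  -- the projection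
  obtain ⟨q, hq1, hq2⟩ := bg_lift (g := 2 ^ (b + 1))
    (HNNExtension.of (Multiplicative.ofAdd 1) : Bg (2 ^ (a + 1))) HNNExtension.t (by
      have h1 : ((2 : ℤ) ^ (b + 1)) = 2 ^ (a + 1) * 2 ^ (b - a) := by
        rw [← pow_add]; congr 1; omega
      rw [h1, zpow_mul]
      exact (bg_rel _).zpow_right _)
  have hqs : Function.Surjective q := by
    rw [← MonoidHom.range_eq_top, eq_top_iff, ← bg_top, Subgroup.closure_le]
    rintro x (rfl | rfl)
    · exact ⟨_, hq1⟩
    · exact ⟨_, hq2⟩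
  have : Finite (Bg (2 ^ (b + 1)) →* H) := by
    apply Finite.of_injective (fun χ : Bg (2 ^ (b + 1)) →* H =>
      (χ (HNNExtension.of (Multiplicative.ofAdd 1)), χ HNNExtension.t))
    intro χ χ' h
    simp only [Prod.mk.injEq] at h
    exact bg_ext χ χ' h.1 h.2
  let F : (Bg (2 ^ (b + 1)) →* H) → (Bg (2 ^ (b + 1)) →* H) := fun χ => (χ.comp f).comp q
  have hFi : Function.Injective F := by
    intro χ χ' h
    have h1 : χ.comp f = χ'.comp f := (MonoidHom.cancel_right hqs).1 h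
    exact (MonoidHom.cancel_right hf).1 h1
  have hFs : Function.Surjective F := Finite.injective_iff_surjective.1 hFi
  -- the homomorphism which does not factor
  let z0 : H := Equiv.addRight 1
  have hz0 : ∀ (n : ℕ) (x : ZMod N), (z0 ^ n) x = x + n := by
    intro n
    induction n with
    | zero => intro x; rw [pow_zero, Nat.cast_zero, add_zero]; rfl
    | succ n ih =>
      intro x
      rw [pow_succ', Equiv.Perm.mul_apply, ih]
      show x + n + 1 = _
      push_cast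
      ring
  let t0 : H := Equiv.swap 0 1
  obtain ⟨χ, hχ1, hχ2⟩ := bg_lift (g := 2 ^ (b + 1)) z0 t0 (by
    have h1 : z0 ^ ((2 : ℤ) ^ (b + 1)) = 1 := by
      have : z0 ^ ((2 : ℤ) ^ (b + 1)) = z0 ^ (2 ^ (b + 1) : ℕ) := by
        exact_mod_cast zpow_natCast z0 (2 ^ (b + 1))
      rw [this]
      ext1 x
      rw [hz0]
      have h2 : ((2 ^ (b + 1) : ℕ) : ZMod N) = 0 := ZMod.natCast_self N
      rw [h2, add_zero]
      rfl
    rw [h1]
    exact Commute.one_right _)
  obtain ⟨χ', hχ'⟩ := hFs χ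
  have h1 : (χ'.comp f) (HNNExtension.of (Multiplicative.ofAdd 1)) = z0 := by
    rw [← hq1]
    show F χ' _ = z0
    rw [hχ', hχ1]
  have h2 : (χ'.comp f) HNNExtension.t = t0 := by
    rw [← hq2]
    show F χ' _ = t0
    rw [hχ', hχ2]
  have h3 := (bg_rel (2 ^ (a + 1))).map (χ'.comp f)
  rw [map_zpow, h1, h2] at h3
  have h4 : z0 ^ ((2 : ℤ) ^ (a + 1)) = z0 ^ (2 ^ (a + 1) : ℕ) := by
    exact_mod_cast zpow_natCast z0 (2 ^ (a + 1))
  rw [h4] at h3
  have h5 : (t0 * z0 ^ 2 ^ (a + 1)) 0 = (z0 ^ 2 ^ (a + 1) * t0) 0 := by rw [h3.eq]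
  rw [Equiv.Perm.mul_apply, Equiv.Perm.mul_apply] at h5
  rw [hz0, hz0, zero_add] at h5
  have h6 : t0 0 = 1 := Equiv.swap_apply_left 0 1
  rw [h6] at h5
  -- `swap 0 1` fixes `2 ^ (a + 1)`
  have hlt : 2 ^ (a + 1) < N := Nat.pow_lt_pow_right (by norm_num) (by omega)
  have h2le : 2 ≤ 2 ^ (a + 1) := by
    calc 2 = 2 ^ 1 := by norm_num
      _ ≤ 2 ^ (a + 1) := Nat.pow_le_pow_right (by norm_num) (by omega)
  have hv : (((2 ^ (a + 1) : ℕ) : ZMod N)).val = 2 ^ (a + 1) := ZMod.val_natCast_of_lt hlt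
  have hv1 : (1 : ZMod N).val = 1 := by
    have : ((1 : ℕ) : ZMod N).val = 1 := ZMod.val_natCast_of_lt (by omega)
    simpa using this
  have h7 : ((2 ^ (a + 1) : ℕ) : ZMod N) ≠ 0 := by
    intro h
    rw [h, ZMod.val_zero] at hv
    omega
  have h8 : ((2 ^ (a + 1) : ℕ) : ZMod N) ≠ 1 := by
    intro h
    rw [h, hv1] at hv
    omega
  have h9 : t0 ((2 ^ (a + 1) : ℕ) : ZMod N) = ((2 ^ (a + 1) : ℕ) : ZMod N) :=
    Equiv.swap_apply_of_ne_of_ne h7 h8
  rw [h9] at h5
  have h10 : (1 : ZMod N) = 0 := by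
    have : (0 : ZMod N) + ((2 ^ (a + 1) : ℕ) : ZMod N) = 1 + ((2 ^ (a + 1) : ℕ) : ZMod N) := by
      rw [zero_add]; exact h5
    exact (add_right_cancel this).symm
  rw [h10, ZMod.val_zero] at hv1
  exact absurd hv1 (by norm_num)

/-- INV. -/
theorem inv (U : Type) [Group U] (a b : ℕ) (β : Bg (2 ^ (a + 1)) →* U)
    (β' : Bg (2 ^ (b + 1)) →* U) (hU : TF U) (hβ : Function.Injective β)
    (hβ' : Function.Injective β') (h : Nonempty (Amal β ≃* Amal β')) : a = b := by
  obtain ⟨Θ⟩ := h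
  rcases lt_trichotomy a b with hab | hab | hab
  · obtain ⟨f, hf⟩ := surj_of_iso β β' hβ hβ' hU Θ
    exact (bg_no a b hab f hf).elim
  · exact hab
  · obtain ⟨f, hf⟩ := surj_of_iso β' β hβ' hβ hU Θ.symm
    exact (bg_no b a hab f hf).elim

end Pool.Agent.Q236.ISO
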