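import Mathlib
import Pool.Agent.Q236.ISO.KK
import Pool.Agent.Q236.ISO.TW

/-!
The relations of the group are given by finitely many words.
-/

set_option autoImplicit false

namespace Pool.Agent.Q236.ISO

attribute [instance] Rule.fin Rule.dec

/-- Finite definability of a property of tuples of elements of groups. -/
def FD (A : Type) (Q : ∀ (H : Type) [Group H], (A → H) → Prop) : Prop :=
  ∃ L : List (FreeGroup A), ∀ (H : Type) [Group H] (h : A → H),
    (∀ w ∈ L, FreeGroup.lift h w = 1) ↔ Q H h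

theorem fd_eq {A : Type} (a b : FreeGroup A) :
    FD A (fun _ _ h => FreeGroup.lift h a = FreeGroup.lift h b) := by
  refine ⟨[a * b⁻¹], ?_⟩
  intro H _ h
  simp only [List.mem_singleton, forall_eq, map_mul, map_inv]
  exact mul_inv_eq_one

theorem fd_comm {A : Type} (a b : FreeGroup A) :
    FD A (fun _ _ h => Commute (FreeGroup.lift h a) (FreeGroup.lift h b)) := by
  obtain ⟨L, hL⟩ := fd_eq (a * b) (b * a)
  refine ⟨L, ?_⟩
  intro H _ h
  refine (hL H h).trans ?_
  show FreeGroup.lift h (a * b) = FreeGroup.lift h (b * a) ↔ _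
  rw [map_mul, map_mul]
  rfl

theorem fd_and {A : Type} {Q Q' : ∀ (H : Type) [Group H], (A → H) → Prop} (h1 : FD A Q)
    (h2 : FD A Q') : FD A (fun H _ h => Q H h ∧ Q' H h) := by
  obtain ⟨L, hL⟩ := h1
  obtain ⟨L', hL'⟩ := h2
  refine ⟨L ++ L', ?_⟩
  intro H _ h
  show _ ↔ (Q H h ∧ Q' H h)
  rw [← hL, ← hL']
  simp only [List.mem_append]
  constructor
  · intro h3
    exact ⟨fun w hw => h3 w (Or.inl hw), fun w hw => h3 w (Or.inr hw)⟩
  · rintro ⟨h3, h4⟩ w (hw | hw)
    · exact h3 w hw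
    · exact h4 w hw

theorem fd_all {A κ : Type} [Finite κ] {Q : κ → ∀ (H : Type) [Group H], (A → H) → Prop}
    (h1 : ∀ k, FD A (Q k)) : FD A (fun H _ h => ∀ k, Q k H h) := by
  have := Fintype.ofFinite κ
  choose L hL using h1
  refine ⟨(Finset.univ.toList : List κ).flatMap L, ?_⟩
  intro H _ h
  simp only [List.mem_flatMap, Finset.mem_toList, Finset.mem_univ, true_and]
  constructor
  · intro h3 k
    rw [← hL]
    intro w hw
    exact h3 w ⟨k, hw⟩
  · rintro h3 w ⟨k, hw⟩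
    exact (hL k H h).2 (h3 k) w hw

theorem fd_congr {A : Type} {Q Q' : ∀ (H : Type) [Group H], (A → H) → Prop} (h1 : FD A Q)
    (h : ∀ (H : Type) [Group H] (h : A → H), Q H h ↔ Q' H h) : FD A Q' := by
  obtain ⟨L, hL⟩ := h1
  exact ⟨L, fun H _ h' => (hL H h').trans (h H h')⟩

/-- Decomposition of a vector. -/
theorem vec_prod {κ : Type} [Fintype κ] [DecidableEq κ] (v : κ → ℤ) :
    (Multiplicative.ofAdd v : Multiplicative (κ → ℤ)) =
      ∏ k, (Multiplicative.ofAdd (Pi.single k 1 : κ → ℤ)) ^ (v k) := by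
  have h2 : v = ∑ k, v k • (Pi.single k 1 : κ → ℤ) := by
    ext y
    rw [Finset.sum_apply]
    simp [Pi.single_apply]
  conv_lhs => rw [h2]
  rw [ofAdd_sum]
  rfl

theorem hom_ext_pi {κ H : Type} [Fintype κ] [DecidableEq κ] [Group H]
    (f g : Multiplicative (κ → ℤ) →* H)
    (h : ∀ k, f (Multiplicative.ofAdd (Pi.single k 1)) = g (Multiplicative.ofAdd (Pi.single k 1))) :
    f = g := by
  ext v
  show v ∈ f.eqLocus g
  obtain ⟨v, rfl⟩ := Multiplicative.ofAdd.surjective v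
  rw [vec_prod]
  exact Subgroup.prod_mem _ (fun k _ => Subgroup.zpow_mem _ (h k) _)

/-- The homomorphism given by commuting elements. -/
theorem exists_hom {J H : Type} [Fintype J] [DecidableEq J] [Group H] (y : J → H)
    (hy : ∀ i j, Commute (y i) (y j)) : ∃ X : Multiplicative (J → ℤ) →* H,
      ∀ j, X (Multiplicative.ofAdd (Pi.single j 1)) = y j := by
  have hc : Pairwise fun i j => ∀ (a b : Multiplicative ℤ),
      Commute (zpowersHom H (y i) a) (zpowersHom H (y j) b) :=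
    fun i j _ a b => (hy i j).zpow_zpow _ _
  let X0 : (J → Multiplicative ℤ) →* H := MonoidHom.noncommPiCoprod
    (fun j => zpowersHom H (y j)) hc
  let I : Multiplicative (J → ℤ) →* (J → Multiplicative ℤ) :=
    { toFun := fun v j => Multiplicative.ofAdd (v.toAdd j)
      map_one' := rfl
      map_mul' := fun _ _ => rfl }
  refine ⟨X0.comp I, ?_⟩
  intro j
  have h1 : I (Multiplicative.ofAdd (Pi.single j 1)) = Pi.mulSingle j (Multiplicative.ofAdd 1) := by
    ext i
    show (Pi.single j 1 : J → ℤ) i = ((Pi.mulSingle j (Multiplicative.ofAdd 1) :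
      J → Multiplicative ℤ) i).toAdd
    by_cases hi : i = j
    · subst hi; simp
    · rw [Pi.single_eq_of_ne hi, Pi.mulSingle_eq_of_ne hi]
      rfl
  rw [MonoidHom.comp_apply, h1]
  show MonoidHom.noncommPiCoprod _ _ _ = _
  rw [MonoidHom.noncommPiCoprod_mulSingle]
  show y j ^ (1 : ℤ) = y j
  rw [zpow_one]

/-- The generators of the final group. -/
abbrev Gen (P ι J : Type) : Type := J ⊕ P ⊕ ι ⊕ Fin 5

/-- The word of `X(v)`. -/
noncomputable def xw {P ι J : Type} [Fintype J] (v : J → ℤ) : FreeGroup (Gen P ι J) :=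
  ((Finset.univ.toList : List J).map (fun j => (FreeGroup.of (Sum.inl j)) ^ (v j))).prod

theorem lift_xw {P ι J H : Type} [Fintype J] [DecidableEq J] [Group H] (h : Gen P ι J → H)
    (X : Multiplicative (J → ℤ) →* H)
    (hX : ∀ j, X (Multiplicative.ofAdd (Pi.single j 1)) = h (Sum.inl j)) (v : J → ℤ) :
    FreeGroup.lift h (xw v) = X (Multiplicative.ofAdd v) := by
  rw [vec_prod, ← Finset.prod_map_toList, map_list_prod, xw, map_list_prod, List.map_map, List.map_map]
  congr 1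
  apply List.map_congr_left
  intro j _
  simp [hX]

/-- The relations of the final group (without the last one) in terms of the generators. -/
structure GenRel {P ι J : Type} [DecidableEq J] (D : ι → Rule P J) (B : P) (e : J) (H : Type)
    [Group H] (X : Multiplicative (J → ℤ) →* H) (t : P → H) (r : ι → H) (z u v τ c : H) :
    Prop where
  rel : Rel D H X t r
  zx : ∀ w, Commute z (X w)
  zr : ∀ i, Commute z (r i)
  ux : ∀ w, Commute u (X w)
  ut : ∀ p, Commute u (t p)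
  ur : ∀ i, Commute u (r i)
  uz : u⁻¹ * z * u = z ^ 2
  vx : Commute v (X (Multiplicative.ofAdd (Pi.single e 1)) * u)
  vt : Commute v ((t B)⁻¹ * z ^ 2 * t B)
  τx : ∀ w, Commute τ (v * X w * v⁻¹)
  τt : ∀ p, Commute τ (v * t p * v⁻¹)
  τr' : ∀ i, Commute τ (v * r i * v⁻¹)
  τz : Commute τ (v * z * v⁻¹)
  τr : ∀ i, Commute τ (r i)
  c2 : c ^ 2 = 1
  cz : Commute c z

theorem comm_X {J H : Type} [Fintype J] [DecidableEq J] [Group H]
    (X : Multiplicative (J → ℤ) →* H) (y : H)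
    (h : ∀ j, Commute y (X (Multiplicative.ofAdd (Pi.single j 1)))) : ∀ w, Commute y (X w) := by
  intro w
  obtain ⟨v, rfl⟩ := Multiplicative.ofAdd.surjective w
  rw [vec_prod]
  have : X (∏ k, (Multiplicative.ofAdd (Pi.single k 1 : J → ℤ)) ^ (v k)) ∈
      Subgroup.centralizer {y} := by
    have h1 : (∏ k, (Multiplicative.ofAdd (Pi.single k 1 : J → ℤ)) ^ (v k)) ∈
        (Subgroup.centralizer {y}).comap X := by
      refine Subgroup.prod_mem _ (fun k _ => Subgroup.zpow_mem _ ?_ _)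
      rw [Subgroup.mem_comap, Subgroup.mem_centralizer_iff]
      rintro _ rfl
      exact (h k).eq
    exact h1
  rw [Subgroup.mem_centralizer_iff] at this
  exact this y rfl

/-- The equations. -/
structure Eqs {P ι J : Type} [Fintype J] [DecidableEq J] (D : ι → Rule P J) (B : P) (e : J)
    (H : Type) [Group H] (h : Gen P ι J → H) : Prop where
  xx : ∀ j j', Commute (FreeGroup.lift h (.of (Sum.inl j))) (FreeGroup.lift h (.of (Sum.inl j')))
  shift : ∀ (i : ι) (k : (D i).dim),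
    FreeGroup.lift h (.of (Sum.inr (Sum.inr (Sum.inl i))) * xw ((D i).μ (Pi.single k 1))) =
      FreeGroup.lift h (xw ((D i).ν (Pi.single k 1)) * .of (Sum.inr (Sum.inr (Sum.inl i))))
  rule : ∀ i : ι, FreeGroup.lift h (.of (Sum.inr (Sum.inr (Sum.inl i))) *
      ((xw (D i).a)⁻¹ * .of (Sum.inr (Sum.inl (D i).src)) * xw (D i).a)) =
    FreeGroup.lift h (((xw (D i).b)⁻¹ * .of (Sum.inr (Sum.inl (D i).tgt)) * xw (D i).b) *
      .of (Sum.inr (Sum.inr (Sum.inl i))))
  zx : ∀ j, Commute (FreeGroup.lift h (.of (Sum.inr (Sum.inr (Sum.inr 0)))))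
    (FreeGroup.lift h (.of (Sum.inl j)))
  zr : ∀ i, Commute (FreeGroup.lift h (.of (Sum.inr (Sum.inr (Sum.inr 0)))))
    (FreeGroup.lift h (.of (Sum.inr (Sum.inr (Sum.inl i)))))
  ux : ∀ j, Commute (FreeGroup.lift h (.of (Sum.inr (Sum.inr (Sum.inr 1)))))
    (FreeGroup.lift h (.of (Sum.inl j)))
  ut : ∀ p, Commute (FreeGroup.lift h (.of (Sum.inr (Sum.inr (Sum.inr 1)))))
    (FreeGroup.lift h (.of (Sum.inr (Sum.inl p))))
  ur : ∀ i, Commute (FreeGroup.lift h (.of (Sum.inr (Sum.inr (Sum.inr 1)))))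
    (FreeGroup.lift h (.of (Sum.inr (Sum.inr (Sum.inl i)))))
  uz : FreeGroup.lift h ((.of (Sum.inr (Sum.inr (Sum.inr 1))))⁻¹ *
      .of (Sum.inr (Sum.inr (Sum.inr 0))) * .of (Sum.inr (Sum.inr (Sum.inr 1)))) =
    FreeGroup.lift h ((.of (Sum.inr (Sum.inr (Sum.inr 0)))) ^ 2)
  vx : Commute (FreeGroup.lift h (.of (Sum.inr (Sum.inr (Sum.inr 2)))))
    (FreeGroup.lift h (.of (Sum.inl e) * .of (Sum.inr (Sum.inr (Sum.inr 1)))))
  vt : Commute (FreeGroup.lift h (.of (Sum.inr (Sum.inr (Sum.inr 2)))))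
    (FreeGroup.lift h ((.of (Sum.inr (Sum.inl B)))⁻¹ * (.of (Sum.inr (Sum.inr (Sum.inr 0)))) ^ 2 *
      .of (Sum.inr (Sum.inl B))))
  τx : ∀ j, Commute (FreeGroup.lift h (.of (Sum.inr (Sum.inr (Sum.inr 3)))))
    (FreeGroup.lift h (.of (Sum.inr (Sum.inr (Sum.inr 2))) * .of (Sum.inl j) *
      (.of (Sum.inr (Sum.inr (Sum.inr 2))))⁻¹))
  τt : ∀ p, Commute (FreeGroup.lift h (.of (Sum.inr (Sum.inr (Sum.inr 3)))))
    (FreeGroup.lift h (.of (Sum.inr (Sum.inr (Sum.inr 2))) * .of (Sum.inr (Sum.inl p)) *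
      (.of (Sum.inr (Sum.inr (Sum.inr 2))))⁻¹))
  τr' : ∀ i, Commute (FreeGroup.lift h (.of (Sum.inr (Sum.inr (Sum.inr 3)))))
    (FreeGroup.lift h (.of (Sum.inr (Sum.inr (Sum.inr 2))) * .of (Sum.inr (Sum.inr (Sum.inl i))) *
      (.of (Sum.inr (Sum.inr (Sum.inr 2))))⁻¹))
  τz : Commute (FreeGroup.lift h (.of (Sum.inr (Sum.inr (Sum.inr 3)))))
    (FreeGroup.lift h (.of (Sum.inr (Sum.inr (Sum.inr 2))) * .of (Sum.inr (Sum.inr (Sum.inr 0))) *
      (.of (Sum.inr (Sum.inr (Sum.inr 2))))⁻¹))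
  τr : ∀ i, Commute (FreeGroup.lift h (.of (Sum.inr (Sum.inr (Sum.inr 3)))))
    (FreeGroup.lift h (.of (Sum.inr (Sum.inr (Sum.inl i)))))
  c2 : FreeGroup.lift h ((.of (Sum.inr (Sum.inr (Sum.inr 4)))) ^ 2) = FreeGroup.lift h 1
  cz : Commute (FreeGroup.lift h (.of (Sum.inr (Sum.inr (Sum.inr 4)))))
    (FreeGroup.lift h (.of (Sum.inr (Sum.inr (Sum.inr 0)))))

theorem fd_eqs {P ι J : Type} [Fintype P] [Fintype ι] [Fintype J] [DecidableEq J]
    (D : ι → Rule P J) (B : P) (e : J) : FD (Gen P ι J) (fun H _ h => Eqs D B e H h) := by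
  have b1 := (fd_all fun j : J => fd_all fun j' : J =>
      fd_comm (.of (Sum.inl j) : FreeGroup (Gen P ι J)) (.of (Sum.inl j')))
  have b2 := (fd_all fun i : ι => fd_all fun k : (D i).dim =>
      fd_eq (.of (Sum.inr (Sum.inr (Sum.inl i))) * xw ((D i).μ (Pi.single k 1)) :
        FreeGroup (Gen P ι J))
        (xw ((D i).ν (Pi.single k 1)) * .of (Sum.inr (Sum.inr (Sum.inl i)))))
  have b3 := (fd_all fun i : ι => fd_eq (.of (Sum.inr (Sum.inr (Sum.inl i))) *
      ((xw (D i).a)⁻¹ * .of (Sum.inr (Sum.inl (D i).src)) * xw (D i).a) : FreeGroup (Gen P ι J))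
      (((xw (D i).b)⁻¹ * .of (Sum.inr (Sum.inl (D i).tgt)) * xw (D i).b) *
      .of (Sum.inr (Sum.inr (Sum.inl i)))))
  have b4 := (fd_all fun j : J => fd_comm (.of (Sum.inr (Sum.inr (Sum.inr 0))) :
      FreeGroup (Gen P ι J)) (.of (Sum.inl j)))
  have b5 := (fd_all fun i : ι => fd_comm (.of (Sum.inr (Sum.inr (Sum.inr 0))) :
      FreeGroup (Gen P ι J)) (.of (Sum.inr (Sum.inr (Sum.inl i)))))
  have b6 := (fd_all fun j : J => fd_comm (.of (Sum.inr (Sum.inr (Sum.inr 1))) :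
      FreeGroup (Gen P ι J)) (.of (Sum.inl j)))
  have b7 := (fd_all fun p : P => fd_comm (.of (Sum.inr (Sum.inr (Sum.inr 1))) :
      FreeGroup (Gen P ι J)) (.of (Sum.inr (Sum.inl p))))
  have b8 := (fd_all fun i : ι => fd_comm (.of (Sum.inr (Sum.inr (Sum.inr 1))) :
      FreeGroup (Gen P ι J)) (.of (Sum.inr (Sum.inr (Sum.inl i)))))
  have b9 := (fd_eq ((.of (Sum.inr (Sum.inr (Sum.inr 1))))⁻¹ *
      .of (Sum.inr (Sum.inr (Sum.inr 0))) * .of (Sum.inr (Sum.inr (Sum.inr 1))) :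
        FreeGroup (Gen P ι J)) ((.of (Sum.inr (Sum.inr (Sum.inr 0)))) ^ 2))
  have b10 := (fd_comm (.of (Sum.inr (Sum.inr (Sum.inr 2))) : FreeGroup (Gen P ι J))
      (.of (Sum.inl e) * .of (Sum.inr (Sum.inr (Sum.inr 1)))))
  have b11 := (fd_comm (.of (Sum.inr (Sum.inr (Sum.inr 2))) : FreeGroup (Gen P ι J))
      ((.of (Sum.inr (Sum.inl B)))⁻¹ * (.of (Sum.inr (Sum.inr (Sum.inr 0)))) ^ 2 *
      .of (Sum.inr (Sum.inl B))))
  have b12 := (fd_all fun j : J => fd_comm (.of (Sum.inr (Sum.inr (Sum.inr 3))) :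
      FreeGroup (Gen P ι J)) (.of (Sum.inr (Sum.inr (Sum.inr 2))) * .of (Sum.inl j) *
      (.of (Sum.inr (Sum.inr (Sum.inr 2))))⁻¹))
  have b13 := (fd_all fun p : P => fd_comm (.of (Sum.inr (Sum.inr (Sum.inr 3))) :
      FreeGroup (Gen P ι J)) (.of (Sum.inr (Sum.inr (Sum.inr 2))) * .of (Sum.inr (Sum.inl p)) *
      (.of (Sum.inr (Sum.inr (Sum.inr 2))))⁻¹))
  have b14 := (fd_all fun i : ι => fd_comm (.of (Sum.inr (Sum.inr (Sum.inr 3))) :
      FreeGroup (Gen P ι J)) (.of (Sum.inr (Sum.inr (Sum.inr 2))) *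
        .of (Sum.inr (Sum.inr (Sum.inl i))) * (.of (Sum.inr (Sum.inr (Sum.inr 2))))⁻¹))
  have b15 := (fd_comm (.of (Sum.inr (Sum.inr (Sum.inr 3))) : FreeGroup (Gen P ι J))
      (.of (Sum.inr (Sum.inr (Sum.inr 2))) * .of (Sum.inr (Sum.inr (Sum.inr 0))) *
      (.of (Sum.inr (Sum.inr (Sum.inr 2))))⁻¹))
  have b16 := (fd_all fun i : ι => fd_comm (.of (Sum.inr (Sum.inr (Sum.inr 3))) :
      FreeGroup (Gen P ι J)) (.of (Sum.inr (Sum.inr (Sum.inl i)))))
  have b17 := (fd_eq ((.of (Sum.inr (Sum.inr (Sum.inr 4)))) ^ 2 : FreeGroup (Gen P ι J)) 1)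
  have b18 := (fd_comm (.of (Sum.inr (Sum.inr (Sum.inr 4))) : FreeGroup (Gen P ι J))
        (.of (Sum.inr (Sum.inr (Sum.inr 0)))))
  have h := fd_and b1 (fd_and b2 (fd_and b3 (fd_and b4 (fd_and b5 (fd_and b6 (fd_and b7 (fd_and b8 (fd_and b9 (fd_and b10 (fd_and b11 (fd_and b12 (fd_and b13 (fd_and b14 (fd_and b15 (fd_and b16 (fd_and b17 b18))))))))))))))))
  refine fd_congr h ?_
  intro H _ h
  constructor
  · rintro ⟨a1, a2, a3, a4, a5, a6, a7, a8, a9, a10, a11, a12, a13, a14, a15, a16, a17, a18⟩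
    exact ⟨a1, a2, a3, a4, a5, a6, a7, a8, a9, a10, a11, a12, a13, a14, a15, a16, a17, a18⟩
  · rintro ⟨a1, a2, a3, a4, a5, a6, a7, a8, a9, a10, a11, a12, a13, a14, a15, a16, a17, a18⟩
    exact ⟨a1, a2, a3, a4, a5, a6, a7, a8, a9, a10, a11, a12, a13, a14, a15, a16, a17, a18⟩

theorem eqs_iff {P ι J : Type} [Fintype J] [DecidableEq J] (D : ι → Rule P J) (B : P) (e : J)
    (H : Type) [Group H] (h : Gen P ι J → H) : Eqs D B e H h ↔
      ∃ X : Multiplicative (J → ℤ) →* H,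
        (∀ j, X (Multiplicative.ofAdd (Pi.single j 1)) = h (Sum.inl j)) ∧
        GenRel D B e H X (fun p => h (Sum.inr (Sum.inl p)))
          (fun i => h (Sum.inr (Sum.inr (Sum.inl i)))) (h (Sum.inr (Sum.inr (Sum.inr 0))))
          (h (Sum.inr (Sum.inr (Sum.inr 1)))) (h (Sum.inr (Sum.inr (Sum.inr 2))))
          (h (Sum.inr (Sum.inr (Sum.inr 3)))) (h (Sum.inr (Sum.inr (Sum.inr 4)))) := by
  constructor
  · rintro ⟨a1, a2, a3, a4, a5, a6, a7, a8, a9, a10, a11, a12, a13, a14, a15, a16, a17, a18⟩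
    simp only [map_mul, map_inv, map_pow, map_one, FreeGroup.lift_apply_of] at a1 a2 a3 a4 a5 a6 a7
    simp only [map_mul, map_inv, map_pow, map_one, FreeGroup.lift_apply_of] at a8 a9 a10 a11 a12 a13
    simp only [map_mul, map_inv, map_pow, map_one, FreeGroup.lift_apply_of] at a14 a15 a16 a17 a18
    obtain ⟨X, hX⟩ := exists_hom (fun j => h (Sum.inl j)) a1
    simp only [lift_xw h X hX] at a2 a3
    refine ⟨X, hX, ?_⟩
    constructor
    · constructor
      · intro i w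
        have key : (MulAut.conj (h (Sum.inr (Sum.inr (Sum.inl i))))).toMonoidHom.comp
            (X.comp (AddMonoidHom.toMultiplicative (D i).μ)) =
            X.comp (AddMonoidHom.toMultiplicative (D i).ν) := by
          apply hom_ext_pi
          intro k
          show h (Sum.inr (Sum.inr (Sum.inl i))) *
            X (Multiplicative.ofAdd ((D i).μ (Pi.single k 1))) *
              (h (Sum.inr (Sum.inr (Sum.inl i))))⁻¹ =
            X (Multiplicative.ofAdd ((D i).ν (Pi.single k 1)))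
          rw [a2]
          group
        have h1 := DFunLike.congr_fun key (Multiplicative.ofAdd w)
        have h2 : h (Sum.inr (Sum.inr (Sum.inl i))) *
            X (Multiplicative.ofAdd ((D i).μ w)) *
              (h (Sum.inr (Sum.inr (Sum.inl i))))⁻¹ =
            X (Multiplicative.ofAdd ((D i).ν w)) := h1
        rw [← h2]
        group
      · exact a3
    · exact comm_X X _ (fun j => by rw [hX]; exact a4 j)
    · exact a5
    · exact comm_X X _ (fun j => by rw [hX]; exact a6 j)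
    · exact a7
    · exact a8
    · exact a9
    · rw [hX]; exact a10
    · exact a11
    · intro w
      have h1 : ∀ w, Commute ((h (Sum.inr (Sum.inr (Sum.inr 2))))⁻¹ *
          h (Sum.inr (Sum.inr (Sum.inr 3))) * h (Sum.inr (Sum.inr (Sum.inr 2)))) (X w) := by
        apply comm_X
        intro j
        rw [hX]
        have h2 := a12 j
        have h3 := (MulAut.conj (h (Sum.inr (Sum.inr (Sum.inr 2))))⁻¹).toMonoidHom
        have h4 := h2.map (MulAut.conj (h (Sum.inr (Sum.inr (Sum.inr 2))))⁻¹).toMonoidHom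
        have e1 : ∀ y, (MulAut.conj (h (Sum.inr (Sum.inr (Sum.inr 2))))⁻¹).toMonoidHom y =
          (h (Sum.inr (Sum.inr (Sum.inr 2))))⁻¹ * y * (h (Sum.inr (Sum.inr (Sum.inr 2)))) := by
          intro y
          show (h (Sum.inr (Sum.inr (Sum.inr 2))))⁻¹ * y *
            (h (Sum.inr (Sum.inr (Sum.inr 2))))⁻¹⁻¹ = _
          rw [inv_inv]
        rw [e1, e1] at h4
        have e2 : (h (Sum.inr (Sum.inr (Sum.inr 2))))⁻¹ *
            (h (Sum.inr (Sum.inr (Sum.inr 2))) * h (Sum.inl j) *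
              (h (Sum.inr (Sum.inr (Sum.inr 2))))⁻¹) * h (Sum.inr (Sum.inr (Sum.inr 2))) =
            h (Sum.inl j) := by group
        rw [e2] at h4
        exact h4
      have h4 := (h1 w).map (MulAut.conj (h (Sum.inr (Sum.inr (Sum.inr 2))))).toMonoidHom
      have e1 : ∀ y, (MulAut.conj (h (Sum.inr (Sum.inr (Sum.inr 2))))).toMonoidHom y =
          (h (Sum.inr (Sum.inr (Sum.inr 2)))) * y * (h (Sum.inr (Sum.inr (Sum.inr 2))))⁻¹ :=
        fun y => rfl
      rw [e1, e1] at h4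
      have e2 : h (Sum.inr (Sum.inr (Sum.inr 2))) * ((h (Sum.inr (Sum.inr (Sum.inr 2))))⁻¹ *
          h (Sum.inr (Sum.inr (Sum.inr 3))) * h (Sum.inr (Sum.inr (Sum.inr 2)))) *
          (h (Sum.inr (Sum.inr (Sum.inr 2))))⁻¹ = h (Sum.inr (Sum.inr (Sum.inr 3))) := by group
      rw [e2] at h4
      exact h4
    · exact a13
    · exact a14
    · exact a15
    · exact a16
    · exact a17
    · exact a18
  · rintro ⟨X, hX, hR⟩
    constructor
    all_goals
      simp only [map_mul, map_inv, map_pow, map_one, FreeGroup.lift_apply_of, lift_xw h X hX]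
    · intro j j'
      rw [← hX, ← hX]
      exact (Commute.all _ _).map X
    · intro i k
      exact hR.rel.shift i (Pi.single k 1)
    · exact hR.rel.rule
    · intro j; rw [← hX]; exact hR.zx _
    · exact hR.zr
    · intro j; rw [← hX]; exact hR.ux _
    · exact hR.ut
    · exact hR.ur
    · exact hR.uz
    · rw [← hX]; exact hR.vx
    · exact hR.vt
    · intro j; rw [← hX]; exact hR.τx _
    · exact hR.τt
    · exact hR.τr'
    · exact hR.τz
    · exact hR.τr
    · exact hR.c2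
    · exact hR.cz

/-- PRES. -/
theorem pres {P ι J : Type} [Fintype P] [Fintype ι] [Fintype J] [DecidableEq J]
    (D : ι → Rule P J) (B : P) (e : J) : ∃ L : List (List (Gen P ι J × Bool)),
    ∀ (H : Type) [Group H] (h : Gen P ι J → H),
      (∀ w ∈ L, FreeGroup.lift h (FreeGroup.mk w) = 1) ↔
      ∃ X : Multiplicative (J → ℤ) →* H,
        (∀ j, X (Multiplicative.ofAdd (Pi.single j 1)) = h (Sum.inl j)) ∧
        GenRel D B e H X (fun p => h (Sum.inr (Sum.inl p)))
          (fun i => h (Sum.inr (Sum.inr (Sum.inl i)))) (h (Sum.inr (Sum.inr (Sum.inr 0))))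
          (h (Sum.inr (Sum.inr (Sum.inr 1)))) (h (Sum.inr (Sum.inr (Sum.inr 2))))
          (h (Sum.inr (Sum.inr (Sum.inr 3)))) (h (Sum.inr (Sum.inr (Sum.inr 4)))) := by
  classical
  obtain ⟨L, hL⟩ := fd_eqs D B e
  refine ⟨L.map FreeGroup.toWord, ?_⟩
  intro H _ h
  have hL' : (∀ w ∈ L, FreeGroup.lift h w = 1) ↔ Eqs D B e H h := hL H h
  rw [← eqs_iff, ← hL']
  simp only [List.mem_map, forall_exists_index, and_imp, forall_apply_eq_imp_iff₂,
    FreeGroup.mk_toWord]

end Pool.Agent.Q236.ISO
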