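import Mathlib
import Pool.Agent.Q236.ISO.IN
import Pool.Agent.Q236.ISO.PR
import Pool.Agent.Q236.ISO.CO
import Pool.Agent.Q236.ISO.GR

/-!
Isomorphism of finite presentations is a complete c.e. equivalence relation.
-/

set_option autoImplicit false

namespace Pool.Agent.Q236.ISO

open Pool.Agent.H665Simp

theorem amal_conj' {E U : Type} [Group E] [Group U] (β β' : E →* U) (ρ : U)
    (h : ∀ e, β e = ρ * β' e * ρ⁻¹) : ∃ Φ : Amal β →* Amal β', (∀ x, Φ (oU β x) = oU β' x) ∧
      Φ (cc β) = oU β' ρ * cc β' * (oU β' ρ)⁻¹ := by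
  refine amUP β (oU β') (oU β' ρ * cc β' * (oU β' ρ)⁻¹) ?_ ?_
  · rw [conj_pow, cc_sq]
    group
  · intro e
    have h1 : Commute (cc β') (oU β' (β' e)) := by
      rw [oU_β]
      exact cc_comm β' (e, 1)
    have h2 := h1.map (MulAut.conj (oU β' ρ)).toMonoidHom
    rw [h, map_mul, map_mul, map_inv]
    exact h2

theorem amal_conj {E U : Type} [Group E] [Group U] (β β' : E →* U) (ρ : U)
    (h : ∀ e, β e = ρ * β' e * ρ⁻¹) : Nonempty (Amal β ≃* Amal β') := by
  obtain ⟨Φ, a1, a2⟩ := amal_conj' β β' ρ h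
  obtain ⟨Ψ, b1, b2⟩ := amal_conj' β' β ρ⁻¹ (by
    intro e
    rw [h]; group)
  refine ⟨MonoidHom.toMulEquiv Φ Ψ ?_ ?_⟩
  · apply MonoidHom.eq_of_eqOn_dense (am_top β)
    rintro x (⟨y, rfl⟩ | rfl)
    · show Ψ (Φ (oU β y)) = _
      rw [a1, b1]; rfl
    · show Ψ (Φ (cc β)) = cc β
      rw [a2]
      simp only [map_mul, map_inv, b1, b2]
      group
  · apply MonoidHom.eq_of_eqOn_dense (am_top β')
    rintro x (⟨y, rfl⟩ | rfl)
    · show Φ (Ψ (oU β' y)) = _
      rw [b1, a1]; rfl
    · show Φ (Ψ (cc β')) = cc β'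
      rw [b2]
      simp only [map_mul, map_inv, a1, a2]
      group

theorem amal_conj_bg {U : Type} [Group U] (a b : ℕ) (hab : a = b) (β : Bg (2 ^ (a + 1)) →* U)
    (β' : Bg (2 ^ (b + 1)) →* U) (ρ : U)
    (h1 : β (HNNExtension.of (Multiplicative.ofAdd 1)) =
      ρ * β' (HNNExtension.of (Multiplicative.ofAdd 1)) * ρ⁻¹)
    (h2 : β HNNExtension.t = ρ * β' HNNExtension.t * ρ⁻¹) : Nonempty (Amal β ≃* Amal β') := by
  subst hab
  apply amal_conj β β' ρ
  have h : β = (MulAut.conj ρ).toMonoidHom.comp β' := bg_ext _ _ h1 h2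
  intro e
  exact DFunLike.congr_fun h e

theorem map_s {G H : Type} [Group G] [Group H] (f : G →* H) (x t : G) (n : ℤ) :
    f (s x t n) = s (f x) (f t) n := by
  unfold s
  rw [map_mul, map_mul, map_zpow, map_zpow]

theorem Rel.map {P ι J : Type} {D : ι → Rule P J} {H H' : Type} [Group H] [Group H']
    {X : Multiplicative (J → ℤ) →* H} {t : P → H} {r : ι → H} (h : Rel D H X t r) (f : H →* H') :
    Rel D H' (f.comp X) (fun p => f (t p)) (fun i => f (r i)) := by
  constructor
  · intro i w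
    show f (r i) * f (X _) = f (X _) * f (r i)
    rw [← map_mul, ← map_mul, h.shift]
  · intro i
    rw [← T_map, ← T_map, ← map_mul, ← map_mul, h.rule]

/-- The isomorphism problem is a complete c.e. equivalence relation. -/
theorem main (R : ℕ → ℕ → Prop) (hR : Equivalence R) (hre : REPred fun p : ℕ × ℕ => R p.1 p.2) :
    ∃ f : ℕ → Cd, Computable f ∧ ∀ x y, R x y ↔ Nonempty (PG (f x) ≃* PG (f y)) := by
  classical
  obtain ⟨X, iX, n, m, L, hnm, hL⟩ := Pool.Agent.Y786.ISO.t R hre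
  let D : Ix L → Rule (Nd L) (X ⊕ Fin 2) := rls n m L
  obtain ⟨K, iK, XX, t, r, hRel, tfK, topK, univK, connK⟩ := kk (Nd L) (Ix L) (X ⊕ Fin 2) D
  let B : Nd L := Sum.inl ()
  let e : X ⊕ Fin 2 := Sum.inl n
  let x : K := XX (Multiplicative.ofAdd (Pi.single e 1))
  let Q : Subgroup K := Subgroup.closure (Set.range XX ∪ Set.range r)
  let Rr : Subgroup K := Subgroup.closure (Set.range r)
  obtain ⟨π, π1, π2, π3⟩ := univK K XX (fun _ => 1) r ⟨hRel.shift, by
    intro i
    simp [T]⟩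
  have hb : Bot K Q Rr π x (t B) := by
    refine ⟨tfK, ?_, ?_, ?_, ?_, π2 B⟩
    · intro k
      refine map_closure_le π (Set.range XX ∪ Set.range t ∪ Set.range r) Q ?_ k
        (by rw [topK]; trivial)
      rintro a ((⟨w, rfl⟩ | ⟨p, rfl⟩) | ⟨i, rfl⟩)
      · rw [π1]; exact Subgroup.subset_closure (Or.inl ⟨w, rfl⟩)
      · rw [π2]; exact one_mem _
      · rw [π3]; exact Subgroup.subset_closure (Or.inr ⟨i, rfl⟩)
    · have : Q ≤ π.eqLocus (MonoidHom.id K) := by
        rw [Subgroup.closure_le]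
        rintro a (⟨w, rfl⟩ | ⟨i, rfl⟩)
        · exact π1 w
        · exact π3 i
      exact fun q hq => this hq
    · exact Subgroup.closure_mono Set.subset_union_right
    · exact Subgroup.subset_closure (Or.inl ⟨_, rfl⟩)
  obtain ⟨U, iU, φ, z, u, v, τ, tfU, hRU, topU, univU, bet⟩ := tower K Q Rr π x (t B) hb
  -- connectedness
  have hs : ∀ a : ℤ, s x (t B) a = T XX t B (Pi.single e a) := by
    intro a
    have h1 : XX (Multiplicative.ofAdd (Pi.single e a)) = x ^ a := by
      show _ = (XX (Multiplicative.ofAdd (Pi.single e 1))) ^ a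
      rw [← map_zpow, ← ofAdd_zsmul]
      congr 2
      ext i
      by_cases hi : i = e
      · subst hi; simp
      · simp [hi]
    unfold s T
    rw [h1, zpow_neg]
  have hconn : ∀ a b : ℤ, Conn Rr x (t B) a b ↔
      (a = b ∨ ∃ a' b' : ℕ, a = a' ∧ b = b' ∧ R a' b') := by
    intro a b
    rw [← graph n m L R hR hnm hL a b]
    unfold Conn
    rw [hs, hs]
    exact connK B B (Pi.single e a) (Pi.single e b)
  -- the least representatives
  let mu : ℕ → ℕ := fun k => Nat.find (⟨k, hR.refl k⟩ : ∃ j, R k j)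
  have hmu1 : ∀ k, R k (mu k) := fun k => Nat.find_spec (⟨k, hR.refl k⟩ : ∃ j, R k j)
  have hmu2 : ∀ k j, R k j → mu k ≤ j := fun k j h =>
    Nat.find_min' (⟨k, hR.refl k⟩ : ∃ j, R k j) h
  have hmu3 : ∀ k k', R k k' → mu k = mu k' := by
    intro k k' h
    apply le_antisymm
    · exact hmu2 _ _ (hR.trans h (hmu1 k'))
    · exact hmu2 _ _ (hR.trans (hR.symm h) (hmu1 k))
  have hnat : ∀ (k : ℕ) (b : ℤ), Conn Rr x (t B) k b → ∃ j : ℕ, b = j ∧ R k j := by
    intro k b h
    rcases (hconn k b).1 h with h | ⟨a', b', h1, h2, h3⟩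
    · exact ⟨k, h.symm, hR.refl k⟩
    · refine ⟨b', h2, ?_⟩
      have : k = a' := by exact_mod_cast h1
      rw [this]; exact h3
  have hbet : ∀ k : ℕ, ∃ β : Bg (2 ^ (mu k + 1)) →* U, Function.Injective β ∧
      β (HNNExtension.of (Multiplicative.ofAdd 1)) = z ∧
      β HNNExtension.t = φ (s x (t B) k) * τ * (φ (s x (t B) k))⁻¹ := by
    intro k
    refine bet k ?_ (2 ^ (mu k + 1)) ?_ ?_
    · intro b h
      obtain ⟨j, rfl, _⟩ := hnat k b h
      exact Int.natCast_nonneg j
    · intro b h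
      obtain ⟨j, rfl, hj⟩ := hnat k b h
      rw [Int.toNat_natCast]
      exact pow_dvd_pow 2 (by have := hmu2 k j hj; omega)
    · refine ⟨(mu k : ℤ), (hconn _ _).2 (Or.inr ⟨k, mu k, rfl, rfl, hmu1 k⟩), ?_⟩
      rw [Int.toNat_natCast]
  choose β hβ hβz hβt using hbet
  obtain ⟨Lw, hLw⟩ := pres D B e
  obtain ⟨f, hf, hcode⟩ := code (Gen (Nd L) (Ix L) (X ⊕ Fin 2)) (Sum.inr (Sum.inr (Sum.inr 4)))
    (Sum.inl e) (Sum.inr (Sum.inl B)) (Sum.inr (Sum.inr (Sum.inr 3))) Lw
  have iso : ∀ k, Nonempty (PG (f k) ≃* Amal (β k)) := by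
    intro k
    obtain ⟨g, g1, g2, g3⟩ := hcode k
    let o : K →* Amal (β k) := (oU (β k)).comp φ
    let h : Gen (Nd L) (Ix L) (X ⊕ Fin 2) → Amal (β k) :=
      Sum.elim (fun j => o (XX (Multiplicative.ofAdd (Pi.single j 1))))
        (Sum.elim (fun p => o (t p)) (Sum.elim (fun i => o (r i))
          ![oU (β k) z, oU (β k) u, oU (β k) v, oU (β k) τ, cc (β k)]))
    have hc : ∀ y, Commute (cc (β k)) (oU (β k) (β k y)) := by
      intro y
      rw [oU_β]
      exact cc_comm (β k) (y, 1)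
    have hW : FreeGroup.lift h (FreeGroup.mk (W (Sum.inr (Sum.inr (Sum.inr 4)))
        (Sum.inl e) (Sum.inr (Sum.inl B)) (Sum.inr (Sum.inr (Sum.inr 3))) k)) = 1 := by
      rw [lift_W]
      have h1 := hc HNNExtension.t
      rw [hβt, map_mul, map_mul, map_inv] at h1
      have h2 : oU (β k) (φ (s x (t B) k)) = s (o x) (o (t B)) k := map_s o x (t B) k
      rw [h2] at h1
      exact h1
    have hG : GenRel D B e (Amal (β k)) (o.comp XX) (fun p => o (t p)) (fun i => o (r i))
        (oU (β k) z) (oU (β k) u) (oU (β k) v) (oU (β k) τ) (cc (β k)) := by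
      constructor
      · exact hRel.map o
      · intro w
        exact (hRU.zq (XX w) (Subgroup.subset_closure (Or.inl ⟨w, rfl⟩))).map (oU (β k))
      · intro i
        exact (hRU.zq (r i) (Subgroup.subset_closure (Or.inr ⟨i, rfl⟩))).map (oU (β k))
      · intro w; exact (hRU.uk (XX w)).map (oU (β k))
      · intro p; exact (hRU.uk (t p)).map (oU (β k))
      · intro i; exact (hRU.uk (r i)).map (oU (β k))
      · rw [← map_inv, ← map_mul, ← map_mul, hRU.uz]
        exact map_pow (oU (β k)) z 2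
      · have := hRU.vx.map (oU (β k))
        rw [map_mul] at this
        exact this
      · have := hRU.vt.map (oU (β k))
        have h5 : oU (β k) (z ^ 2) = oU (β k) z ^ 2 := map_pow (oU (β k)) z 2
        rw [map_mul, map_mul, map_inv, h5] at this
        exact this
      · intro w
        have := (hRU.τk (XX w)).map (oU (β k))
        rw [map_mul, map_mul, map_inv] at this
        exact this
      · intro p
        have := (hRU.τk (t p)).map (oU (β k))
        rw [map_mul, map_mul, map_inv] at this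
        exact this
      · intro i
        have := (hRU.τk (r i)).map (oU (β k))
        rw [map_mul, map_mul, map_inv] at this
        exact this
      · have := hRU.τz.map (oU (β k))
        rw [map_mul, map_mul, map_inv] at this
        exact this
      · intro i
        exact (hRU.τr (r i) (Subgroup.subset_closure ⟨i, rfl⟩)).map (oU (β k))
      · exact cc_sq (β k)
      · have := hc (HNNExtension.of (Multiplicative.ofAdd 1))
        rw [hβz] at this
        exact this
    have hL2 : ∀ w ∈ Lw, FreeGroup.lift h (FreeGroup.mk w) = 1 :=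
      (hLw _ h).2 ⟨o.comp XX, fun j => rfl, hG⟩
    obtain ⟨Φ, hΦ⟩ := g3 (Amal (β k)) h (by
      intro w hw
      rcases List.mem_cons.1 hw with rfl | hw
      · exact hW
      · exact hL2 w hw)
    -- the other map
    obtain ⟨X', hX', hG'⟩ := (hLw (PG (f k)) g).1 (fun w hw => g1 w (List.mem_cons_of_mem _ hw))
    have hW' := (lift_W g _ _ _ _ k).1 (g1 _ List.mem_cons_self)
    obtain ⟨ΦK, k1, k2, k3⟩ := univK (PG (f k)) X' _ _ hG'.rel
    have hx' : ΦK x = g (Sum.inl e) := (k1 _).trans (hX' e)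
    have ht' : ΦK (t B) = g (Sum.inr (Sum.inl B)) := k2 B
    obtain ⟨ΦU, u1, u2, u3, u4, u5⟩ := univU (PG (f k)) ΦK (g (Sum.inr (Sum.inr (Sum.inr 0))))
      (g (Sum.inr (Sum.inr (Sum.inr 1)))) (g (Sum.inr (Sum.inr (Sum.inr 2))))
      (g (Sum.inr (Sum.inr (Sum.inr 3)))) (by
      constructor
      · refine comm_closure ΦK _ _ ?_
        rintro a (⟨w, rfl⟩ | ⟨i, rfl⟩)
        · rw [k1]; exact hG'.zx w
        · rw [k3]; exact hG'.zr i
      · intro y
        refine comm_closure ΦK _ (Set.range XX ∪ Set.range t ∪ Set.range r) ?_ y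
          (by rw [topK]; trivial)
        rintro a ((⟨w, rfl⟩ | ⟨p, rfl⟩) | ⟨i, rfl⟩)
        · rw [k1]; exact hG'.ux w
        · rw [k2]; exact hG'.ut p
        · rw [k3]; exact hG'.ur i
      · exact hG'.uz
      · rw [hx', ← hX']; exact hG'.vx
      · rw [ht']; exact hG'.vt
      · intro y
        refine comm_closure ((MulAut.conj (g (Sum.inr (Sum.inr (Sum.inr 2))))).toMonoidHom.comp ΦK)
          _ (Set.range XX ∪ Set.range t ∪ Set.range r) ?_ y (by rw [topK]; trivial)
        rintro a ((⟨w, rfl⟩ | ⟨p, rfl⟩) | ⟨i, rfl⟩)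
        · show Commute _ (g (Sum.inr (Sum.inr (Sum.inr 2))) * ΦK (XX w) *
            (g (Sum.inr (Sum.inr (Sum.inr 2))))⁻¹)
          rw [k1]; exact hG'.τx w
        · show Commute _ (g (Sum.inr (Sum.inr (Sum.inr 2))) * ΦK (t p) *
            (g (Sum.inr (Sum.inr (Sum.inr 2))))⁻¹)
          rw [k2]; exact hG'.τt p
        · show Commute _ (g (Sum.inr (Sum.inr (Sum.inr 2))) * ΦK (r i) *
            (g (Sum.inr (Sum.inr (Sum.inr 2))))⁻¹)
          rw [k3]; exact hG'.τr' i
      · exact hG'.τz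
      · refine comm_closure ΦK _ _ ?_
        rintro a ⟨i, rfl⟩
        rw [k3]; exact hG'.τr i)
    obtain ⟨Ψ, p1, p2⟩ := amUP (β k) ΦU (g (Sum.inr (Sum.inr (Sum.inr 4)))) hG'.c2 (by
      intro y
      refine comm_closure (ΦU.comp (β k)) _
        ({HNNExtension.of (Multiplicative.ofAdd 1), HNNExtension.t} : Set (Bg (2 ^ (mu k + 1))))
        ?_ y (by rw [bg_top]; trivial)
      rintro a (rfl | rfl)
      · rw [MonoidHom.comp_apply, hβz, u2]
        exact hG'.cz
      · rw [MonoidHom.comp_apply, hβt, map_mul, map_mul, map_inv, u1, u5, map_s, hx', ht']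
        exact hW')
    refine ⟨MonoidHom.toMulEquiv Φ Ψ ?_ ?_⟩
    · apply MonoidHom.eq_of_eqOn_dense g2
      rintro y ⟨a, rfl⟩
      show Ψ (Φ (g a)) = g a
      rw [hΦ]
      rcases a with j | p | i | l
      · show Ψ (oU (β k) (φ (XX (Multiplicative.ofAdd (Pi.single j 1))))) = _
        rw [p1, u1, k1, hX']
      · show Ψ (oU (β k) (φ (t p))) = _
        rw [p1, u1, k2]
      · show Ψ (oU (β k) (φ (r i))) = _
        rw [p1, u1, k3]
      · fin_cases l
        · show Ψ (oU (β k) z) = _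
          rw [p1, u2]; rfl
        · show Ψ (oU (β k) u) = _
          rw [p1, u3]; rfl
        · show Ψ (oU (β k) v) = _
          rw [p1, u4]; rfl
        · show Ψ (oU (β k) τ) = _
          rw [p1, u5]; rfl
        · exact p2
    · have hK : Φ.comp ΦK = o := by
        apply MonoidHom.eq_of_eqOn_dense topK
        rintro y ((⟨w, rfl⟩ | ⟨p, rfl⟩) | ⟨i, rfl⟩)
        · have h1 : Φ.comp X' = o.comp XX := by
            apply hom_ext_pi
            intro j
            show Φ (X' _) = o (XX _)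
            rw [hX', hΦ]
            rfl
          show Φ (ΦK (XX w)) = o (XX w)
          rw [k1]
          exact DFunLike.congr_fun h1 w
        · show Φ (ΦK (t p)) = o (t p)
          rw [k2, hΦ]; rfl
        · show Φ (ΦK (r i)) = o (r i)
          rw [k3, hΦ]; rfl
      have hU : Φ.comp ΦU = oU (β k) := by
        apply MonoidHom.eq_of_eqOn_dense topU
        rintro y (⟨w, rfl⟩ | h1)
        · show Φ (ΦU (φ w)) = _
          rw [u1]
          exact DFunLike.congr_fun hK w
        · rcases h1 with rfl | rfl | rfl | rfl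
          · show Φ (ΦU _) = _
            rw [u2, hΦ]; rfl
          · show Φ (ΦU _) = _
            rw [u3, hΦ]; rfl
          · show Φ (ΦU _) = _
            rw [u4, hΦ]; rfl
          · show Φ (ΦU _) = _
            rw [u5, hΦ]; rfl
      apply MonoidHom.eq_of_eqOn_dense (am_top (β k))
      rintro y (⟨w, rfl⟩ | rfl)
      · show Φ (Ψ (oU (β k) w)) = _
        rw [p1]
        exact DFunLike.congr_fun hU w
      · show Φ (Ψ (cc (β k))) = _
        rw [p2, hΦ]
        rfl
  refine ⟨f, hf, ?_⟩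
  intro a b
  obtain ⟨ea⟩ := iso a
  obtain ⟨eb⟩ := iso b
  constructor
  · intro hab
    have h1 := (hconn a b).2 (Or.inr ⟨a, b, rfl, rfl, hab⟩)
    obtain ⟨ρ, hρ, h2⟩ := h1
    obtain ⟨Θ⟩ := amal_conj_bg (mu a) (mu b) (hmu3 a b hab) (β a) (β b) (φ ρ) (by
      rw [hβz, hβz]
      have h3 := (hRU.zq ρ (hb.le hρ)).eq
      rw [← h3]
      group) (by
      rw [hβt, hβt, h2, map_mul, map_mul, map_inv]
      have h3 : Commute τ (φ ρ) := hRU.τr ρ hρ
      have h4 : (φ ρ)⁻¹ * τ * φ ρ = τ := by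
        rw [mul_assoc, h3.eq]; group
      have h5 : φ ρ * φ (s x (t B) b) * (φ ρ)⁻¹ * τ * (φ ρ * φ (s x (t B) b) * (φ ρ)⁻¹)⁻¹ =
          φ ρ * (φ (s x (t B) b) * ((φ ρ)⁻¹ * τ * φ ρ) * (φ (s x (t B) b))⁻¹) * (φ ρ)⁻¹ := by
        group
      rw [h5, h4])
    exact ⟨(ea.trans Θ).trans eb.symm⟩
  · rintro ⟨Θ⟩
    have h1 := inv U (mu a) (mu b) (β a) (β b) tfU (hβ a) (hβ b) ⟨(ea.symm.trans Θ).trans eb⟩
    have h2 := hmu1 a
    rw [h1] at h2
    exact hR.trans h2 (hR.symm (hmu1 b))

end Pool.Agent.Q236.ISO
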